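import Pool.Agent.H33.TS.Block3

/-!
# Sparse sets which every dense sumset with few representations meets
-/

set_option autoImplicit false

namespace Pool.Agent.H33.TS

open Filter

/-- the number of sums in a block -/
noncomputable def sums (A : Set ℕ) (k : ℕ) : ℕ :=
  {n : ℕ | 4 ^ k ≤ n ∧ n < 4 ^ (k + 1) ∧ 1 ≤ rep A n}.ncard

theorem block4 : ∃ c : ℕ → ℝ, (∀ K, 0 < c K) ∧ ∀ H k : ℕ, 1 ≤ H →
    ∃ f : Fin (2 ^ k * H) → ℕ, (∀ i, 4 ^ k ≤ f i ∧ f i < 4 ^ (k + 1)) ∧
      ∀ (K : ℕ) (A : Set ℕ), (∀ n, rep A n ≤ K) → (∀ i, rep A (f i) = 0) →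
        (H : ℝ) * sums A k ≤ c K * 4 ^ k := by
  classical
  choose C hC hcount using fun K => Pool.Agent.Y940.CH.counting 2 K le_rfl
  set c : ℕ → ℝ := fun K => 6 * ∑ j ∈ Finset.range (K + 1), C j + 6 * (K + 1) with hc
  have hcmono : Monotone c := by
    intro K L hKL
    have h1 : ∑ j ∈ Finset.range (K + 1), C j ≤ ∑ j ∈ Finset.range (L + 1), C j :=
      Finset.sum_le_sum_of_subset_of_nonneg
        (Finset.range_subset_range.2 (by omega)) fun j _ _ => (hC j).le
    have h2 : (K : ℝ) ≤ L := by exact_mod_cast hKL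
    simp only [hc]
    linarith
  have hcC : ∀ K, 6 * C K + 6 * (K + 1) ≤ c K := by
    intro K
    have h1 : C K ≤ ∑ j ∈ Finset.range (K + 1), C j :=
      Finset.single_le_sum (f := C) (fun j _ => (hC j).le) (Finset.self_mem_range_succ K)
    simp only [hc]
    linarith
  have hc0 : ∀ K, 0 < c K := fun K => by
    have h1 := hcC K
    have h2 := hC K
    have h3 : (0 : ℝ) ≤ K := Nat.cast_nonneg K
    linarith
  refine ⟨c, hc0, fun H k hH => ?_⟩
  have hH0 : (0 : ℝ) < H := by exact_mod_cast hH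
  set s : ℕ := 2 ^ k * H with hs
  set N : ℕ := 4 ^ (k + 1) with hN
  have hN1 : 1 ≤ N := Nat.one_le_pow _ _ (by norm_num)
  set I : Finset ℕ := Finset.Ico (4 ^ k) (4 ^ (k + 1)) with hI
  have hIc : I.card = 3 * 4 ^ k := by
    rw [hI, Nat.card_Ico, pow_succ]
    omega
  set cov : Finset ℕ → Finset ℕ := fun B => I.filter fun n => rep (B : Set ℕ) n = 0 with hcov
  set F : ℕ → Finset (Finset ℕ) := fun K => (Finset.range (N + 1)).powerset.filter fun B =>
    (∀ n, rep (B : Set ℕ) n ≤ K) ∧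
      c K * 4 ^ k < H * ((I.filter fun n => 1 ≤ rep (B : Set ℕ) n).card : ℝ) with hF
  -- the size of the families
  have hFc : ∀ K, ((F K).card : ℝ) ≤ Real.exp (2 * C K * 2 ^ k) := by
    intro K
    have h1 := hcount K N hN1
    have hfin : {B : Set ℕ | B ⊆ Set.Iic N ∧
        ∀ n, Pool.Agent.Y940.CH.rep B 2 n ≤ K}.Finite :=
      ((Set.finite_Iic N).finite_subsets).subset fun B hB => hB.1
    have h2 : (F K).card ≤ {B : Set ℕ | B ⊆ Set.Iic N ∧
        ∀ n, Pool.Agent.Y940.CH.rep B 2 n ≤ K}.ncard := by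
      have h3 : ((fun B : Finset ℕ => (B : Set ℕ)) '' (F K : Set (Finset ℕ))) ⊆
          {B : Set ℕ | B ⊆ Set.Iic N ∧ ∀ n, Pool.Agent.Y940.CH.rep B 2 n ≤ K} := by
        rintro _ ⟨B, hB, rfl⟩
        have hB' := Finset.mem_filter.1 (Finset.mem_coe.1 hB)
        refine ⟨fun x hx => ?_, fun n => (rep2_le _ n).trans (hB'.2.1 n)⟩
        have h4 := Finset.mem_powerset.1 hB'.1 (Finset.mem_coe.1 hx)
        rw [Finset.mem_range] at h4
        exact Set.mem_Iic.2 (by omega)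
      have h4 := Set.ncard_le_ncard h3 hfin
      rwa [Set.ncard_image_of_injective _ Finset.coe_injective, Set.ncard_coe_finset] at h4
    have h3 : C K * (N : ℝ) ^ (1 / ((2 : ℕ) : ℝ)) = 2 * C K * 2 ^ k := by
      have h5 : (N : ℝ) = (2 ^ (k + 1)) ^ 2 := by
        rw [hN]
        push_cast
        rw [← pow_mul, mul_comm (k + 1) 2, pow_mul]
        norm_num
      rw [h5]
      have h6 : (((2 : ℝ) ^ (k + 1)) ^ 2) ^ (1 / ((2 : ℕ) : ℝ)) = 2 ^ (k + 1) := by
        rw [← Real.rpow_natCast (((2 : ℝ) ^ (k + 1))) 2, ← Real.rpow_mul (by positivity)]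
        norm_num
      rw [h6]
      ring
    calc ((F K).card : ℝ) ≤ (({B : Set ℕ | B ⊆ Set.Iic N ∧
        ∀ n, Pool.Agent.Y940.CH.rep B 2 n ≤ K}.ncard : ℕ) : ℝ) := by exact_mod_cast h2
      _ ≤ Real.exp (C K * (N : ℝ) ^ (1 / ((2 : ℕ) : ℝ))) := h1
      _ = Real.exp (2 * C K * 2 ^ k) := by rw [h3]
  -- the size of the covered sets
  have hcovc : ∀ K, ∀ B ∈ F K,
      ((cov B).card : ℝ) ≤ (3 * 4 ^ k) * Real.exp (-(c K / (3 * H))) := by
    intro K B hB
    have hB' := (Finset.mem_filter.1 hB).2.2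
    have h1 : (cov B).card + (I.filter fun n => 1 ≤ rep (B : Set ℕ) n).card = 3 * 4 ^ k := by
      rw [← hIc, ← Finset.card_filter_add_card_filter_not (s := I)
        (p := fun n => rep (B : Set ℕ) n = 0)]
      congr 2
      ext n
      simp only [Finset.mem_filter]
      constructor
      · rintro ⟨h1, h2⟩
        exact ⟨h1, by omega⟩
      · rintro ⟨h1, h2⟩
        exact ⟨h1, by omega⟩
    have h2 : ((cov B).card : ℝ) + ((I.filter fun n => 1 ≤ rep (B : Set ℕ) n).card : ℝ) =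
        3 * 4 ^ k := by exact_mod_cast h1
    have h4 : c K * 4 ^ k / H ≤ ((I.filter fun n => 1 ≤ rep (B : Set ℕ) n).card : ℝ) := by
      rw [div_le_iff₀ hH0]
      linarith
    have h5 : (3 * 4 ^ k : ℝ) * (1 - c K / (3 * H)) = 3 * 4 ^ k - c K * 4 ^ k / H := by
      field_simp
    have h6 : 1 - c K / (3 * H) ≤ Real.exp (-(c K / (3 * H))) := by
      have := Real.add_one_le_exp (-(c K / (3 * (H : ℝ))))
      linarith
    calc ((cov B).card : ℝ) ≤ 3 * 4 ^ k - c K * 4 ^ k / H := by linarith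
      _ = (3 * 4 ^ k : ℝ) * (1 - c K / (3 * H)) := h5.symm
      _ ≤ (3 * 4 ^ k) * Real.exp (-(c K / (3 * H))) :=
          mul_le_mul_of_nonneg_left h6 (by positivity)
  have hone : ∀ K : ℕ, ∑ B ∈ F K, ((cov B).card : ℝ) ^ s ≤
      (3 * 4 ^ k : ℝ) ^ s * (1 / 4) ^ (K + 1) := by
    intro K
    calc (∑ B ∈ F K, ((cov B).card : ℝ) ^ s)
        ≤ ∑ B ∈ F K, ((3 * 4 ^ k : ℝ) * Real.exp (-(c K / (3 * H)))) ^ s :=
          Finset.sum_le_sum fun B hB => pow_le_pow_left₀ (by positivity) (hcovc K B hB) s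
      _ = (3 * 4 ^ k : ℝ) ^ s * ((F K).card * (Real.exp (-(c K / (3 * H)))) ^ s) := by
          rw [Finset.sum_const, nsmul_eq_mul, mul_pow]
          ring
      _ ≤ (3 * 4 ^ k : ℝ) ^ s *
          (Real.exp (2 * C K * 2 ^ k) * (Real.exp (-(c K / (3 * H)))) ^ s) := by
          refine mul_le_mul_of_nonneg_left ?_ (by positivity)
          exact mul_le_mul_of_nonneg_right (hFc K) (by positivity)
      _ ≤ (3 * 4 ^ k : ℝ) ^ s * (1 / 4) ^ (K + 1) := by
          refine mul_le_mul_of_nonneg_left ?_ (by positivity)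
          rw [← Real.exp_nat_mul, ← Real.exp_add]
          have h2 : (s : ℝ) = 2 ^ k * H := by
            rw [hs]
            push_cast
            ring
          rw [h2]
          have h3 : (2 : ℝ) * C K * 2 ^ k + 2 ^ k * H * -(c K / (3 * H)) =
              2 ^ k * ((6 * C K - c K) / 3) := by
            field_simp
            ring
          rw [h3]
          have h4 := hcC K
          have h5 : (1 : ℝ) ≤ 2 ^ k := one_le_pow₀ (by norm_num)
          have h6 : (2 : ℝ) ^ k * ((6 * C K - c K) / 3) ≤ ((K + 1 : ℕ) : ℝ) * (-2) := by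
            have h7 : (6 * C K - c K) / 3 ≤ -(2 * ((K : ℝ) + 1)) := by linarith
            have h8 : (0 : ℝ) ≤ K := Nat.cast_nonneg K
            push_cast
            nlinarith
          calc Real.exp (2 ^ k * ((6 * C K - c K) / 3)) ≤ Real.exp (((K + 1 : ℕ) : ℝ) * (-2)) :=
                Real.exp_le_exp.2 h6
            _ = (Real.exp (-2)) ^ (K + 1) := Real.exp_nat_mul _ _
            _ ≤ (1 / 4) ^ (K + 1) := by
                refine pow_le_pow_left₀ (Real.exp_pos _).le ?_ _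
                rw [Real.exp_neg, ← one_div]
                refine one_div_le_one_div_of_le (by norm_num) ?_
                have h9 := Real.exp_one_gt_d9
                have h10 : Real.exp 2 = Real.exp 1 * Real.exp 1 := by
                  rw [← Real.exp_add]
                  norm_num
                rw [h10]
                nlinarith
  set FF : Finset (Finset ℕ) := (Finset.range (N + 2)).biUnion F with hFF
  have hsum : ∑ B ∈ FF, (cov B).card ^ s < I.card ^ s := by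
    rw [hIc]
    have h1 : (∑ B ∈ FF, ((cov B).card : ℝ) ^ s) < (3 * 4 ^ k : ℝ) ^ s := by
      have hbi : ∑ B ∈ FF, ((cov B).card : ℝ) ^ s ≤
          ∑ K ∈ Finset.range (N + 2), ∑ B ∈ F K, ((cov B).card : ℝ) ^ s := by
        rw [hFF]
        have : ∀ t : Finset ℕ, ∑ B ∈ t.biUnion F, ((cov B).card : ℝ) ^ s ≤
            ∑ K ∈ t, ∑ B ∈ F K, ((cov B).card : ℝ) ^ s := by
          intro t
          induction t using Finset.induction_on with
          | empty => simp
          | insert a s' ha ih =>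
              rw [Finset.biUnion_insert, Finset.sum_insert ha]
              have h1 := Finset.sum_union_inter (s₁ := F a) (s₂ := s'.biUnion F)
                (f := fun B => ((cov B).card : ℝ) ^ s)
              have h2 : 0 ≤ ∑ B ∈ F a ∩ s'.biUnion F, ((cov B).card : ℝ) ^ s :=
                Finset.sum_nonneg fun n _ => by positivity
              linarith
        exact this _
      calc (∑ B ∈ FF, ((cov B).card : ℝ) ^ s)
          ≤ ∑ K ∈ Finset.range (N + 2), ∑ B ∈ F K, ((cov B).card : ℝ) ^ s := hbi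
        _ ≤ ∑ K ∈ Finset.range (N + 2), (3 * 4 ^ k : ℝ) ^ s * (1 / 4) ^ (K + 1) :=
            Finset.sum_le_sum fun K _ => hone K
        _ = (3 * 4 ^ k : ℝ) ^ s * ∑ K ∈ Finset.range (N + 2), (1 / 4 : ℝ) ^ (K + 1) := by
            rw [Finset.mul_sum]
        _ < (3 * 4 ^ k : ℝ) ^ s * 1 := by
            refine mul_lt_mul_of_pos_left ?_ (by positivity)
            have h2 : ∑ K ∈ Finset.range (N + 2), (1 / 4 : ℝ) ^ (K + 1) =
                1 / 4 * ∑ K ∈ Finset.range (N + 2), (1 / 4 : ℝ) ^ K := by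
              rw [Finset.mul_sum]
              exact Finset.sum_congr rfl fun K _ => by rw [pow_succ]; ring
            rw [h2, geom_sum_eq (by norm_num)]
            have h3 : (0 : ℝ) < (1 / 4) ^ (N + 2) := by positivity
            have h4 : ((1 / 4 : ℝ) ^ (N + 2) - 1) / (1 / 4 - 1) =
                4 / 3 * (1 - (1 / 4 : ℝ) ^ (N + 2)) := by ring
            rw [h4]
            linarith
        _ = (3 * 4 ^ k : ℝ) ^ s := mul_one _
    exact_mod_cast h1
  obtain ⟨f, hf, hf2⟩ := exists_fn I FF cov (fun B _ => Finset.filter_subset _ _) s hsum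
  refine ⟨f, fun i => by simpa [hI] using hf i, fun K A hA hcovA => ?_⟩
  by_contra hcon
  push Not at hcon
  -- the initial segment of `A`
  have hfin : (A ∩ Set.Iic N).Finite := (Set.finite_Iic N).subset Set.inter_subset_right
  set B : Finset ℕ := hfin.toFinset with hB
  have hBA : (B : Set ℕ) = A ∩ Set.Iic N := hfin.coe_toFinset
  have hrepB : ∀ n ≤ N, rep (B : Set ℕ) n = rep A n := fun n hn => by
    rw [hBA, rep_inter A hn]
  have hBr : B ⊆ Finset.range (N + 1) := by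
    intro x hx
    rw [hB, Set.Finite.mem_toFinset] at hx
    rw [Finset.mem_range]
    have := Set.mem_Iic.1 hx.2
    omega
  have hBF : B ∈ FF := by
    rw [hFF, Finset.mem_biUnion]
    refine ⟨min K (N + 1), Finset.mem_range.2 (by omega), ?_⟩
    rw [hF]
    simp only
    rw [Finset.mem_filter, Finset.mem_powerset]
    refine ⟨hBr, fun n => le_min ?_ ?_, ?_⟩
    · rw [hBA]
      exact (rep_mono Set.inter_subset_left n).trans (hA n)
    · refine (rep_le_card B n).trans ((Finset.card_le_card hBr).trans ?_)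
      rw [Finset.card_range]
    · have h1 : {n : ℕ | 4 ^ k ≤ n ∧ n < 4 ^ (k + 1) ∧ 1 ≤ rep A n} =
          ((I.filter fun n => 1 ≤ rep (B : Set ℕ) n : Finset ℕ) : Set ℕ) := by
        ext n
        simp only [Set.mem_ofPred_eq, Finset.coe_filter, hI, Finset.mem_Ico]
        constructor
        · rintro ⟨h1, h2, h3⟩
          exact ⟨⟨h1, h2⟩, by rw [hrepB n (by omega)]; exact h3⟩
        · rintro ⟨⟨h1, h2⟩, h3⟩
          exact ⟨h1, h2, by rw [← hrepB n (by omega)]; exact h3⟩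
      unfold sums at hcon
      rw [h1, Set.ncard_coe_finset] at hcon
      refine lt_of_le_of_lt ?_ hcon
      exact mul_le_mul_of_nonneg_right (hcmono (min_le_left _ _)) (by positivity)
  obtain ⟨i, hi⟩ := hf2 B hBF
  apply hi
  rw [hcov]
  simp only [Finset.mem_filter]
  have h1 := hf i
  refine ⟨h1, ?_⟩
  have h2 := (Finset.mem_Ico.1 (hI ▸ h1)).2
  rw [hrepB _ (by omega)]
  exact hcovA i


theorem sums_le (A : Set ℕ) (k : ℕ) : sums A k ≤ 3 * 4 ^ k := by
  classical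
  unfold sums
  have h1 : {n : ℕ | 4 ^ k ≤ n ∧ n < 4 ^ (k + 1) ∧ 1 ≤ rep A n} ⊆
      ((Finset.Ico (4 ^ k) (4 ^ (k + 1)) : Finset ℕ) : Set ℕ) := by
    rintro n ⟨h1, h2, -⟩
    rw [Finset.mem_coe, Finset.mem_Ico]
    exact ⟨h1, h2⟩
  refine (Set.ncard_le_ncard h1 (Finset.finite_toSet _)).trans ?_
  rw [Set.ncard_coe_finset, Nat.card_Ico, pow_succ]
  omega

/-- the sums up to `N` -/
theorem sums_sum (A : Set ℕ) (N : ℕ) :
    {n : ℕ | 1 ≤ n ∧ n ≤ N ∧ 1 ≤ rep A n}.ncard ≤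
      ∑ k ∈ Finset.range (Nat.log 4 N + 1), sums A k := by
  classical
  have hfin : ∀ k, {n : ℕ | 4 ^ k ≤ n ∧ n < 4 ^ (k + 1) ∧ 1 ≤ rep A n}.Finite := fun k =>
    (Set.finite_Iio (4 ^ (k + 1))).subset fun n hn => hn.2.1
  have h1 : {n : ℕ | 1 ≤ n ∧ n ≤ N ∧ 1 ≤ rep A n} ⊆
      (((Finset.range (Nat.log 4 N + 1)).biUnion fun k => (hfin k).toFinset : Finset ℕ) :
        Set ℕ) := by
    rintro n ⟨hn1, hn2, hn3⟩
    rw [Finset.mem_coe, Finset.mem_biUnion]
    refine ⟨Nat.log 4 n, ?_, ?_⟩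
    · rw [Finset.mem_range]
      have := Nat.log_mono_right (b := 4) hn2
      omega
    · rw [Set.Finite.mem_toFinset]
      exact ⟨Nat.pow_log_le_self 4 (by omega), Nat.lt_pow_succ_log_self (by norm_num) n, hn3⟩
  refine (Set.ncard_le_ncard h1 (Finset.finite_toSet _)).trans ?_
  rw [Set.ncard_coe_finset]
  refine Finset.card_biUnion_le.trans (Finset.sum_le_sum fun k _ => ?_)
  unfold sums
  rw [Set.ncard_eq_toFinset_card _ (hfin k)]

/-- the number of pairs -/
theorem count_sq_le (A : Set ℕ) (K N : ℕ) (hK : ∀ n, rep A n ≤ K) :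
    (count A N) ^ 2 ≤ K * {n : ℕ | 1 ≤ n ∧ n ≤ 2 * N ∧ 1 ≤ rep A n}.ncard := by
  classical
  have hfin : (A ∩ Set.Icc 1 N).Finite := (Set.finite_Icc 1 N).subset Set.inter_subset_right
  set P : Finset ℕ := hfin.toFinset with hP
  have hPm : ∀ x, x ∈ P ↔ x ∈ A ∧ 1 ≤ x ∧ x ≤ N := by
    intro x
    rw [hP, Set.Finite.mem_toFinset]
    rfl
  have hPc : P.card = count A N := by
    unfold count
    rw [Set.ncard_eq_toFinset_card _ hfin]
  have h1 := Finset.card_le_mul_card_image (f := fun p : ℕ × ℕ => p.1 + p.2) (P ×ˢ P) K (by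
    intro n hn
    refine le_trans ?_ (hK n)
    unfold rep
    rw [← Set.ncard_coe_finset]
    refine Set.ncard_le_ncard ?_ (rep_finite A n)
    intro p hp
    rw [Finset.mem_coe, Finset.mem_filter, Finset.mem_product, hPm, hPm] at hp
    exact ⟨hp.1.1.1, hp.1.2.1, hp.2⟩)
  rw [Finset.card_product, hPc, ← sq] at h1
  refine h1.trans (Nat.mul_le_mul_left _ ?_)
  rw [← Set.ncard_coe_finset]
  refine Set.ncard_le_ncard ?_ ((Set.finite_Icc 1 (2 * N)).subset fun n hn => ⟨hn.1, hn.2.1⟩)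
  intro n hn
  rw [Finset.mem_coe, Finset.mem_image] at hn
  obtain ⟨p, hp, rfl⟩ := hn
  rw [Finset.mem_product, hPm, hPm] at hp
  refine ⟨by omega, by omega, one_le_rep.2 ⟨p.1, hp.1.1, p.2, hp.2.1, rfl⟩⟩

/-- **The local form.** -/
theorem part4 : ∃ c : ℕ → ℝ, (∀ K, 0 < c K) ∧ ∀ H : ℕ → ℕ, (∀ k, 1 ≤ H k) →
    ∃ T : ℕ → Finset ℕ, (∀ k, (T k).card ≤ 2 ^ k * H k ∧ ∀ n ∈ T k, 4 ^ k ≤ n ∧ n < 4 ^ (k + 1)) ∧
    ∀ (K : ℕ) (A : Set ℕ), (∀ n, rep A n ≤ K) → ∀ k : ℕ,
      (∀ n ∈ T k, rep A n = 0) → (H k : ℝ) * sums A k ≤ c K * 4 ^ k := by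
  classical
  obtain ⟨c, hc0, hc⟩ := block4
  refine ⟨c, hc0, fun H hH => ?_⟩
  choose f hf hA using fun k => hc (H k) k (hH k)
  refine ⟨fun k => Finset.univ.image (f k), fun k => ⟨?_, ?_⟩, fun K A hK k hcov => ?_⟩
  · exact Finset.card_image_le.trans (by simp)
  · intro n hn
    obtain ⟨i, -, rfl⟩ := Finset.mem_image.1 hn
    exact hf k i
  · exact hA k K A hK fun i => hcov _ (Finset.mem_image_of_mem _ (Finset.mem_univ i))

/-- **The density bound.** -/
theorem part5 : ∃ c : ℕ → ℝ, (∀ K, 0 < c K) ∧ ∀ h : ℕ → ℝ, Monotone h →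
    (∀ N, 1 ≤ N → 1 ≤ h N ∧ h N ≤ N) → ∃ R : Set ℕ,
      (∀ N, 1 ≤ N → (count R N : ℝ) ≤ 2 * h N * √N) ∧
      ∀ (K : ℕ) (A : Set ℕ), (∀ n, rep A n ≤ K) → {n : ℕ | n ∈ R ∧ 1 ≤ rep A n}.Finite →
        ∀ᶠ N : ℕ in atTop, (count A N : ℝ) ^ 2 * h (Nat.sqrt N) ≤ c K * N := by
  classical
  obtain ⟨c, hc0, hc⟩ := part4
  refine ⟨fun K => (K + 1) * (4 + 6 * c K), fun K => by have := hc0 K; positivity,
    fun h hm hb => ?_⟩
  set H : ℕ → ℕ := fun k => ⌊h (4 ^ k)⌋₊ with hH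
  have hb4 : ∀ k, 1 ≤ h (4 ^ k) := fun k => (hb _ (Nat.one_le_pow _ _ (by norm_num))).1
  have hH1 : ∀ k, 1 ≤ H k := fun k => by
    rw [hH]
    exact Nat.le_floor (by simpa using hb4 k)
  have hHle : ∀ k, (H k : ℝ) ≤ h (4 ^ k) := fun k => Nat.floor_le (by linarith [hb4 k])
  have hHge : ∀ k, h (4 ^ k) / 2 ≤ (H k : ℝ) := fun k => by
    have h1 := Nat.lt_floor_add_one (h (4 ^ k))
    have h2 : (1 : ℝ) ≤ H k := by exact_mod_cast hH1 k
    have h3 : h (4 ^ k) < (H k : ℝ) + 1 := h1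
    linarith
  have hHm : Monotone H := fun a b hab =>
    Nat.floor_le_floor (hm (Nat.pow_le_pow_right (by norm_num) hab))
  obtain ⟨T, hT, hA⟩ := hc H hH1
  refine ⟨{n | ∃ k, n ∈ T k}, ?_, ?_⟩
  · intro N hN1
    have h2 := (count_le_sum hT N).trans (sum_mono H hHm (Nat.log 4 N))
    have h3 : (count {n | ∃ k, n ∈ T k} N : ℝ) ≤
        2 * 2 ^ (Nat.log 4 N) * H (Nat.log 4 N) := by exact_mod_cast h2
    have h4 : (H (Nat.log 4 N) : ℝ) ≤ h N :=
      (hHle _).trans (hm (Nat.pow_log_le_self 4 (by omega)))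
    have h5 := two_pow_log_le N hN1
    have h6 : (0 : ℝ) ≤ H (Nat.log 4 N) := by positivity
    have h7 : (0 : ℝ) ≤ √N := Real.sqrt_nonneg _
    calc (count {n | ∃ k, n ∈ T k} N : ℝ) ≤ 2 * 2 ^ (Nat.log 4 N) * H (Nat.log 4 N) := h3
      _ ≤ 2 * √N * H (Nat.log 4 N) :=
          mul_le_mul_of_nonneg_right (mul_le_mul_of_nonneg_left h5 (by norm_num)) h6
      _ ≤ 2 * √N * h N := mul_le_mul_of_nonneg_left h4 (by positivity)
      _ = 2 * h N * √N := by ring
  · intro K A hK hfin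
    -- beyond `n₀` no element of `R` is a sum
    obtain ⟨n₀, hn₀⟩ := hfin.bddAbove
    have hno : ∀ k, n₀ < 4 ^ k → ∀ n ∈ T k, rep A n = 0 := by
      intro k hk n hn
      by_contra hne
      have h1 := hn₀ ⟨⟨k, hn⟩, Nat.one_le_iff_ne_zero.2 hne⟩
      have h2 := ((hT k).2 n hn).1
      omega
    filter_upwards [eventually_ge_atTop ((n₀ + 1) ^ 2), eventually_ge_atTop 1] with N hN hN1
    set M := Nat.sqrt N with hM
    have hM0 : n₀ + 1 ≤ M := by
      rw [hM, Nat.le_sqrt']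
      exact hN
    have hMN : M ≤ N := Nat.sqrt_le_self N
    have hMsq : (M : ℝ) ≤ √N := by
      apply Real.le_sqrt_of_sq_le
      exact_mod_cast Nat.sqrt_le' N
    set J := Nat.log 4 M + 1 with hJ
    have hJ1 : M < 4 ^ J := Nat.lt_pow_succ_log_self (by norm_num) M
    have hJ2 : 4 ^ J ≤ 4 * M := by
      rw [hJ, pow_succ]
      have := Nat.pow_log_le_self 4 (by omega : M ≠ 0)
      omega
    set η := h M with hη
    have hη1 : 1 ≤ η := (hb M (by omega)).1
    have hηM : η ≤ M := (hb M (by omega)).2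
    set L := Nat.log 4 (2 * N) with hL
    have hL1 : (4 : ℝ) ^ L ≤ 2 * N := by
      exact_mod_cast Nat.pow_log_le_self 4 (by omega : 2 * N ≠ 0)
    have hck := hc0 K
    -- one block
    have h1 : ∀ k, (sums A k : ℝ) * η ≤ (if k < J then 3 * 4 ^ k * η else 0) +
        2 * c K * 4 ^ k := by
      intro k
      split_ifs with hk
      · have h2 : (sums A k : ℝ) ≤ 3 * 4 ^ k := by exact_mod_cast sums_le A k
        have h3 : (0 : ℝ) ≤ 2 * c K * 4 ^ k := by positivity
        have h4 : (sums A k : ℝ) * η ≤ 3 * 4 ^ k * η :=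
          mul_le_mul_of_nonneg_right h2 (by linarith)
        linarith
      · have hMk : M < 4 ^ k :=
          lt_of_lt_of_le hJ1 (Nat.pow_le_pow_right (by norm_num) (by omega))
        have h2 := hA K A hK k (hno k (by omega))
        have h3 : η / 2 ≤ (H k : ℝ) := by
          have h4 : η ≤ h (4 ^ k) := hm hMk.le
          linarith [hHge k]
        have h4 : (0 : ℝ) ≤ sums A k := by positivity
        have h5 : η / 2 * sums A k ≤ c K * 4 ^ k :=
          (mul_le_mul_of_nonneg_right h3 h4).trans h2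
        linarith
    have h2 : ∑ k ∈ Finset.range (L + 1), (if k < J then 3 * (4 : ℝ) ^ k * η else 0) ≤
        4 * N := by
      have h3 : ∑ k ∈ Finset.range (L + 1), (if k < J then 3 * (4 : ℝ) ^ k * η else 0) ≤
          ∑ k ∈ Finset.range J, 3 * (4 : ℝ) ^ k * η := by
        rw [← Finset.sum_filter]
        refine Finset.sum_le_sum_of_subset_of_nonneg ?_ fun _ _ _ => by positivity
        intro k hk
        rw [Finset.mem_range]
        exact (Finset.mem_filter.1 hk).2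
      have h4 : ∑ k ∈ Finset.range J, 3 * (4 : ℝ) ^ k * η = (4 ^ J - 1) * η := by
        rw [← Finset.sum_mul, ← Finset.mul_sum, geom_sum_eq (by norm_num)]
        ring
      have h5 : (4 : ℝ) ^ J ≤ 4 * M := by exact_mod_cast hJ2
      have h6 : (M : ℝ) ^ 2 ≤ N := by exact_mod_cast Nat.sqrt_le' N
      have h7 : (4 ^ J - 1) * η ≤ 4 * M * η :=
        mul_le_mul_of_nonneg_right (by linarith) (by linarith)
      have h8 : 4 * (M : ℝ) * η ≤ 4 * M * M :=
        mul_le_mul_of_nonneg_left hηM (by positivity)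
      nlinarith
    have h3 : ∑ k ∈ Finset.range (L + 1), 2 * c K * (4 : ℝ) ^ k ≤ 6 * c K * N := by
      rw [← Finset.mul_sum]
      have h4 : ∑ k ∈ Finset.range (L + 1), (4 : ℝ) ^ k ≤ 4 / 3 * 4 ^ L := by
        rw [geom_sum_eq (by norm_num)]
        have : (4 : ℝ) ^ (L + 1) = 4 * 4 ^ L := by ring
        rw [this]
        rw [div_le_iff₀ (by norm_num)]
        linarith
      have h5 : 2 * c K * ∑ k ∈ Finset.range (L + 1), (4 : ℝ) ^ k ≤
          2 * c K * (4 / 3 * (2 * N)) :=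
        mul_le_mul_of_nonneg_left (h4.trans (by linarith)) (by positivity)
      have h6 : (0 : ℝ) ≤ c K * N := by positivity
      nlinarith
    have h4 : (({n : ℕ | 1 ≤ n ∧ n ≤ 2 * N ∧ 1 ≤ rep A n}.ncard : ℕ) : ℝ) ≤
        ∑ k ∈ Finset.range (L + 1), (sums A k : ℝ) := by exact_mod_cast sums_sum A (2 * N)
    have h5 : (({n : ℕ | 1 ≤ n ∧ n ≤ 2 * N ∧ 1 ≤ rep A n}.ncard : ℕ) : ℝ) * η ≤
        (4 + 6 * c K) * N := by
      calc (({n : ℕ | 1 ≤ n ∧ n ≤ 2 * N ∧ 1 ≤ rep A n}.ncard : ℕ) : ℝ) * η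
          ≤ (∑ k ∈ Finset.range (L + 1), (sums A k : ℝ)) * η :=
            mul_le_mul_of_nonneg_right h4 (by linarith)
        _ = ∑ k ∈ Finset.range (L + 1), (sums A k : ℝ) * η := Finset.sum_mul _ _ _
        _ ≤ ∑ k ∈ Finset.range (L + 1), ((if k < J then 3 * (4 : ℝ) ^ k * η else 0) +
              2 * c K * 4 ^ k) := Finset.sum_le_sum fun k _ => h1 k
        _ = ∑ k ∈ Finset.range (L + 1), (if k < J then 3 * (4 : ℝ) ^ k * η else 0) +
              ∑ k ∈ Finset.range (L + 1), 2 * c K * (4 : ℝ) ^ k := Finset.sum_add_distrib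
        _ ≤ 4 * N + 6 * c K * N := add_le_add h2 h3
        _ = (4 + 6 * c K) * N := by ring
    have h6 : (count A N : ℝ) ^ 2 ≤
        K * (({n : ℕ | 1 ≤ n ∧ n ≤ 2 * N ∧ 1 ≤ rep A n}.ncard : ℕ) : ℝ) := by
      exact_mod_cast count_sq_le A K N hK
    have h7 : (0 : ℝ) ≤ (4 + 6 * c K) * N := by positivity
    calc (count A N : ℝ) ^ 2 * η
        ≤ K * (({n : ℕ | 1 ≤ n ∧ n ≤ 2 * N ∧ 1 ≤ rep A n}.ncard : ℕ) : ℝ) * η :=
          mul_le_mul_of_nonneg_right h6 (by linarith)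
      _ = K * ((({n : ℕ | 1 ≤ n ∧ n ≤ 2 * N ∧ 1 ≤ rep A n}.ncard : ℕ) : ℝ) * η) := by ring
      _ ≤ K * ((4 + 6 * c K) * N) := mul_le_mul_of_nonneg_left h5 (by positivity)
      _ ≤ (K + 1) * ((4 + 6 * c K) * N) := by nlinarith
      _ = (K + 1) * (4 + 6 * c K) * N := by ring

end Pool.Agent.H33.TS
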