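import Pool.Agent.H33.TS.Union
import Pool.Graph.R_seed8.Y940.CH.Count

/-!
# Auxiliary facts: comparison of the representation functions, restriction to an initial segment
-/

set_option autoImplicit false

namespace Pool.Agent.H33.TS

theorem rep2_le (A : Set ℕ) (n : ℕ) : Pool.Agent.Y940.CH.rep A 2 n ≤ rep A n := by
  unfold Pool.Agent.Y940.CH.rep rep
  have h1 : {s : Multiset ℕ | Multiset.card s = 2 ∧ (∀ a ∈ s, a ∈ A) ∧ s.sum = n} ⊆
      (fun p : ℕ × ℕ => ({p.1, p.2} : Multiset ℕ)) ''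
        {p : ℕ × ℕ | p.1 ∈ A ∧ p.2 ∈ A ∧ p.1 + p.2 = n} := by
    rintro s ⟨h1, h2, h3⟩
    obtain ⟨a, b, rfl⟩ := Multiset.card_eq_two.1 h1
    refine ⟨(a, b), ⟨h2 a (by simp), h2 b (by simp), ?_⟩, rfl⟩
    simpa using h3
  exact (Set.ncard_le_ncard h1 ((rep_finite A n).image _)).trans
    (Set.ncard_image_le (rep_finite A n))

theorem rep_mono {A B : Set ℕ} (h : A ⊆ B) (n : ℕ) : rep A n ≤ rep B n :=
  Set.ncard_le_ncard (fun _ hp => ⟨h hp.1, h hp.2.1, hp.2.2⟩) (rep_finite B n)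

theorem rep_inter (A : Set ℕ) {n N : ℕ} (hn : n ≤ N) : rep (A ∩ Set.Iic N) n = rep A n := by
  unfold rep
  congr 1
  ext p
  simp only [Set.mem_inter_iff, Set.mem_Iic, Set.mem_setOf_eq]
  constructor
  · rintro ⟨h1, h2, h3⟩
    exact ⟨h1.1, h2.1, h3⟩
  · rintro ⟨h1, h2, h3⟩
    exact ⟨⟨h1, by omega⟩, ⟨h2, by omega⟩, h3⟩

end Pool.Agent.H33.TS
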