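import Pool.Agent.H33.TS.Union
import Pool.Graph.R_seed8.Y940.CH.Count

/-!
# One block of the first test set

Union bound (file Union.lean) over all finite sets `B ⊆ [0, 4^(k+1)]` with `r_B ≤ K` and
`2 |B| < s`, `s = 2^k / G k + 1`; the number of such sets of cardinality `t` is bounded by the
library theorem `Pool.Agent.Y940.CH.counting_card` (helper213).
-/

set_option autoImplicit false

namespace Pool.Agent.H33.TS

open Filter

namespace Blk1

open Finset

theorem rep_mono {A B : Set ℕ} (h : A ⊆ B) (n : ℕ) : rep A n ≤ rep B n := by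
  unfold rep
  refine Set.ncard_le_ncard ?_ (rep_finite B n)
  rintro p ⟨h1, h2, h3⟩
  exact ⟨h h1, h h2, h3⟩

/-- multisets of two elements against ordered pairs -/
theorem rep2_le (A : Set ℕ) (n : ℕ) : Pool.Agent.Y940.CH.rep A 2 n ≤ rep A n := by
  unfold Pool.Agent.Y940.CH.rep rep
  have hsub : {s : Multiset ℕ | Multiset.card s = 2 ∧ (∀ a ∈ s, a ∈ A) ∧ s.sum = n} ⊆
      (fun p : ℕ × ℕ => ({p.1, p.2} : Multiset ℕ)) ''
        {p : ℕ × ℕ | p.1 ∈ A ∧ p.2 ∈ A ∧ p.1 + p.2 = n} := by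
    rintro s ⟨h1, h2, h3⟩
    obtain ⟨x, y, rfl⟩ := Multiset.card_eq_two.1 h1
    refine ⟨(x, y), ⟨h2 x (by simp), h2 y (by simp), ?_⟩, rfl⟩
    simpa using h3
  exact (Set.ncard_le_ncard hsub ((rep_finite A n).image _)).trans
    (Set.ncard_image_le (rep_finite A n))

open Classical in
/-- the family of the small sets -/
noncomputable def Fam (K N s : ℕ) : Finset (Finset ℕ) :=
  (range (N + 1)).powerset.filter fun B => (∀ n, rep (B : Set ℕ) n ≤ K) ∧ 2 * B.card < s

open Classical in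
/-- the covered part of the block -/
noncomputable def cov (k : ℕ) (B : Finset ℕ) : Finset ℕ :=
  (Ico (4 ^ k) (4 ^ (k + 1))).filter fun n => 1 ≤ rep (B : Set ℕ) n

theorem cov_card (k : ℕ) (B : Finset ℕ) : (cov k B).card ≤ B.card ^ 2 := by
  classical
  have hsub : cov k B ⊆ (B ×ˢ B).image (fun p => p.1 + p.2) := by
    intro n hn
    rw [cov, mem_filter] at hn
    obtain ⟨a, ha, b, hb, h⟩ := one_le_rep.1 hn.2
    exact mem_image.2 ⟨(a, b), mem_product.2 ⟨ha, hb⟩, h⟩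
  exact (card_le_card hsub).trans (card_image_le.trans (by rw [card_product, sq]))

/-- the trivial bound for the number of sets of cardinality `t` -/
theorem fam_card_triv (K N s t : ℕ) :
    ((Fam K N s).filter fun B => B.card = t).card ≤ (N + 1) ^ t := by
  classical
  have hsub : ((Fam K N s).filter fun B => B.card = t) ⊆ (range (N + 1)).powersetCard t := by
    intro B hB
    rw [mem_filter, Fam, mem_filter, mem_powerset] at hB
    exact mem_powersetCard.2 ⟨hB.1.1, hB.2⟩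
  refine (card_le_card hsub).trans ?_
  rw [card_powersetCard, card_range]
  exact Nat.choose_le_pow (N + 1) t

/-- comparison with the set counted in the library -/
theorem fam_card_le (K N s t : ℕ) :
    ((Fam K N s).filter fun B => B.card = t).card ≤
      {B : Set ℕ | B ⊆ Set.Iic N ∧ B.ncard = t ∧ ∀ n, Pool.Agent.Y940.CH.rep B 2 n ≤ K}.ncard := by
  classical
  have hinj : Function.Injective (fun B : Finset ℕ => (B : Set ℕ)) := Finset.coe_injective
  have h1 : ((Fam K N s).filter fun B => B.card = t).card =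
      (((Fam K N s).filter fun B => B.card = t).image fun B : Finset ℕ => (B : Set ℕ)).card :=
    (card_image_of_injective _ hinj).symm
  rw [h1, ← Set.ncard_coe_finset]
  refine Set.ncard_le_ncard ?_ ((Set.finite_Iic N).finite_subsets.subset fun B hB => hB.1)
  intro S hS
  rw [mem_coe, mem_image] at hS
  obtain ⟨B, hB, rfl⟩ := hS
  rw [mem_filter, Fam, mem_filter, mem_powerset] at hB
  refine ⟨?_, ?_, fun n => (rep2_le _ n).trans (hB.1.2.1 n)⟩
  · intro x hx
    have := mem_range.1 (hB.1.1 (mem_coe.1 hx))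
    exact Set.mem_Iic.2 (by omega)
  · rw [Set.ncard_coe_finset]
    exact hB.2

/-- the large cardinalities -/
theorem caseA {C D M N T : ℝ} {c : ℝ} (t s : ℕ) (hC : 0 < C) (hT : 0 < T) (hD : 0 < D)
    (hM : M = 3 * D) (hN : N = 4 * D) (hts : 2 * t ≤ s) (hTD : 16 * C * T ≤ 9 * D)
    (hTM : T ≤ M) (hc : c ≤ (C * N / T) ^ t) : c * T ^ s ≤ (1 / 4) ^ t * M ^ s := by
  obtain ⟨u, rfl⟩ := Nat.exists_eq_add_of_le hts
  have h1 : T ^ u ≤ M ^ u := pow_le_pow_left₀ hT.le hTM u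
  have h2 : C * N * T ≤ 1 / 4 * M ^ 2 := by
    rw [hM, hN]
    nlinarith
  have h3 : (C * N * T) ^ t ≤ (1 / 4 * M ^ 2) ^ t :=
    pow_le_pow_left₀ (by rw [hN]; positivity) h2 t
  have hTt : 0 < T ^ (2 * t + u) := pow_pos hT _
  calc c * T ^ (2 * t + u) ≤ (C * N / T) ^ t * T ^ (2 * t + u) :=
        mul_le_mul_of_nonneg_right hc hTt.le
    _ = (C * N * T) ^ t * T ^ u := by
        rw [pow_add, pow_mul, ← mul_assoc, ← mul_pow]
        congr 2
        field_simp
    _ ≤ (1 / 4 * M ^ 2) ^ t * M ^ u :=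
        mul_le_mul h3 h1 (pow_nonneg hT.le u) (by positivity)
    _ = (1 / 4) ^ t * M ^ (2 * t + u) := by
        rw [mul_pow, ← pow_mul, pow_add]
        ring

/-- the small cardinalities -/
theorem caseB {L M T c : ℝ} (t s : ℕ) (hT : 0 ≤ T) (hc0 : c ≤ L ^ t)
    (hTM : T ≤ M * Real.exp (-1)) (hL4 : (4 * L) ^ t ≤ Real.exp s) :
    c * T ^ s ≤ (1 / 4) ^ t * M ^ s := by
  have h1 : T ^ s ≤ M ^ s * Real.exp (-(s : ℝ)) := by
    refine (pow_le_pow_left₀ hT hTM s).trans_eq ?_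
    rw [mul_pow, ← Real.exp_nat_mul]
    congr 2
    ring
  have h2 : L ^ t = (1 / 4) ^ t * (4 * L) ^ t := by
    rw [← mul_pow]
    congr 1
    ring
  calc c * T ^ s ≤ L ^ t * T ^ s := mul_le_mul_of_nonneg_right hc0 (pow_nonneg hT s)
    _ ≤ ((1 / 4) ^ t * Real.exp s) * (M ^ s * Real.exp (-(s : ℝ))) := by
        rw [h2]
        exact mul_le_mul (mul_le_mul_of_nonneg_left hL4 (by positivity)) h1 (pow_nonneg hT s)
          (by positivity)
    _ = (1 / 4) ^ t * M ^ s * (Real.exp s * Real.exp (-(s : ℝ))) := by ring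
    _ = (1 / 4) ^ t * M ^ s := by rw [← Real.exp_add, add_neg_cancel, Real.exp_zero, mul_one]

theorem four_rpow (κ : ℝ) (k : ℕ) :
    (((4 ^ (k + 1) : ℕ) : ℝ)) ^ (1 / 2 - κ) = (2 * (4 : ℝ) ^ (-κ)) ^ (k + 1) := by
  have h4 : (4 : ℝ) ^ (1 / 2 - κ) = 2 * (4 : ℝ) ^ (-κ) := by
    rw [sub_eq_add_neg, Real.rpow_add (by norm_num)]
    congr 1
    have h : (4 : ℝ) = 2 ^ (2 : ℝ) := by norm_num
    rw [h, ← Real.rpow_mul (by norm_num)]
    norm_num
  rw [← h4]
  push_cast
  rw [← Real.rpow_natCast (4 : ℝ) (k + 1), ← Real.rpow_mul (by norm_num), mul_comm,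
    Real.rpow_mul (by norm_num), Real.rpow_natCast]

/-- the main estimate -/
theorem core (K : ℕ) (G : ℕ → ℕ) (hG : Tendsto G atTop atTop) (hG1 : ∀ k, G k ≤ k + 1) :
    ∀ᶠ k : ℕ in atTop, ∀ t : ℕ, 1 ≤ t → 2 * t < 2 ^ k / G k + 1 →
      ((((Fam K (4 ^ (k + 1)) (2 ^ k / G k + 1)).filter fun B => B.card = t).card : ℕ) : ℝ) *
        ((t : ℝ) ^ 2) ^ (2 ^ k / G k + 1) ≤
        (1 / 4) ^ t * (3 * 4 ^ k : ℝ) ^ (2 ^ k / G k + 1) := by
  obtain ⟨κ, hκ, C, hC, hcount⟩ := Pool.Agent.Y940.CH.counting_card 2 K le_rfl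
  set r : ℝ := (4 : ℝ) ^ (-κ) with hr
  have hr0 : 0 < r := Real.rpow_pos_of_pos (by norm_num) _
  have hr1 : r < 1 := Real.rpow_lt_one_of_one_lt_of_neg (by norm_num) (by linarith)
  -- the limits
  have e1 : ∀ᶠ k : ℕ in atTop, 1 + C ≤ (G k : ℝ) :=
    (tendsto_natCast_atTop_atTop.comp hG).eventually (eventually_ge_atTop (1 + C))
  have e2 : ∀ᶠ k : ℕ in atTop, 1 + C ≤ (2 : ℝ) ^ k :=
    (tendsto_pow_atTop_atTop_of_one_lt (by norm_num : (1 : ℝ) < 2)).eventually
      (eventually_ge_atTop (1 + C))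
  have e3 : ∀ᶠ k : ℕ in atTop, 4 * (((k + 3 : ℕ) : ℝ) ^ 2 * r ^ (k + 3)) ≤ r ^ 2 := by
    have h1 := (tendsto_pow_const_mul_const_pow_of_abs_lt_one 2
      (by rw [abs_of_pos hr0]; exact hr1 : |r| < 1)).comp (tendsto_add_atTop_nat 3)
    have h2 : Tendsto (fun k : ℕ => 4 * (((k + 3 : ℕ) : ℝ) ^ 2 * r ^ (k + 3))) atTop
        (nhds (4 * 0)) := h1.const_mul 4
    rw [mul_zero] at h2
    exact (h2.eventually_lt_const (by positivity : (0 : ℝ) < r ^ 2)).mono fun k hk => hk.le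
  have e4 : ∀ᶠ k : ℕ in atTop, 4 / 3 * (r ^ 2) ^ (k + 1) ≤ Real.exp (-1) := by
    have h1 := (tendsto_pow_atTop_nhds_zero_of_lt_one (by positivity : (0 : ℝ) ≤ r ^ 2)
      (by nlinarith : r ^ 2 < 1)).comp (tendsto_add_atTop_nat 1)
    have h2 : Tendsto (fun k : ℕ => 4 / 3 * (r ^ 2) ^ (k + 1)) atTop (nhds (4 / 3 * 0)) :=
      h1.const_mul (4 / 3)
    rw [mul_zero] at h2
    exact (h2.eventually_lt_const (Real.exp_pos (-1))).mono fun k hk => hk.le
  filter_upwards [e1, e2, e3, e4] with k h1 h2 h3 h4 t ht hts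
  set s : ℕ := 2 ^ k / G k + 1 with hs
  have hG0 : 0 < G k := by
    have : (0 : ℝ) < G k := by linarith
    exact_mod_cast this
  have ht0 : (0 : ℝ) < t := by exact_mod_cast ht
  have h2k : (0 : ℝ) < (2 : ℝ) ^ k := by positivity
  have h44 : (4 : ℝ) ^ k = (2 : ℝ) ^ k * (2 : ℝ) ^ k := by
    rw [← mul_pow]
    norm_num
  -- `t` is small compared with `2^k`
  have htk : (t : ℝ) * (1 + C) ≤ (2 : ℝ) ^ k := by
    have hdiv : ((2 ^ k / G k : ℕ) : ℝ) * (1 + C) ≤ (2 : ℝ) ^ k := by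
      have h5 : ((2 ^ k / G k : ℕ) : ℝ) * (G k : ℝ) ≤ (2 : ℝ) ^ k := by
        exact_mod_cast Nat.div_mul_le_self (2 ^ k) (G k)
      exact (mul_le_mul_of_nonneg_left h1 (Nat.cast_nonneg _)).trans h5
    have h6 : 2 * (t : ℝ) ≤ ((2 ^ k / G k : ℕ) : ℝ) := by
      have : 2 * t ≤ 2 ^ k / G k := by omega
      exact_mod_cast this
    nlinarith
  have hC1 : 0 < 1 + C := by linarith
  have htt : (t : ℝ) ^ 2 * (1 + C) ^ 2 ≤ (4 : ℝ) ^ k := by
    rw [h44, ← mul_pow]
    nlinarith [mul_pos ht0 hC1]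
  by_cases hcase : (((4 ^ (k + 1) : ℕ) : ℝ)) ^ (1 / 2 - κ) ≤ t
  · have h5 := hcount (4 ^ (k + 1)) t (Nat.one_le_pow _ _ (by norm_num))
      (by simpa using hcase)
    have h6 : ((((Fam K (4 ^ (k + 1)) s).filter fun B => B.card = t).card : ℕ) : ℝ) ≤
        (C * ((4 ^ (k + 1) : ℕ) : ℝ) / (t : ℝ) ^ 2) ^ t :=
      (Nat.cast_le.2 (fam_card_le K (4 ^ (k + 1)) s t)).trans h5
    refine caseA (C := C) (D := (4 : ℝ) ^ k) (N := ((4 ^ (k + 1) : ℕ) : ℝ)) t s hC (by positivity)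
      (by positivity) rfl (by push_cast; ring) (by omega) ?_ ?_ h6
    · have h7 : 4 * C ≤ (1 + C) ^ 2 := by nlinarith [sq_nonneg (1 - C)]
      have h8 : (t : ℝ) ^ 2 * (4 * C) ≤ (4 : ℝ) ^ k :=
        (mul_le_mul_of_nonneg_left h7 (by positivity)).trans htt
      have : (0 : ℝ) < (4 : ℝ) ^ k := by positivity
      linarith
    · have h7 : 1 ≤ (1 + C) ^ 2 := by nlinarith
      have h8 : (t : ℝ) ^ 2 * 1 ≤ (4 : ℝ) ^ k :=
        (mul_le_mul_of_nonneg_left h7 (by positivity)).trans htt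
      have : (0 : ℝ) < (4 : ℝ) ^ k := by positivity
      linarith
  · push Not at hcase
    rw [four_rpow, ← hr] at hcase
    refine caseB (L := ((4 ^ (k + 1) : ℕ) : ℝ) + 1) t s (by positivity) ?_ ?_ ?_
    · exact_mod_cast fam_card_triv K (4 ^ (k + 1)) s t
    · -- `t^2 ≤ 3 * 4^k / e`
      have h5 : (t : ℝ) ^ 2 ≤ ((2 * r) ^ (k + 1)) ^ 2 := pow_le_pow_left₀ ht0.le hcase.le 2
      have h6 : ((2 * r) ^ (k + 1)) ^ 2 = 3 * 4 ^ k * (4 / 3 * (r ^ 2) ^ (k + 1)) := by
        rw [← pow_mul, mul_comm (k + 1) 2, pow_mul, mul_pow, mul_pow]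
        norm_num
        rw [pow_succ (4 : ℝ) k]
        ring
      rw [h6] at h5
      exact h5.trans (mul_le_mul_of_nonneg_left h4 (by positivity))
    · -- `(4 (N + 1))^t ≤ e^s`
      have h5 : (4 : ℝ) * (((4 ^ (k + 1) : ℕ) : ℝ) + 1) ≤ Real.exp (2 * ((k + 3 : ℕ) : ℝ)) := by
        have h6 : (4 : ℝ) ≤ Real.exp 2 := by
          have h7 : (2 : ℝ) ≤ Real.exp 1 := by
            have := Real.add_one_le_exp (1 : ℝ)
            linarith
          have h8 : Real.exp 2 = Real.exp 1 * Real.exp 1 := by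
            rw [← Real.exp_add]
            norm_num
          rw [h8]
          nlinarith
        have h7 : (4 : ℝ) ^ (k + 3) ≤ Real.exp (2 * ((k + 3 : ℕ) : ℝ)) := by
          rw [mul_comm, Real.exp_nat_mul]
          exact pow_le_pow_left₀ (by norm_num) h6 _
        refine le_trans ?_ h7
        have h8 : (1 : ℝ) ≤ (4 : ℝ) ^ k := one_le_pow₀ (by norm_num)
        push_cast
        rw [pow_succ, pow_succ, pow_succ, pow_succ]
        linarith
      have h9 : 2 * ((k + 3 : ℕ) : ℝ) * t ≤ s := by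
        have h10 : (2 : ℝ) ^ k ≤ ((k : ℝ) + 1) * s := by
          have h11 : 2 ^ k ≤ (k + 1) * s :=
            (Nat.lt_mul_div_succ (2 ^ k) hG0).le.trans (Nat.mul_le_mul_right s (hG1 k))
          exact_mod_cast h11
        have h12 : 4 * (((k + 3 : ℕ) : ℝ) ^ 2 * r ^ (k + 1)) ≤ 1 := by
          have h13 : 4 * (((k + 3 : ℕ) : ℝ) ^ 2 * r ^ (k + 3)) =
              4 * (((k + 3 : ℕ) : ℝ) ^ 2 * r ^ (k + 1)) * r ^ 2 := by ring
          rw [h13] at h3
          have h14 : 0 < r ^ 2 := by positivity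
          nlinarith
        have hk1 : (0 : ℝ) < (k : ℝ) + 1 := by positivity
        have h15 : ((k : ℝ) + 1) * (2 * ((k + 3 : ℕ) : ℝ) * t) ≤ ((k : ℝ) + 1) * s := by
          refine le_trans ?_ h10
          have h16 : (t : ℝ) ≤ 2 * 2 ^ k * r ^ (k + 1) := by
            refine hcase.le.trans_eq ?_
            rw [mul_pow, pow_succ (2 : ℝ) k]
            ring
          have h17 : ((k : ℝ) + 1) * (2 * ((k + 3 : ℕ) : ℝ) * t) ≤
              ((k + 3 : ℕ) : ℝ) * (2 * ((k + 3 : ℕ) : ℝ) * (2 * 2 ^ k * r ^ (k + 1))) := by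
            refine mul_le_mul ?_ ?_ (by positivity) (by positivity)
            · push_cast
              linarith
            · exact mul_le_mul_of_nonneg_left h16 (by positivity)
          have h18 : ((k + 3 : ℕ) : ℝ) * (2 * ((k + 3 : ℕ) : ℝ) * (2 * 2 ^ k * r ^ (k + 1))) =
              4 * (((k + 3 : ℕ) : ℝ) ^ 2 * r ^ (k + 1)) * 2 ^ k := by ring
          rw [h18] at h17
          refine h17.trans ?_
          have := mul_le_mul_of_nonneg_right h12 h2k.le
          linarith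
        exact le_of_mul_le_mul_left h15 hk1
      calc (4 * (((4 ^ (k + 1) : ℕ) : ℝ) + 1)) ^ t ≤ Real.exp (2 * ((k + 3 : ℕ) : ℝ)) ^ t :=
            pow_le_pow_left₀ (by positivity) h5 t
        _ = Real.exp (2 * ((k + 3 : ℕ) : ℝ) * t) := by
            rw [← Real.exp_nat_mul]
            congr 1
            ring
        _ ≤ Real.exp s := Real.exp_le_exp.2 h9

theorem geom (s : ℕ) : ∑ t ∈ range s, (1 / 2 : ℝ) ^ (t + 1) = 1 - (1 / 2) ^ s := by
  induction s with
  | zero => simp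
  | succ s ih =>
    rw [sum_range_succ, ih, pow_succ]
    ring

end Blk1

open Blk1 in
theorem block1 (K : ℕ) (G : ℕ → ℕ) (hG : Tendsto G atTop atTop) (hG1 : ∀ k, G k ≤ k + 1) :
    ∀ᶠ k : ℕ in atTop, ∃ f : Fin (2 ^ k / G k + 1) → ℕ, (∀ i, 4 ^ k ≤ f i ∧ f i < 4 ^ (k + 1)) ∧
      ∀ A : Set ℕ, (∀ n, rep A n ≤ K) → (∀ i, 1 ≤ rep A (f i)) →
        2 ^ k / G k + 1 ≤ 2 * (A ∩ Set.Iic (4 ^ (k + 1))).ncard := by
  classical
  filter_upwards [core K G hG hG1] with k hk
  set s : ℕ := 2 ^ k / G k + 1 with hs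
  have hsum : ∑ B ∈ Fam K (4 ^ (k + 1)) s, (cov k B).card ^ s <
      (Finset.Ico (4 ^ k) (4 ^ (k + 1))).card ^ s := by
    have hI : (Finset.Ico (4 ^ k) (4 ^ (k + 1))).card = 3 * 4 ^ k := by
      rw [Nat.card_Ico, pow_succ]
      omega
    rw [hI]
    have hmaps : ∀ B ∈ Fam K (4 ^ (k + 1)) s, B.card ∈ Finset.range s := by
      intro B hB
      rw [Fam, Finset.mem_filter] at hB
      rw [Finset.mem_range]
      omega
    have hM : (0 : ℝ) < (3 * 4 ^ k : ℝ) ^ s := by positivity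
    have h1 : ((∑ B ∈ Fam K (4 ^ (k + 1)) s, (cov k B).card ^ s : ℕ) : ℝ) <
        (((3 * 4 ^ k) ^ s : ℕ) : ℝ) := by
      push_cast
      calc ∑ B ∈ Fam K (4 ^ (k + 1)) s, ((cov k B).card : ℝ) ^ s
          ≤ ∑ B ∈ Fam K (4 ^ (k + 1)) s, ((B.card : ℝ) ^ 2) ^ s := by
            refine Finset.sum_le_sum fun B _ => pow_le_pow_left₀ (Nat.cast_nonneg _) ?_ s
            exact_mod_cast cov_card k B
        _ = ∑ t ∈ Finset.range s, ∑ B ∈ (Fam K (4 ^ (k + 1)) s).filter fun B => B.card = t,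
              ((B.card : ℝ) ^ 2) ^ s :=
            (Finset.sum_fiberwise_of_maps_to hmaps _).symm
        _ = ∑ t ∈ Finset.range s,
              ((((Fam K (4 ^ (k + 1)) s).filter fun B => B.card = t).card : ℕ) : ℝ) *
                ((t : ℝ) ^ 2) ^ s := by
            refine Finset.sum_congr rfl fun t _ => ?_
            rw [Finset.sum_congr rfl (g := fun _ => ((t : ℝ) ^ 2) ^ s) (fun B hB => by
              rw [(Finset.mem_filter.1 hB).2]), Finset.sum_const, nsmul_eq_mul]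
        _ ≤ ∑ t ∈ Finset.range s, (1 / 2 : ℝ) ^ (t + 1) * (3 * 4 ^ k : ℝ) ^ s := by
            refine Finset.sum_le_sum fun t _ => ?_
            rcases Nat.eq_zero_or_pos t with rfl | ht
            · have h0 : (((0 : ℕ) : ℝ) ^ 2) ^ s = 0 := by
                have hs0 : s ≠ 0 := Nat.succ_ne_zero _
                rw [Nat.cast_zero, zero_pow two_ne_zero, zero_pow hs0]
              rw [h0, mul_zero]
              positivity
            by_cases hts : 2 * t < s
            · refine (hk t ht hts).trans (mul_le_mul_of_nonneg_right ?_ hM.le)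
              have h2 : (1 / 4 : ℝ) ^ t = (1 / 2) ^ (2 * t) := by
                rw [pow_mul]
                norm_num
              rw [h2]
              exact pow_le_pow_of_le_one (by norm_num) (by norm_num) (by omega)
            · have h2 : ((Fam K (4 ^ (k + 1)) s).filter fun B => B.card = t) = ∅ := by
                rw [Finset.filter_eq_empty_iff]
                intro B hB h3
                rw [Fam, Finset.mem_filter] at hB
                omega
              rw [h2, Finset.card_empty, Nat.cast_zero, zero_mul]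
              positivity
        _ = (1 - (1 / 2) ^ s) * (3 * 4 ^ k : ℝ) ^ s := by
            rw [← Finset.sum_mul, geom]
        _ < (3 * 4 ^ k : ℝ) ^ s := by
            have h3 : (0 : ℝ) < (1 / 2) ^ s := by positivity
            nlinarith [mul_pos h3 hM]
    exact_mod_cast h1
  obtain ⟨f, hf1, hf2⟩ := exists_fn (Finset.Ico (4 ^ k) (4 ^ (k + 1))) (Fam K (4 ^ (k + 1)) s)
    (cov k) (fun B _ => Finset.filter_subset _ _) s hsum
  refine ⟨f, fun i => Finset.mem_Ico.1 (hf1 i), ?_⟩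
  intro A hA hcovA
  by_contra hcon
  push Not at hcon
  have hfin : (A ∩ Set.Iic (4 ^ (k + 1))).Finite :=
    (Set.finite_Iic _).subset Set.inter_subset_right
  have hB : hfin.toFinset ∈ Fam K (4 ^ (k + 1)) s := by
    rw [Fam, Finset.mem_filter, Finset.mem_powerset]
    refine ⟨?_, ?_, ?_⟩
    · intro x hx
      have h2 := ((Set.Finite.mem_toFinset hfin).1 hx).2
      rw [Finset.mem_range]
      have : x ≤ 4 ^ (k + 1) := h2
      omega
    · intro n
      rw [hfin.coe_toFinset]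
      exact (rep_mono Set.inter_subset_left n).trans (hA n)
    · rw [← Set.ncard_eq_toFinset_card _ hfin]
      exact hcon
  obtain ⟨i, hi⟩ := hf2 _ hB
  apply hi
  rw [cov, Finset.mem_filter]
  refine ⟨hf1 i, ?_⟩
  obtain ⟨a, ha, b, hb, hab⟩ := one_le_rep.1 (hcovA i)
  have hfi := (Finset.mem_Ico.1 (hf1 i)).2
  rw [hfin.coe_toFinset, one_le_rep]
  exact ⟨a, ⟨ha, Set.mem_Iic.2 (by omega)⟩, b, ⟨hb, Set.mem_Iic.2 (by omega)⟩, hab⟩

end Pool.Agent.H33.TS
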