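import Pool.Agent.H33.TS.Basic

/-!
# One block of the second test set
-/

set_option autoImplicit false

namespace Pool.Agent.H33.TS

open Filter

theorem block2 (K : ℕ) (hK : 1 ≤ K) (H : ℕ → ℕ) (hH : Tendsto H atTop atTop) :
    ∀ᶠ k : ℕ in atTop, ∃ f : Fin (2 ^ k * H k) → ℕ, (∀ i, 4 ^ k ≤ f i ∧ f i < 4 ^ (k + 1)) ∧
      ∀ A : Set ℕ, (∀ n, rep A n ≤ K) → (∀ i, 1 ≤ rep A (f i)) →
        K * {n : ℕ | 4 ^ k ≤ n ∧ n < 4 ^ (k + 1) ∧ rep A n = 0}.ncard ≤ 4 ^ k := by
  classical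
  obtain ⟨C, hC, hcount⟩ := Pool.Agent.Y940.CH.counting 2 K le_rfl
  have hK0 : (0 : ℝ) < K := by exact_mod_cast hK
  filter_upwards [hH.eventually_ge_atTop (⌈6 * C * K⌉₊ + 1)] with k hk
  have hHk : 6 * C * K < H k := by
    have h1 : ((⌈6 * C * K⌉₊ + 1 : ℕ) : ℝ) ≤ H k := by exact_mod_cast hk
    have h2 : 6 * C * K ≤ (⌈6 * C * K⌉₊ : ℝ) := Nat.le_ceil _
    push_cast at h1
    linarith
  set s : ℕ := 2 ^ k * H k with hs
  set N : ℕ := 4 ^ (k + 1) with hN
  have hN1 : 1 ≤ N := Nat.one_le_pow _ _ (by norm_num)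
  set I : Finset ℕ := Finset.Ico (4 ^ k) (4 ^ (k + 1)) with hI
  have hIc : I.card = 3 * 4 ^ k := by
    rw [hI, Nat.card_Ico, pow_succ]
    omega
  set cov : Finset ℕ → Finset ℕ := fun B => I.filter fun n => 1 ≤ rep (B : Set ℕ) n with hcov
  set F : Finset (Finset ℕ) := (Finset.range (N + 1)).powerset.filter fun B =>
    (∀ n, rep (B : Set ℕ) n ≤ K) ∧
      4 ^ k < K * (I.filter fun n => rep (B : Set ℕ) n = 0).card with hF
  -- the size of the family
  have hFc : (F.card : ℝ) ≤ Real.exp (2 * C * 2 ^ k) := by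
    have h1 := hcount N hN1
    have hfin : {B : Set ℕ | B ⊆ Set.Iic N ∧
        ∀ n, Pool.Agent.Y940.CH.rep B 2 n ≤ K}.Finite :=
      ((Set.finite_Iic N).finite_subsets).subset fun B hB => hB.1
    have h2 : F.card ≤ {B : Set ℕ | B ⊆ Set.Iic N ∧
        ∀ n, Pool.Agent.Y940.CH.rep B 2 n ≤ K}.ncard := by
      have h3 : ((fun B : Finset ℕ => (B : Set ℕ)) '' (F : Set (Finset ℕ))) ⊆
          {B : Set ℕ | B ⊆ Set.Iic N ∧ ∀ n, Pool.Agent.Y940.CH.rep B 2 n ≤ K} := by
        rintro _ ⟨B, hB, rfl⟩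
        have hB' := Finset.mem_filter.1 (Finset.mem_coe.1 hB)
        refine ⟨fun x hx => ?_, fun n => (rep2_le _ n).trans (hB'.2.1 n)⟩
        have h4 := Finset.mem_powerset.1 hB'.1 (Finset.mem_coe.1 hx)
        rw [Finset.mem_range] at h4
        exact Set.mem_Iic.2 (by omega)
      have h4 := Set.ncard_le_ncard h3 hfin
      rwa [Set.ncard_image_of_injective _ Finset.coe_injective, Set.ncard_coe_finset] at h4
    have h3 : C * (N : ℝ) ^ (1 / ((2 : ℕ) : ℝ)) = 2 * C * 2 ^ k := by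
      have h5 : (N : ℝ) = (2 ^ (k + 1)) ^ 2 := by
        rw [hN]
        push_cast
        rw [← pow_mul, mul_comm (k + 1) 2, pow_mul]
        norm_num
      rw [h5]
      have h6 : (((2 : ℝ) ^ (k + 1)) ^ 2) ^ (1 / ((2 : ℕ) : ℝ)) = 2 ^ (k + 1) := by
        rw [← Real.rpow_natCast (((2 : ℝ) ^ (k + 1))) 2, ← Real.rpow_mul (by positivity)]
        norm_num
      rw [h6]
      ring
    calc (F.card : ℝ) ≤ (({B : Set ℕ | B ⊆ Set.Iic N ∧
        ∀ n, Pool.Agent.Y940.CH.rep B 2 n ≤ K}.ncard : ℕ) : ℝ) := by exact_mod_cast h2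
      _ ≤ Real.exp (C * (N : ℝ) ^ (1 / ((2 : ℕ) : ℝ))) := h1
      _ = Real.exp (2 * C * 2 ^ k) := by rw [h3]
  -- the size of the covered sets
  have hcovc : ∀ B ∈ F, ((cov B).card : ℝ) ≤ (3 * 4 ^ k) * (1 - 1 / (3 * K)) := by
    intro B hB
    have hB' := (Finset.mem_filter.1 hB).2.2
    have h1 : (cov B).card + (I.filter fun n => rep (B : Set ℕ) n = 0).card = 3 * 4 ^ k := by
      rw [← hIc, ← Finset.card_filter_add_card_filter_not (s := I)
        (p := fun n => 1 ≤ rep (B : Set ℕ) n)]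
      congr 2
      ext n
      simp only [Finset.mem_filter]
      constructor
      · rintro ⟨h1, h2⟩
        exact ⟨h1, by omega⟩
      · rintro ⟨h1, h2⟩
        exact ⟨h1, by omega⟩
    have h2 : ((cov B).card : ℝ) + ((I.filter fun n => rep (B : Set ℕ) n = 0).card : ℝ) =
        3 * 4 ^ k := by exact_mod_cast h1
    have h3 : (4 : ℝ) ^ k < K * ((I.filter fun n => rep (B : Set ℕ) n = 0).card : ℝ) := by
      exact_mod_cast hB'
    have h4 : (4 : ℝ) ^ k / K ≤ ((I.filter fun n => rep (B : Set ℕ) n = 0).card : ℝ) := by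
      rw [div_le_iff₀ hK0]
      linarith
    have h5 : (3 * 4 ^ k : ℝ) * (1 - 1 / (3 * K)) = 3 * 4 ^ k - 4 ^ k / K := by
      field_simp
    rw [h5]
    linarith
  have hρ : (0 : ℝ) ≤ 1 - 1 / (3 * K) := by
    have h1 : (1 : ℝ) ≤ K := by exact_mod_cast hK
    rw [sub_nonneg, div_le_one (by positivity)]
    linarith
  have hsum : ∑ B ∈ F, (cov B).card ^ s < I.card ^ s := by
    rw [hIc]
    have h1 : (∑ B ∈ F, ((cov B).card : ℝ) ^ s) < (3 * 4 ^ k : ℝ) ^ s := by
      calc (∑ B ∈ F, ((cov B).card : ℝ) ^ s)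
          ≤ ∑ B ∈ F, ((3 * 4 ^ k : ℝ) * (1 - 1 / (3 * K))) ^ s :=
            Finset.sum_le_sum fun B hB => pow_le_pow_left₀ (by positivity) (hcovc B hB) s
        _ = (3 * 4 ^ k : ℝ) ^ s * (F.card * (1 - 1 / (3 * K : ℝ)) ^ s) := by
            rw [Finset.sum_const, nsmul_eq_mul, mul_pow]
            ring
        _ ≤ (3 * 4 ^ k : ℝ) ^ s *
            (Real.exp (2 * C * 2 ^ k) * (Real.exp (-(1 / (3 * K : ℝ)))) ^ s) := by
            refine mul_le_mul_of_nonneg_left ?_ (by positivity)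
            refine mul_le_mul hFc ?_ (by positivity) (by positivity)
            refine pow_le_pow_left₀ hρ ?_ s
            have := Real.add_one_le_exp (-(1 / (3 * K : ℝ)))
            linarith
        _ < (3 * 4 ^ k : ℝ) ^ s * 1 := by
            refine mul_lt_mul_of_pos_left ?_ (by positivity)
            rw [← Real.exp_nat_mul, ← Real.exp_add, Real.exp_lt_one_iff]
            have h2 : (s : ℝ) = 2 ^ k * H k := by
              rw [hs]
              push_cast
              ring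
            rw [h2]
            have h3 : (2 : ℝ) * C * 2 ^ k + 2 ^ k * H k * -(1 / (3 * K)) =
                2 ^ k * ((6 * C * K - H k) / (3 * K)) := by
              field_simp
              ring
            rw [h3]
            have h4 : (6 * C * K - H k) / (3 * K) < 0 :=
              div_neg_of_neg_of_pos (by linarith) (by positivity)
            exact mul_neg_of_pos_of_neg (by positivity) h4
        _ = (3 * 4 ^ k : ℝ) ^ s := mul_one _
    exact_mod_cast h1
  obtain ⟨f, hf, hf2⟩ := exists_fn I F cov (fun B _ => Finset.filter_subset _ _) s hsum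
  refine ⟨f, fun i => by simpa [hI] using hf i, fun A hA hcovA => ?_⟩
  by_contra hcon
  push Not at hcon
  -- the initial segment of `A`
  have hfin : (A ∩ Set.Iic N).Finite := (Set.finite_Iic N).subset Set.inter_subset_right
  set B : Finset ℕ := hfin.toFinset with hB
  have hBA : (B : Set ℕ) = A ∩ Set.Iic N := hfin.coe_toFinset
  have hrepB : ∀ n ≤ N, rep (B : Set ℕ) n = rep A n := fun n hn => by
    rw [hBA, rep_inter A hn]
  have hBF : B ∈ F := by
    rw [hF, Finset.mem_filter, Finset.mem_powerset]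
    refine ⟨?_, fun n => ?_, ?_⟩
    · intro x hx
      rw [hB, Set.Finite.mem_toFinset] at hx
      rw [Finset.mem_range]
      have := Set.mem_Iic.1 hx.2
      omega
    · rw [hBA]
      exact (rep_mono Set.inter_subset_left n).trans (hA n)
    · have h1 : {n : ℕ | 4 ^ k ≤ n ∧ n < 4 ^ (k + 1) ∧ rep A n = 0} =
          ((I.filter fun n => rep (B : Set ℕ) n = 0 : Finset ℕ) : Set ℕ) := by
        ext n
        simp only [Set.mem_setOf_eq, Finset.coe_filter, hI, Finset.mem_Ico]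
        constructor
        · rintro ⟨h1, h2, h3⟩
          exact ⟨⟨h1, h2⟩, by rw [hrepB n (by omega)]; exact h3⟩
        · rintro ⟨⟨h1, h2⟩, h3⟩
          exact ⟨h1, h2, by rw [← hrepB n (by omega)]; exact h3⟩
      rw [h1, Set.ncard_coe_finset] at hcon
      exact hcon
  obtain ⟨i, hi⟩ := hf2 B hBF
  apply hi
  rw [hcov]
  simp only [Finset.mem_filter]
  have h1 := hf i
  refine ⟨h1, ?_⟩
  have h2 := (Finset.mem_Ico.1 (hI ▸ h1)).2
  rw [hrepB _ (by omega)]
  exact hcovA i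

end Pool.Agent.H33.TS
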