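import Pool.Agent.H33.TS.Part2

/-!
# One block, all bounds `K` at once, with a quantitative number of holes
-/

set_option autoImplicit false

namespace Pool.Agent.H33.TS

open Filter

theorem rep_le_card (B : Finset ℕ) (n : ℕ) : rep (B : Set ℕ) n ≤ B.card := by
  classical
  unfold rep
  have h1 : {p : ℕ × ℕ | p.1 ∈ (B : Set ℕ) ∧ p.2 ∈ (B : Set ℕ) ∧ p.1 + p.2 = n} ⊆
      ((B.image fun a => (a, n - a) : Finset (ℕ × ℕ)) : Set (ℕ × ℕ)) := by
    rintro ⟨a, b⟩ ⟨ha, hb, hab⟩
    simp only at ha hb hab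
    rw [Finset.mem_coe, Finset.mem_image]
    refine ⟨a, Finset.mem_coe.1 ha, ?_⟩
    rw [← hab, Nat.add_sub_cancel_left]
  refine (Set.ncard_le_ncard h1 (Finset.finite_toSet _)).trans ?_
  rw [Set.ncard_coe_finset]
  exact Finset.card_image_le

theorem block3 : ∃ c : ℕ → ℝ, (∀ K, 0 < c K) ∧ ∀ H k : ℕ, 1 ≤ H →
    ∃ f : Fin (2 ^ k * H) → ℕ, (∀ i, 4 ^ k ≤ f i ∧ f i < 4 ^ (k + 1)) ∧
      ∀ (K : ℕ) (A : Set ℕ), (∀ n, rep A n ≤ K) → (∀ i, 1 ≤ rep A (f i)) →
        (H : ℝ) * holes A k ≤ c K * 4 ^ k := by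
  classical
  choose C hC hcount using fun K => Pool.Agent.Y940.CH.counting 2 K le_rfl
  set c : ℕ → ℝ := fun K => 6 * ∑ j ∈ Finset.range (K + 1), C j + 6 * (K + 1) with hc
  have hcmono : Monotone c := by
    intro K L hKL
    have h1 : ∑ j ∈ Finset.range (K + 1), C j ≤ ∑ j ∈ Finset.range (L + 1), C j :=
      Finset.sum_le_sum_of_subset_of_nonneg
        (Finset.range_subset_range.2 (by omega)) fun j _ _ => (hC j).le
    have h2 : (K : ℝ) ≤ L := by exact_mod_cast hKL
    simp only [hc]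
    linarith
  have hcC : ∀ K, 6 * C K + 6 * (K + 1) ≤ c K := by
    intro K
    have h1 : C K ≤ ∑ j ∈ Finset.range (K + 1), C j :=
      Finset.single_le_sum (f := C) (fun j _ => (hC j).le) (Finset.self_mem_range_succ K)
    simp only [hc]
    linarith
  have hc0 : ∀ K, 0 < c K := fun K => by
    have h1 := hcC K
    have h2 := hC K
    have h3 : (0 : ℝ) ≤ K := Nat.cast_nonneg K
    linarith
  refine ⟨c, hc0, fun H k hH => ?_⟩
  have hH0 : (0 : ℝ) < H := by exact_mod_cast hH
  set s : ℕ := 2 ^ k * H with hs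
  set N : ℕ := 4 ^ (k + 1) with hN
  have hN1 : 1 ≤ N := Nat.one_le_pow _ _ (by norm_num)
  set I : Finset ℕ := Finset.Ico (4 ^ k) (4 ^ (k + 1)) with hI
  have hIc : I.card = 3 * 4 ^ k := by
    rw [hI, Nat.card_Ico, pow_succ]
    omega
  set cov : Finset ℕ → Finset ℕ := fun B => I.filter fun n => 1 ≤ rep (B : Set ℕ) n with hcov
  set F : ℕ → Finset (Finset ℕ) := fun K => (Finset.range (N + 1)).powerset.filter fun B =>
    (∀ n, rep (B : Set ℕ) n ≤ K) ∧
      c K * 4 ^ k < H * ((I.filter fun n => rep (B : Set ℕ) n = 0).card : ℝ) with hF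
  -- the size of the families
  have hFc : ∀ K, ((F K).card : ℝ) ≤ Real.exp (2 * C K * 2 ^ k) := by
    intro K
    have h1 := hcount K N hN1
    have hfin : {B : Set ℕ | B ⊆ Set.Iic N ∧
        ∀ n, Pool.Agent.Y940.CH.rep B 2 n ≤ K}.Finite :=
      ((Set.finite_Iic N).finite_subsets).subset fun B hB => hB.1
    have h2 : (F K).card ≤ {B : Set ℕ | B ⊆ Set.Iic N ∧
        ∀ n, Pool.Agent.Y940.CH.rep B 2 n ≤ K}.ncard := by
      have h3 : ((fun B : Finset ℕ => (B : Set ℕ)) '' (F K : Set (Finset ℕ))) ⊆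
          {B : Set ℕ | B ⊆ Set.Iic N ∧ ∀ n, Pool.Agent.Y940.CH.rep B 2 n ≤ K} := by
        rintro _ ⟨B, hB, rfl⟩
        have hB' := Finset.mem_filter.1 (Finset.mem_coe.1 hB)
        refine ⟨fun x hx => ?_, fun n => (rep2_le _ n).trans (hB'.2.1 n)⟩
        have h4 := Finset.mem_powerset.1 hB'.1 (Finset.mem_coe.1 hx)
        rw [Finset.mem_range] at h4
        exact Set.mem_Iic.2 (by omega)
      have h4 := Set.ncard_le_ncard h3 hfin
      rwa [Set.ncard_image_of_injective _ Finset.coe_injective, Set.ncard_coe_finset] at h4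
    have h3 : C K * (N : ℝ) ^ (1 / ((2 : ℕ) : ℝ)) = 2 * C K * 2 ^ k := by
      have h5 : (N : ℝ) = (2 ^ (k + 1)) ^ 2 := by
        rw [hN]
        push_cast
        rw [← pow_mul, mul_comm (k + 1) 2, pow_mul]
        norm_num
      rw [h5]
      have h6 : (((2 : ℝ) ^ (k + 1)) ^ 2) ^ (1 / ((2 : ℕ) : ℝ)) = 2 ^ (k + 1) := by
        rw [← Real.rpow_natCast (((2 : ℝ) ^ (k + 1))) 2, ← Real.rpow_mul (by positivity)]
        norm_num
      rw [h6]
      ring
    calc ((F K).card : ℝ) ≤ (({B : Set ℕ | B ⊆ Set.Iic N ∧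
        ∀ n, Pool.Agent.Y940.CH.rep B 2 n ≤ K}.ncard : ℕ) : ℝ) := by exact_mod_cast h2
      _ ≤ Real.exp (C K * (N : ℝ) ^ (1 / ((2 : ℕ) : ℝ))) := h1
      _ = Real.exp (2 * C K * 2 ^ k) := by rw [h3]
  -- the size of the covered sets
  have hcovc : ∀ K, ∀ B ∈ F K,
      ((cov B).card : ℝ) ≤ (3 * 4 ^ k) * Real.exp (-(c K / (3 * H))) := by
    intro K B hB
    have hB' := (Finset.mem_filter.1 hB).2.2
    have h1 : (cov B).card + (I.filter fun n => rep (B : Set ℕ) n = 0).card = 3 * 4 ^ k := by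
      rw [← hIc, ← Finset.card_filter_add_card_filter_not (s := I)
        (p := fun n => 1 ≤ rep (B : Set ℕ) n)]
      congr 2
      ext n
      simp only [Finset.mem_filter]
      constructor
      · rintro ⟨h1, h2⟩
        exact ⟨h1, by omega⟩
      · rintro ⟨h1, h2⟩
        exact ⟨h1, by omega⟩
    have h2 : ((cov B).card : ℝ) + ((I.filter fun n => rep (B : Set ℕ) n = 0).card : ℝ) =
        3 * 4 ^ k := by exact_mod_cast h1
    have h4 : c K * 4 ^ k / H ≤ ((I.filter fun n => rep (B : Set ℕ) n = 0).card : ℝ) := by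
      rw [div_le_iff₀ hH0]
      linarith
    have h5 : (3 * 4 ^ k : ℝ) * (1 - c K / (3 * H)) = 3 * 4 ^ k - c K * 4 ^ k / H := by
      field_simp
    have h6 : 1 - c K / (3 * H) ≤ Real.exp (-(c K / (3 * H))) := by
      have := Real.add_one_le_exp (-(c K / (3 * (H : ℝ))))
      linarith
    calc ((cov B).card : ℝ) ≤ 3 * 4 ^ k - c K * 4 ^ k / H := by linarith
      _ = (3 * 4 ^ k : ℝ) * (1 - c K / (3 * H)) := h5.symm
      _ ≤ (3 * 4 ^ k) * Real.exp (-(c K / (3 * H))) :=
          mul_le_mul_of_nonneg_left h6 (by positivity)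
  have hone : ∀ K : ℕ, ∑ B ∈ F K, ((cov B).card : ℝ) ^ s ≤
      (3 * 4 ^ k : ℝ) ^ s * (1 / 4) ^ (K + 1) := by
    intro K
    calc (∑ B ∈ F K, ((cov B).card : ℝ) ^ s)
        ≤ ∑ B ∈ F K, ((3 * 4 ^ k : ℝ) * Real.exp (-(c K / (3 * H)))) ^ s :=
          Finset.sum_le_sum fun B hB => pow_le_pow_left₀ (by positivity) (hcovc K B hB) s
      _ = (3 * 4 ^ k : ℝ) ^ s * ((F K).card * (Real.exp (-(c K / (3 * H)))) ^ s) := by
          rw [Finset.sum_const, nsmul_eq_mul, mul_pow]
          ring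
      _ ≤ (3 * 4 ^ k : ℝ) ^ s *
          (Real.exp (2 * C K * 2 ^ k) * (Real.exp (-(c K / (3 * H)))) ^ s) := by
          refine mul_le_mul_of_nonneg_left ?_ (by positivity)
          exact mul_le_mul_of_nonneg_right (hFc K) (by positivity)
      _ ≤ (3 * 4 ^ k : ℝ) ^ s * (1 / 4) ^ (K + 1) := by
          refine mul_le_mul_of_nonneg_left ?_ (by positivity)
          rw [← Real.exp_nat_mul, ← Real.exp_add]
          have h2 : (s : ℝ) = 2 ^ k * H := by
            rw [hs]
            push_cast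
            ring
          rw [h2]
          have h3 : (2 : ℝ) * C K * 2 ^ k + 2 ^ k * H * -(c K / (3 * H)) =
              2 ^ k * ((6 * C K - c K) / 3) := by
            field_simp
            ring
          rw [h3]
          have h4 := hcC K
          have h5 : (1 : ℝ) ≤ 2 ^ k := one_le_pow₀ (by norm_num)
          have h6 : (2 : ℝ) ^ k * ((6 * C K - c K) / 3) ≤ ((K + 1 : ℕ) : ℝ) * (-2) := by
            have h7 : (6 * C K - c K) / 3 ≤ -(2 * ((K : ℝ) + 1)) := by linarith
            have h8 : (0 : ℝ) ≤ K := Nat.cast_nonneg K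
            push_cast
            nlinarith
          calc Real.exp (2 ^ k * ((6 * C K - c K) / 3)) ≤ Real.exp (((K + 1 : ℕ) : ℝ) * (-2)) :=
                Real.exp_le_exp.2 h6
            _ = (Real.exp (-2)) ^ (K + 1) := Real.exp_nat_mul _ _
            _ ≤ (1 / 4) ^ (K + 1) := by
                refine pow_le_pow_left₀ (Real.exp_pos _).le ?_ _
                rw [Real.exp_neg, ← one_div]
                refine one_div_le_one_div_of_le (by norm_num) ?_
                have h9 := Real.exp_one_gt_d9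
                have h10 : Real.exp 2 = Real.exp 1 * Real.exp 1 := by
                  rw [← Real.exp_add]
                  norm_num
                rw [h10]
                nlinarith
  set FF : Finset (Finset ℕ) := (Finset.range (N + 2)).biUnion F with hFF
  have hsum : ∑ B ∈ FF, (cov B).card ^ s < I.card ^ s := by
    rw [hIc]
    have h1 : (∑ B ∈ FF, ((cov B).card : ℝ) ^ s) < (3 * 4 ^ k : ℝ) ^ s := by
      have hbi : ∑ B ∈ FF, ((cov B).card : ℝ) ^ s ≤
          ∑ K ∈ Finset.range (N + 2), ∑ B ∈ F K, ((cov B).card : ℝ) ^ s := by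
        rw [hFF]
        have : ∀ t : Finset ℕ, ∑ B ∈ t.biUnion F, ((cov B).card : ℝ) ^ s ≤
            ∑ K ∈ t, ∑ B ∈ F K, ((cov B).card : ℝ) ^ s := by
          intro t
          induction t using Finset.induction_on with
          | empty => simp
          | insert a s' ha ih =>
              rw [Finset.biUnion_insert, Finset.sum_insert ha]
              have h1 := Finset.sum_union_inter (s₁ := F a) (s₂ := s'.biUnion F)
                (f := fun B => ((cov B).card : ℝ) ^ s)
              have h2 : 0 ≤ ∑ B ∈ F a ∩ s'.biUnion F, ((cov B).card : ℝ) ^ s :=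
                Finset.sum_nonneg fun n _ => by positivity
              linarith
        exact this _
      calc (∑ B ∈ FF, ((cov B).card : ℝ) ^ s)
          ≤ ∑ K ∈ Finset.range (N + 2), ∑ B ∈ F K, ((cov B).card : ℝ) ^ s := hbi
        _ ≤ ∑ K ∈ Finset.range (N + 2), (3 * 4 ^ k : ℝ) ^ s * (1 / 4) ^ (K + 1) :=
            Finset.sum_le_sum fun K _ => hone K
        _ = (3 * 4 ^ k : ℝ) ^ s * ∑ K ∈ Finset.range (N + 2), (1 / 4 : ℝ) ^ (K + 1) := by
            rw [Finset.mul_sum]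
        _ < (3 * 4 ^ k : ℝ) ^ s * 1 := by
            refine mul_lt_mul_of_pos_left ?_ (by positivity)
            have h2 : ∑ K ∈ Finset.range (N + 2), (1 / 4 : ℝ) ^ (K + 1) =
                1 / 4 * ∑ K ∈ Finset.range (N + 2), (1 / 4 : ℝ) ^ K := by
              rw [Finset.mul_sum]
              exact Finset.sum_congr rfl fun K _ => by rw [pow_succ]; ring
            rw [h2, geom_sum_eq (by norm_num)]
            have h3 : (0 : ℝ) < (1 / 4) ^ (N + 2) := by positivity
            have h4 : ((1 / 4 : ℝ) ^ (N + 2) - 1) / (1 / 4 - 1) =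
                4 / 3 * (1 - (1 / 4 : ℝ) ^ (N + 2)) := by ring
            rw [h4]
            linarith
        _ = (3 * 4 ^ k : ℝ) ^ s := mul_one _
    exact_mod_cast h1
  obtain ⟨f, hf, hf2⟩ := exists_fn I FF cov (fun B _ => Finset.filter_subset _ _) s hsum
  refine ⟨f, fun i => by simpa [hI] using hf i, fun K A hA hcovA => ?_⟩
  by_contra hcon
  push Not at hcon
  -- the initial segment of `A`
  have hfin : (A ∩ Set.Iic N).Finite := (Set.finite_Iic N).subset Set.inter_subset_right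
  set B : Finset ℕ := hfin.toFinset with hB
  have hBA : (B : Set ℕ) = A ∩ Set.Iic N := hfin.coe_toFinset
  have hrepB : ∀ n ≤ N, rep (B : Set ℕ) n = rep A n := fun n hn => by
    rw [hBA, rep_inter A hn]
  have hBr : B ⊆ Finset.range (N + 1) := by
    intro x hx
    rw [hB, Set.Finite.mem_toFinset] at hx
    rw [Finset.mem_range]
    have := Set.mem_Iic.1 hx.2
    omega
  have hBF : B ∈ FF := by
    rw [hFF, Finset.mem_biUnion]
    refine ⟨min K (N + 1), Finset.mem_range.2 (by omega), ?_⟩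
    rw [hF]
    simp only
    rw [Finset.mem_filter, Finset.mem_powerset]
    refine ⟨hBr, fun n => le_min ?_ ?_, ?_⟩
    · rw [hBA]
      exact (rep_mono Set.inter_subset_left n).trans (hA n)
    · refine (rep_le_card B n).trans ((Finset.card_le_card hBr).trans ?_)
      rw [Finset.card_range]
    · have h1 : {n : ℕ | 4 ^ k ≤ n ∧ n < 4 ^ (k + 1) ∧ rep A n = 0} =
          ((I.filter fun n => rep (B : Set ℕ) n = 0 : Finset ℕ) : Set ℕ) := by
        ext n
        simp only [Set.mem_ofPred_eq, Finset.coe_filter, hI, Finset.mem_Ico]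
        constructor
        · rintro ⟨h1, h2, h3⟩
          exact ⟨⟨h1, h2⟩, by rw [hrepB n (by omega)]; exact h3⟩
        · rintro ⟨⟨h1, h2⟩, h3⟩
          exact ⟨h1, h2, by rw [← hrepB n (by omega)]; exact h3⟩
      unfold holes at hcon
      rw [h1, Set.ncard_coe_finset] at hcon
      refine lt_of_le_of_lt ?_ hcon
      exact mul_le_mul_of_nonneg_right (hcmono (min_le_left _ _)) (by positivity)
  obtain ⟨i, hi⟩ := hf2 B hBF
  apply hi
  rw [hcov]
  simp only [Finset.mem_filter]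
  have h1 := hf i
  refine ⟨h1, ?_⟩
  have h2 := (Finset.mem_Ico.1 (hI ▸ h1)).2
  rw [hrepB _ (by omega)]
  exact hcovA i

/-- **The local form.** -/
theorem part3 : ∃ c : ℕ → ℝ, (∀ K, 0 < c K) ∧ ∀ H : ℕ → ℕ, (∀ k, 1 ≤ H k) → ∃ S : Set ℕ,
    (∀ k, {n : ℕ | n ∈ S ∧ 4 ^ k ≤ n ∧ n < 4 ^ (k + 1)}.ncard ≤ 2 ^ k * H k) ∧
    ∀ (K : ℕ) (A : Set ℕ), (∀ n, rep A n ≤ K) → ∀ k : ℕ,
      (∀ n ∈ S, 4 ^ k ≤ n → n < 4 ^ (k + 1) → 1 ≤ rep A n) →
        (holes A k : ℝ) ≤ c K * 4 ^ k / H k := by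
  classical
  obtain ⟨c, hc0, hc⟩ := block3
  refine ⟨c, hc0, fun H hH => ?_⟩
  choose f hf hA using fun k => hc (H k) k (hH k)
  refine ⟨{n | ∃ k, ∃ i, f k i = n}, fun k => ?_, fun K A hK k hcov => ?_⟩
  · have h1 : {n : ℕ | n ∈ {n | ∃ k, ∃ i, f k i = n} ∧ 4 ^ k ≤ n ∧ n < 4 ^ (k + 1)} ⊆
        ((Finset.univ.image (f k) : Finset ℕ) : Set ℕ) := by
      rintro n ⟨⟨l, i, rfl⟩, h2, h3⟩
      have h4 := hf l i
      have h5 : l = k := by
        have h6 : l < k + 1 := (Nat.pow_lt_pow_iff_right (a := 4) (by norm_num)).1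
          (lt_of_le_of_lt h4.1 h3)
        have h7 : k < l + 1 := (Nat.pow_lt_pow_iff_right (a := 4) (by norm_num)).1
          (lt_of_le_of_lt h2 h4.2)
        omega
      subst h5
      exact Finset.mem_coe.2 (Finset.mem_image_of_mem _ (Finset.mem_univ i))
    refine (Set.ncard_le_ncard h1 (Finset.finite_toSet _)).trans ?_
    rw [Set.ncard_coe_finset]
    exact Finset.card_image_le.trans (by simp)
  · have hH0 : (0 : ℝ) < H k := by exact_mod_cast hH k
    have h1 := hA k K A hK fun i => hcov (f k i) ⟨k, i, rfl⟩ (hf k i).1 (hf k i).2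
    rw [le_div_iff₀ hH0]
    linarith

end Pool.Agent.H33.TS
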