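import Pool.Agent.H33.TS.Defs

/-!
# Sets with counting function at most `N ^ (1/2 - ε)` can be covered

Greedy proof with one potential: `A` grows by `x, n - x` at the elements `n` of `S`, where `x` is chosen
so that the potential `∑ k, (k + 2) ^ (-2) * (k + 2) ^ (e * ro n A k)` grows little.
-/

set_option autoImplicit false

namespace Pool.Agent.H33.TS

open Filter Finset

/-- the `u ∈ A` with `u < k - u ∈ A` -/
def Q (A : Finset ℕ) (k : ℕ) : Finset ℕ := A.filter fun u => 2 * u < k ∧ k - u ∈ A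

/-- the exponents: the number of unordered representations, minus one if `k < n` -/
def ro (n : ℕ) (A : Finset ℕ) (k : ℕ) : ℕ := (Q A k).card - if k < n then 1 else 0

/-- does `k - x` belong to `A`? -/
def hit (A : Finset ℕ) (x k : ℕ) : ℕ := if ∃ a ∈ A, x + a = k then 1 else 0

theorem hit_le (A : Finset ℕ) (x k : ℕ) : hit A x k ≤ 1 := by
  unfold hit
  split_ifs <;> omega

theorem Q_step (A : Finset ℕ) (x y n k : ℕ) (h : x + y = n) :
    (Q (insert x (insert y A)) k).card ≤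
      (Q A k).card + hit A x k + hit A y k + if k = n then 1 else 0 := by
  have hsub : Q (insert x (insert y A)) k ⊆
      ((Q A k ∪ (if ∃ a ∈ A, x + a = k then {min x (k - x)} else ∅)) ∪
        (if ∃ a ∈ A, y + a = k then {min y (k - y)} else ∅)) ∪
        (if k = n then {min x y} else ∅) := by
    intro u hu
    simp only [Q, mem_filter, mem_insert] at hu
    obtain ⟨h1, h2, h3⟩ := hu
    simp only [mem_union]
    by_cases hu : u ∈ A
    · by_cases hv : k - u ∈ A
      · left; left; left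
        exact mem_filter.2 ⟨hu, h2, hv⟩
      · rcases h3 with h3 | h3 | h3
        · left; left; right
          rw [if_pos ⟨u, hu, by omega⟩, mem_singleton]
          omega
        · left; right
          rw [if_pos ⟨u, hu, by omega⟩, mem_singleton]
          omega
        · exact absurd h3 hv
    · have h1' : u = x ∨ u = y := by tauto
      by_cases hv : k - u ∈ A
      · rcases h1' with rfl | rfl
        · left; left; right
          rw [if_pos ⟨k - u, hv, by omega⟩, mem_singleton]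
          omega
        · left; right
          rw [if_pos ⟨k - u, hv, by omega⟩, mem_singleton]
          omega
      · have h3' : k - u = x ∨ k - u = y := by tauto
        right
        rw [if_pos (by omega), mem_singleton]
        omega
  refine (card_le_card hsub).trans ?_
  refine (card_union_le _ _).trans ?_
  refine Nat.add_le_add ?_ (by split_ifs <;> simp)
  refine (card_union_le _ _).trans ?_
  refine Nat.add_le_add ?_ (by unfold hit; split_ifs <;> simp)
  refine (card_union_le _ _).trans ?_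
  exact Nat.add_le_add le_rfl (by unfold hit; split_ifs <;> simp)

theorem ro_step (A : Finset ℕ) (x y n k : ℕ) (h : x + y = n) :
    ro (n + 1) (insert x (insert y A)) k ≤ ro n A k + (hit A x k + hit A y k) := by
  have := Q_step A x y n k h
  unfold ro
  split_ifs at this ⊢ <;> omega

theorem sum_hit_le (A : Finset ℕ) (n k : ℕ) :
    ∑ x ∈ range (n + 1), (hit A x k + hit A (n - x) k) ≤ 2 * A.card := by
  rw [sum_add_distrib]
  have h1 : ∑ x ∈ range (n + 1), hit A x k ≤ A.card := by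
    unfold hit
    rw [← card_filter]
    refine (card_le_card (t := A.image fun a => k - a) ?_).trans card_image_le
    intro x hx
    obtain ⟨-, a, ha, h⟩ := mem_filter.1 hx
    exact mem_image.2 ⟨a, ha, by omega⟩
  have h2 : ∑ x ∈ range (n + 1), hit A (n - x) k ≤ A.card := by
    unfold hit
    rw [← card_filter]
    refine (card_le_card (t := A.image fun a => n + a - k) ?_).trans card_image_le
    intro x hx
    obtain ⟨h0, a, ha, h⟩ := mem_filter.1 hx
    have := mem_range.1 h0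
    exact mem_image.2 ⟨a, ha, by omega⟩
  omega

theorem ro_same (n : ℕ) (A : Finset ℕ) (k : ℕ) : ro (n + 1) A k ≤ ro n A k := by
  unfold ro
  split_ifs <;> omega

noncomputable section

/-- weights -/
def w (e : ℝ) (k : ℕ) : ℝ := ((k : ℝ) + 2) ^ e

/-- the potential at `k` -/
def f (e : ℝ) (n : ℕ) (A : Finset ℕ) (k : ℕ) : ℝ := 1 / ((k : ℝ) + 2) ^ 2 * w e k ^ ro n A k

theorem one_le_w {e : ℝ} (he : 0 ≤ e) (k : ℕ) : 1 ≤ w e k :=
  Real.one_le_rpow (by have : (0 : ℝ) ≤ k := Nat.cast_nonneg k; linarith) he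

theorem f_nonneg {e : ℝ} (he : 0 ≤ e) (n : ℕ) (A : Finset ℕ) (k : ℕ) : 0 ≤ f e n A k := by
  have := one_le_w he k
  unfold f
  positivity

theorem f_same {e : ℝ} (he : 0 ≤ e) (n : ℕ) (A : Finset ℕ) (k : ℕ) :
    f e (n + 1) A k ≤ f e n A k := by
  unfold f
  gcongr
  · exact one_le_w he k
  · exact ro_same n A k

theorem f_step {e : ℝ} (he : 0 ≤ e) {n : ℕ} {A : Finset ℕ} (hA : ∀ a ∈ A, a ≤ n) {x : ℕ}
    (hx : x ≤ n) (k : ℕ) : f e (n + 1) (insert x (insert (n - x) A)) k ≤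
      f e n A k * (1 + (((2 * n + 2 : ℕ) : ℝ) ^ e) ^ 2 *
        ((hit A x k + hit A (n - x) k : ℕ) : ℝ)) := by
  have h1 := ro_step A x (n - x) n k (by omega)
  have hw := one_le_w he k
  have h2 : f e (n + 1) (insert x (insert (n - x) A)) k ≤
      f e n A k * w e k ^ (hit A x k + hit A (n - x) k) := by
    unfold f
    rw [mul_assoc, ← pow_add]
    gcongr
  refine h2.trans (mul_le_mul_of_nonneg_left ?_ (f_nonneg he n A k))
  rcases Nat.eq_zero_or_pos (hit A x k + hit A (n - x) k) with h0 | h0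
  · rw [h0]; simp
  · have hk : k ≤ 2 * n := by
      unfold hit at h0
      by_cases c1 : ∃ a ∈ A, x + a = k
      · obtain ⟨a, ha, h⟩ := c1
        have := hA a ha
        omega
      · by_cases c2 : ∃ a ∈ A, n - x + a = k
        · obtain ⟨a, ha, h⟩ := c2
          have := hA a ha
          omega
        · rw [if_neg c1, if_neg c2] at h0
          omega
    have hle2 : hit A x k + hit A (n - x) k ≤ 2 := by
      have := hit_le A x k
      have := hit_le A (n - x) k
      omega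
    have h3 : w e k ≤ ((2 * n + 2 : ℕ) : ℝ) ^ e := by
      unfold w
      refine Real.rpow_le_rpow (by positivity) ?_ he
      have : ((k + 2 : ℕ) : ℝ) ≤ ((2 * n + 2 : ℕ) : ℝ) := by exact_mod_cast (by omega)
      push_cast at this ⊢
      exact this
    have h4 : w e k ^ (hit A x k + hit A (n - x) k) ≤ (((2 * n + 2 : ℕ) : ℝ) ^ e) ^ 2 :=
      (pow_le_pow_right₀ hw hle2).trans (pow_le_pow_left₀ (by linarith) h3 2)
    have h5 : (1 : ℝ) ≤ ((hit A x k + hit A (n - x) k : ℕ) : ℝ) := by exact_mod_cast h0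
    have h6 : 0 ≤ (((2 * n + 2 : ℕ) : ℝ) ^ e) ^ 2 := by positivity
    nlinarith

theorem step {e : ℝ} (he : 0 ≤ e) {n : ℕ} {A : Finset ℕ} (hA : ∀ a ∈ A, a ≤ n)
    (hs : Summable (f e n A)) : ∃ x ≤ n,
      Summable (f e (n + 1) (insert x (insert (n - x) A))) ∧
      ∑' k, f e (n + 1) (insert x (insert (n - x) A)) k ≤
        (1 + (((2 * n + 2 : ℕ) : ℝ) ^ e) ^ 2 * (2 * A.card / (n + 1))) * ∑' k, f e n A k := by
  set D : ℝ := (((2 * n + 2 : ℕ) : ℝ) ^ e) ^ 2 with hD
  have hD0 : 0 ≤ D := by positivity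
  set h : ℕ → ℕ → ℝ := fun x k => ((hit A x k + hit A (n - x) k : ℕ) : ℝ) with hh
  have hh2 : ∀ x k, h x k ≤ 2 := by
    intro x k
    have h1 := hit_le A x k
    have h2 := hit_le A (n - x) k
    have : ((hit A x k + hit A (n - x) k : ℕ) : ℝ) ≤ ((2 : ℕ) : ℝ) := by exact_mod_cast (by omega)
    simpa [hh] using this
  have hh0 : ∀ x k, 0 ≤ h x k := fun x k => Nat.cast_nonneg _
  have hf0 := f_nonneg he n A
  have hs1 : ∀ x, Summable fun k => f e n A k * h x k := fun x =>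
    Summable.of_nonneg_of_le (fun k => mul_nonneg (hf0 k) (hh0 x k))
      (fun k => mul_le_mul_of_nonneg_left (hh2 x k) (hf0 k)) (hs.mul_right 2)
  have hav : ∃ x ∈ range (n + 1), ∑' k, f e n A k * h x k ≤
      2 * A.card / (n + 1) * ∑' k, f e n A k := by
    refine exists_le_of_sum_le ⟨0, by simp⟩ ?_
    rw [← Summable.tsum_finsetSum fun x _ => hs1 x, sum_const, card_range, nsmul_eq_mul]
    have e1 : ((n + 1 : ℕ) : ℝ) * (2 * A.card / (n + 1) * ∑' k, f e n A k) =
        ∑' k, f e n A k * (2 * A.card) := by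
      rw [tsum_mul_right]
      push_cast
      field_simp
    rw [e1]
    refine Summable.tsum_le_tsum (fun k => ?_) (summable_sum fun x _ => hs1 x) (hs.mul_right _)
    rw [← mul_sum]
    refine mul_le_mul_of_nonneg_left ?_ (hf0 k)
    have := sum_hit_le A n k
    have h2 : ((∑ x ∈ range (n + 1), (hit A x k + hit A (n - x) k) : ℕ) : ℝ) ≤
        ((2 * A.card : ℕ) : ℝ) := by exact_mod_cast this
    rw [Nat.cast_sum] at h2
    push_cast at h2 ⊢
    simpa [hh] using h2
  obtain ⟨x, hx, hx2⟩ := hav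
  have hxn : x ≤ n := by
    have := mem_range.1 hx
    omega
  have hst := f_step he hA hxn
  have hs2 : Summable fun k => f e n A k * (1 + D * h x k) := by
    have : (fun k => f e n A k * (1 + D * h x k)) = fun k => f e n A k + D * (f e n A k * h x k) := by
      funext k; ring
    rw [this]
    exact hs.add ((hs1 x).mul_left D)
  have hs3 := Summable.of_nonneg_of_le (f_nonneg he (n + 1) _) hst hs2
  refine ⟨x, hxn, hs3, ?_⟩
  calc ∑' k, f e (n + 1) (insert x (insert (n - x) A)) k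
      ≤ ∑' k, f e n A k * (1 + D * h x k) := Summable.tsum_le_tsum hst hs3 hs2
    _ = ∑' k, (f e n A k + D * (f e n A k * h x k)) := by
        congr 1; funext k; ring
    _ = ∑' k, f e n A k + D * ∑' k, f e n A k * h x k := by
        rw [Summable.tsum_add hs ((hs1 x).mul_left D), tsum_mul_left]
    _ ≤ ∑' k, f e n A k + D * (2 * A.card / (n + 1) * ∑' k, f e n A k) := by gcongr
    _ = _ := by ring

theorem cbound {ε : ℝ} (hε : 0 < ε) (hε1 : ε ≤ 1 / 4) {n₀ n m a : ℕ} (hn₀ : 1 ≤ n₀)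
    (hn : n₀ ≤ n) (hm1 : 1 ≤ m) (hm : (m : ℝ) ≤ (n : ℝ) ^ (1 / 2 - ε))
    (ha : a + 2 ≤ n₀ + 1 + 2 * m) :
    (((2 * n + 2 : ℕ) : ℝ) ^ (ε / 2)) ^ 2 * (2 * a / (n + 1)) ≤
      8 * (n₀ + 1) * (m : ℝ) ^ (1 + (ε - 1) / (1 / 2 - ε)) := by
  have hα : 0 < 1 / 2 - ε := by linarith
  have hn1 : (1 : ℝ) ≤ n := by exact_mod_cast hn₀.trans hn
  have hn0 : (0 : ℝ) < n := by linarith
  have hm1' : (1 : ℝ) ≤ m := by exact_mod_cast hm1
  have hm0 : (0 : ℝ) < m := by linarith
  have hn₀' : (1 : ℝ) ≤ n₀ := by exact_mod_cast hn₀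
  have h1 : (((2 * n + 2 : ℕ) : ℝ) ^ (ε / 2)) ^ 2 ≤ 4 * (n : ℝ) ^ ε := by
    rw [← Real.rpow_natCast, ← Real.rpow_mul (by positivity)]
    have e1 : ε / 2 * ((2 : ℕ) : ℝ) = ε := by push_cast; ring
    rw [e1]
    have h2 : ((2 * n + 2 : ℕ) : ℝ) ≤ 4 * n := by push_cast; linarith
    calc ((2 * n + 2 : ℕ) : ℝ) ^ ε ≤ (4 * (n : ℝ)) ^ ε :=
          Real.rpow_le_rpow (by positivity) h2 hε.le
      _ = 4 ^ ε * (n : ℝ) ^ ε := Real.mul_rpow (by norm_num) hn0.le
      _ ≤ 4 * (n : ℝ) ^ ε := by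
          gcongr
          calc (4 : ℝ) ^ ε ≤ 4 ^ (1 : ℝ) :=
                Real.rpow_le_rpow_of_exponent_le (by norm_num) (by linarith)
            _ = 4 := Real.rpow_one 4
  have h2 : (2 * (a : ℝ) / (n + 1)) ≤ 2 * (n₀ + 1) * m * (1 / n) := by
    have ha' : (a : ℝ) + 2 ≤ n₀ + 1 + 2 * m := by exact_mod_cast ha
    have h3 : (a : ℝ) ≤ (n₀ + 1) * m := by nlinarith
    rw [mul_one_div]
    have : (0:ℝ) ≤ a := Nat.cast_nonneg a
    refine div_le_div₀ (by positivity) (by linarith) hn0 (by linarith)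
  have h3 : (n : ℝ) ^ ε * (1 / n) = (n : ℝ) ^ (ε - 1) := by
    rw [Real.rpow_sub hn0, Real.rpow_one]
    ring
  have h4 : (n : ℝ) ^ (ε - 1) ≤ ((m : ℝ) ^ (1 / (1 / 2 - ε))) ^ (ε - 1) := by
    refine Real.rpow_le_rpow_of_nonpos (by positivity) ?_ (by linarith)
    calc (m : ℝ) ^ (1 / (1 / 2 - ε)) ≤ ((n : ℝ) ^ (1 / 2 - ε)) ^ (1 / (1 / 2 - ε)) :=
          Real.rpow_le_rpow hm0.le hm (by positivity)
      _ = n := by
          rw [← Real.rpow_mul hn0.le, mul_one_div_cancel hα.ne', Real.rpow_one]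
  have h5 : (m : ℝ) * ((m : ℝ) ^ (1 / (1 / 2 - ε))) ^ (ε - 1) =
      (m : ℝ) ^ (1 + (ε - 1) / (1 / 2 - ε)) := by
    rw [← Real.rpow_mul hm0.le, Real.rpow_add hm0, Real.rpow_one]
    congr 2
    ring
  calc (((2 * n + 2 : ℕ) : ℝ) ^ (ε / 2)) ^ 2 * (2 * a / (n + 1))
      ≤ (4 * (n : ℝ) ^ ε) * (2 * (n₀ + 1) * m * (1 / n)) := by gcongr
    _ = 8 * (n₀ + 1) * (m * ((n : ℝ) ^ ε * (1 / n))) := by ring
    _ = 8 * (n₀ + 1) * (m * (n : ℝ) ^ (ε - 1)) := by rw [h3]
    _ ≤ 8 * (n₀ + 1) * (m * ((m : ℝ) ^ (1 / (1 / 2 - ε))) ^ (ε - 1)) := by gcongr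
    _ = _ := by rw [h5]

/-- exponents are bounded if the potential is -/
theorem ro_bound {e : ℝ} (he : 0 < e) (B : ℝ) : ∃ K : ℕ, ∀ (n : ℕ) (A : Finset ℕ) (k : ℕ),
    Summable (f e n A) → ∑' k, f e n A k ≤ B → ro n A k < K := by
  obtain ⟨K₁, hK₁⟩ := exists_nat_ge (2 / e)
  have h2e : 1 < (2 : ℝ) ^ e := Real.one_lt_rpow (by norm_num) he
  obtain ⟨K₂, hK₂⟩ := pow_unbounded_of_one_lt B h2e
  refine ⟨K₁ + K₂, fun n A k hs hB => ?_⟩
  by_contra hlt
  rw [not_lt] at hlt
  have h1 : f e n A k ≤ B := (hs.le_tsum k fun j _ => f_nonneg he.le n A j).trans hB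
  have hb : (2 : ℝ) ≤ (k : ℝ) + 2 := by
    have : (0 : ℝ) ≤ k := Nat.cast_nonneg k
    linarith
  have hw := one_le_w he.le k
  have h2 : ((k : ℝ) + 2) ^ 2 ≤ w e k ^ K₁ := by
    unfold w
    rw [← Real.rpow_natCast, ← Real.rpow_natCast, ← Real.rpow_mul (by linarith)]
    refine Real.rpow_le_rpow_of_exponent_le (by linarith) ?_
    rw [div_le_iff₀ he] at hK₁
    push_cast
    linarith
  have h3 : B < w e k ^ K₂ := by
    refine hK₂.trans_le ?_
    exact pow_le_pow_left₀ (by positivity) (Real.rpow_le_rpow (by norm_num) hb he.le) _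
  have h4 : w e k ^ (K₁ + K₂) ≤ w e k ^ ro n A k := pow_le_pow_right₀ hw hlt
  have hp : (0 : ℝ) < ((k : ℝ) + 2) ^ 2 := by positivity
  have h5 : w e k ^ K₂ ≤ f e n A k := by
    unfold f
    rw [one_div, ← div_eq_inv_mul, le_div_iff₀ hp]
    calc w e k ^ K₂ * ((k : ℝ) + 2) ^ 2 ≤ w e k ^ K₂ * w e k ^ K₁ := by gcongr
      _ = w e k ^ (K₁ + K₂) := by rw [pow_add]; ring
      _ ≤ _ := h4
  linarith

end

theorem rep_le (A : Set ℕ) (B : Finset ℕ) (k : ℕ) (h : ∀ u ≤ k, u ∈ A → u ∈ B) :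
    rep A k ≤ 2 * (Q B k).card + 1 := by
  have hsub : {p : ℕ × ℕ | p.1 ∈ A ∧ p.2 ∈ A ∧ p.1 + p.2 = k} ⊆
      (((Q B k).image (fun u => (u, k - u)) ∪ (Q B k).image (fun u => (k - u, u)) ∪
        {(k / 2, k / 2)} : Finset (ℕ × ℕ)) : Set (ℕ × ℕ)) := by
    rintro ⟨u, v⟩ ⟨h1, h2, h3⟩
    simp only at h1 h2 h3
    have hu := h u (by omega) h1
    have hv := h v (by omega) h2
    rw [Finset.mem_coe, mem_union, mem_union, mem_singleton, mem_image, mem_image]
    rcases lt_trichotomy u v with hlt | heq | hlt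
    · left; left
      refine ⟨u, mem_filter.2 ⟨hu, by omega, ?_⟩, ?_⟩
      · rwa [show k - u = v by omega]
      · rw [show k - u = v by omega]
    · right
      subst heq
      rw [show k / 2 = u by omega]
    · left; right
      refine ⟨v, mem_filter.2 ⟨hv, by omega, ?_⟩, ?_⟩
      · rwa [show k - v = u by omega]
      · rw [show k - v = u by omega]
  unfold rep
  refine (Set.ncard_le_ncard hsub (Finset.finite_toSet _)).trans ?_
  rw [Set.ncard_coe_finset]
  refine (card_union_le _ _).trans ?_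
  rw [card_singleton]
  have := card_union_le ((Q B k).image (fun u => (u, k - u))) ((Q B k).image (fun u => (k - u, u)))
  have h1 : ((Q B k).image (fun u => (u, k - u))).card ≤ (Q B k).card := card_image_le
  have h2 : ((Q B k).image (fun u => (k - u, u))).card ≤ (Q B k).card := card_image_le
  omega

open Classical in
/-- the number of elements of `S` in `[1, n)` -/
noncomputable def cnt (S : Set ℕ) (n : ℕ) : ℕ :=
  ((range n).filter fun k => 1 ≤ k ∧ k ∈ S).card

theorem cnt_mem {S : Set ℕ} {n : ℕ} (h1 : 1 ≤ n) (hn : n ∈ S) : cnt S (n + 1) = cnt S n + 1 := by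
  classical
  unfold cnt
  rw [range_add_one, filter_insert, if_pos ⟨h1, hn⟩, card_insert_of_notMem]
  simp

theorem cnt_notMem {S : Set ℕ} {n : ℕ} (hn : n ∉ S) : cnt S (n + 1) = cnt S n := by
  classical
  unfold cnt
  rw [range_add_one, filter_insert, if_neg fun h => hn h.2]

theorem count_eq (S : Set ℕ) (n : ℕ) : count S n = cnt S (n + 1) := by
  classical
  unfold count cnt
  rw [← Set.ncard_coe_finset]
  congr 1
  ext k
  simp only [Set.mem_inter_iff, Set.mem_Icc, coe_filter, mem_range, Set.mem_ofPred_eq]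
  constructor
  · rintro ⟨h1, h2, h3⟩
    exact ⟨by omega, h2, h1⟩
  · rintro ⟨h1, h2, h3⟩
    exact ⟨h3, h2, by omega⟩

/-- the initial potential is finite -/
theorem f_start {e : ℝ} (n₀ : ℕ) : Summable (f e n₀ (range (n₀ + 1))) := by
  have h1 : Summable fun k : ℕ => 1 / ((k : ℝ) + 2) ^ 2 := by
    have := (summable_nat_add_iff 2).2 (Real.summable_one_div_nat_pow.2 (by norm_num : 1 < 2))
    refine this.congr fun k => ?_
    push_cast
    rfl
  refine (summable_nat_add_iff (2 * n₀ + 1)).1 ?_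
  refine ((summable_nat_add_iff (2 * n₀ + 1)).2 h1).congr fun k => ?_
  have h2 : ro n₀ (range (n₀ + 1)) (k + (2 * n₀ + 1)) = 0 := by
    unfold ro
    have : Q (range (n₀ + 1)) (k + (2 * n₀ + 1)) = ∅ := by
      unfold Q
      refine filter_eq_empty_iff.2 fun u hu => ?_
      rintro ⟨h1, h2⟩
      rw [mem_range] at hu h2
      omega
    rw [this, card_empty, Nat.zero_sub]
  unfold f
  rw [h2, pow_zero, mul_one]

theorem coverable (ε : ℝ) (hε : 0 < ε) (S : Set ℕ)
    (hS : ∀ᶠ N : ℕ in atTop, (count S N : ℝ) ≤ (N : ℝ) ^ (1 / 2 - ε)) :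
    ∃ A : Set ℕ, (∃ K, ∀ n, rep A n ≤ K) ∧ ∀ n ∈ S, 1 ≤ rep A n := by
  -- we may assume `ε ≤ 1 / 4`
  wlog hε1 : ε ≤ 1 / 4 generalizing ε with hw
  · refine hw (1 / 4) (by norm_num) ?_ le_rfl
    filter_upwards [hS, eventually_ge_atTop 1] with N hN hN1
    refine hN.trans (Real.rpow_le_rpow_of_exponent_le (by exact_mod_cast hN1) ?_)
    linarith
  obtain ⟨n₁, hn₁⟩ := eventually_atTop.1 hS
  obtain ⟨n₀, hn₀, hS0⟩ : ∃ n₀ : ℕ, 1 ≤ n₀ ∧ ∀ N, n₀ ≤ N →
      (count S N : ℝ) ≤ (N : ℝ) ^ (1 / 2 - ε) :=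
    ⟨max n₁ 1, le_max_right _ _, fun N hN => hn₁ N ((le_max_left _ _).trans hN)⟩
  have hα : 0 < 1 / 2 - ε := by linarith
  have he : 0 ≤ ε / 2 := by positivity
  obtain ⟨p, hp⟩ : ∃ p : ℝ, p = 1 + (ε - 1) / (1 / 2 - ε) := ⟨_, rfl⟩
  have hp1 : p < -1 := by
    have : (ε - 1) / (1 / 2 - ε) < -2 := by
      rw [div_lt_iff₀ hα]
      linarith
    linarith
  have hsum : Summable fun j : ℕ => (j : ℝ) ^ p := Real.summable_nat_rpow.2 hp1
  obtain ⟨C, hC⟩ : ∃ C : ℝ, C = 8 * ((n₀ : ℝ) + 1) := ⟨_, rfl⟩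
  have hC0 : 0 ≤ C := by rw [hC]; positivity
  obtain ⟨B, hB⟩ : ∃ B : ℝ, B = ∑' k, f (ε / 2) n₀ (range (n₀ + 1)) k := ⟨_, rfl⟩
  have hB0 : 0 ≤ B := by
    rw [hB]
    exact tsum_nonneg fun k => f_nonneg he _ _ k
  -- the invariant
  let Inv : ℕ → Finset ℕ → Prop := fun n A => (∀ a ∈ A, a ≤ n) ∧
    A.card ≤ n₀ + 1 + 2 * cnt S n ∧ Summable (f (ε / 2) n A) ∧
    ∑' k, f (ε / 2) n A k ≤ B * Real.exp (C * ∑ j ∈ range (cnt S n + 1), (j : ℝ) ^ p)
  have hnext : ∀ (n : ℕ) (A : Finset ℕ), n₀ ≤ n → Inv n A → ∃ A' : Finset ℕ, A ⊆ A' ∧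
      Inv (n + 1) A' ∧ (n ∈ S → ∃ x ∈ A', ∃ y ∈ A', x + y = n) := by
    rintro n A hn ⟨i1, i2, i3, i4⟩
    by_cases hnS : n ∈ S
    · obtain ⟨x, hx, s1, s2⟩ := step he i1 i3
      have hc := cnt_mem (hn₀.trans hn) hnS
      refine ⟨insert x (insert (n - x) A), ?_, ⟨?_, ?_, s1, ?_⟩, fun _ => ⟨x, by simp, n - x,
        by simp, by omega⟩⟩
      · exact (subset_insert _ _).trans (subset_insert _ _)
      · intro a ha
        rw [mem_insert, mem_insert] at ha
        rcases ha with rfl | rfl | ha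
        · omega
        · omega
        · have := i1 a ha
          omega
      · have h1 := card_insert_le x (insert (n - x) A)
        have h2 := card_insert_le (n - x) A
        omega
      · refine s2.trans ?_
        have hcb := cbound hε hε1 (a := A.card) (m := cnt S (n + 1)) hn₀ hn (by omega)
          (by rw [← count_eq]; exact hS0 n hn) (by omega)
        rw [← hp, ← hC] at hcb
        have hpos : 0 ≤ ∑' k, f (ε / 2) n A k := tsum_nonneg fun k => f_nonneg he _ _ k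
        calc (1 + (((2 * n + 2 : ℕ) : ℝ) ^ (ε / 2)) ^ 2 * (2 * A.card / (n + 1))) *
              ∑' k, f (ε / 2) n A k
            ≤ (1 + C * (cnt S (n + 1) : ℝ) ^ p) * ∑' k, f (ε / 2) n A k := by gcongr
          _ ≤ Real.exp (C * (cnt S (n + 1) : ℝ) ^ p) *
              (B * Real.exp (C * ∑ j ∈ range (cnt S n + 1), (j : ℝ) ^ p)) := by
              gcongr
              rw [add_comm]
              exact Real.add_one_le_exp _
          _ = B * Real.exp (C * ∑ j ∈ range (cnt S (n + 1) + 1), (j : ℝ) ^ p) := by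
              rw [sum_range_succ _ (cnt S (n + 1)), hc, mul_add, Real.exp_add]
              ring
    · have hc := cnt_notMem hnS
      have hs : Summable (f (ε / 2) (n + 1) A) :=
        Summable.of_nonneg_of_le (f_nonneg he (n + 1) A) (f_same he n A) i3
      refine ⟨A, Subset.rfl, ⟨fun a ha => (i1 a ha).trans (by omega), by omega, hs, ?_⟩,
        fun h => absurd h hnS⟩
      rw [hc]
      exact (Summable.tsum_le_tsum (f_same he n A) hs i3).trans i4
  choose! F hF1 hF2 hF3 using hnext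
  let seq : ℕ → Finset ℕ := fun m => Nat.rec (range (n₀ + 1)) (fun i A => F (n₀ + i) A) m
  have hseq : ∀ m, Inv (n₀ + m) (seq m) := by
    intro m
    induction m with
    | zero =>
      refine ⟨fun a ha => ?_, ?_, f_start n₀, ?_⟩
      · have := mem_range.1 ha
        omega
      · show (range (n₀ + 1)).card ≤ _
        rw [card_range]
        omega
      · show ∑' k, f (ε / 2) n₀ (range (n₀ + 1)) k ≤ _
        rw [← hB]
        refine le_mul_of_one_le_right hB0 (Real.one_le_exp ?_)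
        positivity
    | succ m ih => exact hF2 (n₀ + m) (seq m) (by omega) ih
  have hmono : Monotone seq := monotone_nat_of_le_succ fun m =>
    hF1 (n₀ + m) (seq m) (by omega) (hseq m)
  obtain ⟨K, hK⟩ := ro_bound (e := ε / 2) (by positivity)
    (B * Real.exp (C * ∑' j : ℕ, (j : ℝ) ^ p))
  refine ⟨{a | ∃ m, a ∈ seq m}, ⟨2 * K + 3, fun k => ?_⟩, fun n hn => ?_⟩
  · have hex : ∀ u : ℕ, ∃ m : ℕ, u ∈ {a : ℕ | ∃ m, a ∈ seq m} → u ∈ seq m := by
      intro u
      rcases Classical.em (u ∈ {a : ℕ | ∃ m, a ∈ seq m}) with h | h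
      · obtain ⟨m, hm⟩ := h
        exact ⟨m, fun _ => hm⟩
      · exact ⟨0, fun h' => absurd h' h⟩
    choose N hN using hex
    obtain ⟨M, hM⟩ : ∃ M, M = (range (k + 1)).sup N := ⟨_, rfl⟩
    have h1 := rep_le {a | ∃ m, a ∈ seq m} (seq M) k fun u hu hA => by
      have : N u ≤ M := by
        rw [hM]
        exact le_sup (mem_range.2 (by omega))
      exact hmono this (hN u hA)
    obtain ⟨-, -, i3, i4⟩ := hseq M
    have h2 := hK (n₀ + M) (seq M) k i3 (i4.trans (by
      gcongr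
      exact hsum.sum_le_tsum _ fun j _ => by positivity))
    have h3 : (Q (seq M) k).card ≤ ro (n₀ + M) (seq M) k + 1 := by
      unfold ro
      split_ifs <;> omega
    omega
  · rw [one_le_rep]
    by_cases h : n ≤ n₀
    · refine ⟨0, ⟨0, ?_⟩, n, ⟨0, ?_⟩, by omega⟩
      · show 0 ∈ range (n₀ + 1)
        simp
      · show n ∈ range (n₀ + 1)
        rw [mem_range]
        omega
    · obtain ⟨m, rfl⟩ : ∃ m, n = n₀ + m := ⟨n - n₀, by omega⟩
      obtain ⟨x, hx, y, hy, hxy⟩ := hF3 (n₀ + m) (seq m) (by omega) (hseq m) hn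
      exact ⟨x, ⟨m + 1, hx⟩, y, ⟨m + 1, hy⟩, hxy⟩

end Pool.Agent.H33.TS
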