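import Mathlib

/-!
# Sparse test sets for the Erdős–Turán problem: definitions
-/

set_option autoImplicit false

namespace Pool.Agent.H33.TS

/-- `r_A(n)`: the number of ordered pairs of elements of `A` with sum `n` -/
noncomputable def rep (A : Set ℕ) (n : ℕ) : ℕ :=
  {p : ℕ × ℕ | p.1 ∈ A ∧ p.2 ∈ A ∧ p.1 + p.2 = n}.ncard

/-- `|A ∩ [1, N]|` -/
noncomputable def count (A : Set ℕ) (N : ℕ) : ℕ := (A ∩ Set.Icc 1 N).ncard

/-- All sufficiently large elements of `S` are sums of two elements of `A`. -/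
def Covers (A S : Set ℕ) : Prop := ∃ n₀ : ℕ, ∀ n ∈ S, n₀ ≤ n → 1 ≤ rep A n

theorem rep_finite (A : Set ℕ) (n : ℕ) :
    {p : ℕ × ℕ | p.1 ∈ A ∧ p.2 ∈ A ∧ p.1 + p.2 = n}.Finite := by
  refine (Finset.finite_toSet (Finset.HasAntidiagonal.antidiagonal n)).subset ?_
  rintro x hx
  exact Finset.mem_coe.2 (Finset.HasAntidiagonal.mem_antidiagonal.2 hx.2.2)

theorem one_le_rep {A : Set ℕ} {n : ℕ} : 1 ≤ rep A n ↔ ∃ a ∈ A, ∃ b ∈ A, a + b = n := by
  unfold rep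
  rw [Nat.one_le_iff_ne_zero, ← Nat.pos_iff_ne_zero, Set.ncard_pos (rep_finite A n)]
  constructor
  · rintro ⟨p, h1, h2, h3⟩
    exact ⟨p.1, h1, p.2, h2, h3⟩
  · rintro ⟨a, ha, b, hb, h⟩
    exact ⟨(a, b), ha, hb, h⟩

end Pool.Agent.H33.TS
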