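import Pool.Agent.H33.TS.Defs

/-!
# Diagonalisation over the bounds `K`, and growth functions
-/

set_option autoImplicit false

namespace Pool.Agent.H33.TS

open Filter

theorem diag (s : ℕ → ℕ) (Good : ℕ → ℕ → Set ℕ → Prop)
    (hanti : ∀ k K K' A, K ≤ K' → Good k K' A → Good k K A)
    (hgood : ∀ K, ∀ᶠ k : ℕ in atTop, ∃ f : Fin (s k) → ℕ,
      (∀ i, 4 ^ k ≤ f i ∧ f i < 4 ^ (k + 1)) ∧
      ∀ A : Set ℕ, (∀ n, rep A n ≤ K) → (∀ i, 1 ≤ rep A (f i)) → Good k K A) :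
    ∃ T : ℕ → Finset ℕ, (∀ k, (T k).card ≤ s k ∧ ∀ n ∈ T k, 4 ^ k ≤ n ∧ n < 4 ^ (k + 1)) ∧
      ∀ K, ∀ᶠ k : ℕ in atTop, ∀ A : Set ℕ, (∀ n, rep A n ≤ K) → (∀ n ∈ T k, 1 ≤ rep A n) →
        Good k K A := by
  classical
  let W : ℕ → ℕ → Prop := fun k K => ∃ f : Fin (s k) → ℕ,
      (∀ i, 4 ^ k ≤ f i ∧ f i < 4 ^ (k + 1)) ∧
      ∀ A : Set ℕ, (∀ n, rep A n ≤ K) → (∀ i, 1 ≤ rep A (f i)) → Good k K A
  have hex : ∀ k, ∃ T : Finset ℕ, (T.card ≤ s k ∧ ∀ n ∈ T, 4 ^ k ≤ n ∧ n < 4 ^ (k + 1)) ∧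
      ∀ K ≤ k, W k K → ∀ A : Set ℕ, (∀ n, rep A n ≤ K) → (∀ n ∈ T, 1 ≤ rep A n) →
        Good k K A := by
    intro k
    by_cases h : ∃ K ≤ k, W k K
    · obtain ⟨K₀, hK₀, hW₀⟩ := h
      set M := Nat.findGreatest (W k) k with hM
      have hWM : W k M := Nat.findGreatest_spec hK₀ hW₀
      obtain ⟨f, hf, hA⟩ := hWM
      refine ⟨Finset.univ.image f, ⟨?_, ?_⟩, ?_⟩
      · exact Finset.card_image_le.trans (by simp)
      · intro n hn
        obtain ⟨i, _, rfl⟩ := Finset.mem_image.1 hn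
        exact hf i
      · intro K hKk hWK A hrep hcov
        have hKM : K ≤ M := Nat.le_findGreatest hKk hWK
        refine hanti k K M A hKM (hA A (fun n => (hrep n).trans hKM) fun i => ?_)
        exact hcov _ (Finset.mem_image_of_mem f (Finset.mem_univ i))
    · refine ⟨∅, ⟨by simp, by simp⟩, ?_⟩
      intro K hK hW
      exact absurd ⟨K, hK, hW⟩ h
  choose T hT1 hT2 using hex
  refine ⟨T, hT1, fun K => ?_⟩
  filter_upwards [hgood K, eventually_ge_atTop K] with k hk hkK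
  exact hT2 k K hkK hk

/-- a natural number valued function below `g` on `[4 ^ k, ∞)` -/
theorem exists_G (g : ℕ → ℝ) (hg : Tendsto g atTop atTop) :
    ∃ G : ℕ → ℕ, Tendsto G atTop atTop ∧ (∀ k, G k ≤ k) ∧ Monotone G ∧
      ∀ᶠ k : ℕ in atTop, ∀ N : ℕ, 4 ^ k ≤ N → (G k : ℝ) ≤ g N := by
  classical
  let P : ℕ → ℕ → Prop := fun k m => ∀ N : ℕ, 4 ^ k ≤ N → (m : ℝ) ≤ g N
  have hP : ∀ m : ℕ, ∀ᶠ k : ℕ in atTop, P k m := by
    intro m
    obtain ⟨N₀, hN₀⟩ := eventually_atTop.1 (hg.eventually_ge_atTop (m : ℝ))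
    filter_upwards [eventually_ge_atTop N₀] with k hk N hN
    exact hN₀ N (hk.trans ((Nat.lt_pow_self (by norm_num)).le.trans hN))
  refine ⟨fun k => Nat.findGreatest (P k) k, ?_, fun k => Nat.findGreatest_le k, ?_, ?_⟩
  · rw [tendsto_atTop]
    intro m
    filter_upwards [hP m, eventually_ge_atTop m] with k hk hkm
    exact Nat.le_findGreatest hkm hk
  · intro k l hkl
    refine Nat.findGreatest_mono (fun m hm => ?_) hkl
    intro N hN
    exact hm N ((Nat.pow_le_pow_right (by norm_num) hkl).trans hN)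
  · filter_upwards [hP 0] with k hk
    exact Nat.findGreatest_spec (Nat.zero_le k) hk

end Pool.Agent.H33.TS
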