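import Pool.Agent.H33.TS.Diag
import Pool.Agent.H33.TS.Basic
import Pool.Agent.H33.TS.Block1

/-!
# The first test set
-/

set_option autoImplicit false

namespace Pool.Agent.H33.TS

open Filter

theorem two_pow_log_le (N : ℕ) (hN : 1 ≤ N) : (2 : ℝ) ^ (Nat.log 4 N) ≤ √N := by
  apply Real.le_sqrt_of_sq_le
  have h1 : 4 ^ (Nat.log 4 N) ≤ N := Nat.pow_log_le_self 4 (by omega)
  have h2 : ((4 : ℝ)) ^ (Nat.log 4 N) ≤ N := by exact_mod_cast h1
  calc ((2 : ℝ) ^ (Nat.log 4 N)) ^ 2 = 4 ^ (Nat.log 4 N) := by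
        rw [← pow_mul, mul_comm, pow_mul]
        norm_num
    _ ≤ N := h2

theorem sqrt_le_two_pow_log (N : ℕ) : √(N : ℝ) ≤ 2 ^ (Nat.log 4 N + 1) := by
  rw [Real.sqrt_le_left (by positivity)]
  have h1 : N < 4 ^ (Nat.log 4 N + 1) := Nat.lt_pow_succ_log_self (by norm_num) N
  have h2 : (N : ℝ) ≤ 4 ^ (Nat.log 4 N + 1) := by exact_mod_cast h1.le
  calc (N : ℝ) ≤ 4 ^ (Nat.log 4 N + 1) := h2
    _ = (2 ^ (Nat.log 4 N + 1)) ^ 2 := by
        rw [← pow_mul, mul_comm (Nat.log 4 N + 1) 2, pow_mul]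
        norm_num

theorem count_le_sum {T : ℕ → Finset ℕ} {s : ℕ → ℕ}
    (hT : ∀ k, (T k).card ≤ s k ∧ ∀ n ∈ T k, 4 ^ k ≤ n ∧ n < 4 ^ (k + 1)) (N : ℕ) :
    count {n | ∃ k, n ∈ T k} N ≤ ∑ k ∈ Finset.range (Nat.log 4 N + 1), s k := by
  classical
  have h1 : ({n | ∃ k, n ∈ T k} ∩ Set.Icc 1 N : Set ℕ) ⊆
      (((Finset.range (Nat.log 4 N + 1)).biUnion T : Finset ℕ) : Set ℕ) := by
    rintro n ⟨⟨k, hk⟩, hn1, hn2⟩
    rw [Finset.mem_coe, Finset.mem_biUnion]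
    refine ⟨k, ?_, hk⟩
    rw [Finset.mem_range]
    have h2 := ((hT k).2 n hk).1
    have h3 : k ≤ Nat.log 4 N := Nat.le_log_of_pow_le (by norm_num) (h2.trans hn2)
    omega
  unfold count
  refine (Set.ncard_le_ncard h1 (Finset.finite_toSet _)).trans ?_
  rw [Set.ncard_coe_finset]
  exact Finset.card_biUnion_le.trans (Finset.sum_le_sum fun k _ => (hT k).1)

theorem sum_small (s : ℕ → ℕ) (h : ∀ ε : ℝ, 0 < ε → ∀ᶠ k : ℕ in atTop, (s k : ℝ) ≤ ε * 2 ^ k)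
    (ε : ℝ) (hε : 0 < ε) : ∀ᶠ N : ℕ in atTop,
      ((∑ k ∈ Finset.range (Nat.log 4 N + 1), s k : ℕ) : ℝ) ≤ ε * √N := by
  obtain ⟨k₁, hk₁⟩ := eventually_atTop.1 (h (ε / 4) (by positivity))
  set M : ℝ := ∑ k ∈ Finset.range k₁, (s k : ℝ) with hM
  have hlim : Tendsto (fun N : ℕ => √(N : ℝ)) atTop atTop :=
    Real.tendsto_sqrt_atTop.comp tendsto_natCast_atTop_atTop
  filter_upwards [hlim.eventually_ge_atTop (2 * M / ε), eventually_ge_atTop 1] with N hN hN1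
  set L := Nat.log 4 N with hL
  have h1 : ∀ k, (s k : ℝ) ≤ (if k < k₁ then (s k : ℝ) else 0) + ε / 4 * 2 ^ k := by
    intro k
    split_ifs with hk
    · have : (0 : ℝ) ≤ ε / 4 * 2 ^ k := by positivity
      linarith
    · rw [zero_add]
      exact hk₁ k (by omega)
  have h2 : ∑ k ∈ Finset.range (L + 1), (if k < k₁ then (s k : ℝ) else 0) ≤ M := by
    rw [← Finset.sum_filter, hM]
    refine Finset.sum_le_sum_of_subset_of_nonneg ?_ fun _ _ _ => by positivity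
    intro k hk
    rw [Finset.mem_range]
    exact (Finset.mem_filter.1 hk).2
  have h3 : ∑ k ∈ Finset.range (L + 1), ε / 4 * (2 : ℝ) ^ k ≤ ε / 2 * √N := by
    rw [← Finset.mul_sum]
    have h4 : ∑ k ∈ Finset.range (L + 1), (2 : ℝ) ^ k ≤ 2 * 2 ^ L := by
      rw [geom_sum_eq (by norm_num)]
      have : (2 : ℝ) ^ (L + 1) = 2 * 2 ^ L := by ring
      rw [this]
      norm_num
    have h5 := two_pow_log_le N hN1
    rw [← hL] at h5
    nlinarith
  have h6 : M ≤ ε / 2 * √N := by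
    rw [div_le_iff₀ hε] at hN
    linarith
  push_cast
  calc ∑ k ∈ Finset.range (L + 1), (s k : ℝ)
      ≤ ∑ k ∈ Finset.range (L + 1), ((if k < k₁ then (s k : ℝ) else 0) + ε / 4 * 2 ^ k) :=
        Finset.sum_le_sum fun k _ => h1 k
    _ = ∑ k ∈ Finset.range (L + 1), (if k < k₁ then (s k : ℝ) else 0) +
        ∑ k ∈ Finset.range (L + 1), ε / 4 * (2 : ℝ) ^ k := Finset.sum_add_distrib
    _ ≤ ε / 2 * √N + ε / 2 * √N := add_le_add (h2.trans h6) h3
    _ = ε * √N := by ring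

theorem count_inter_le (A : Set ℕ) (M N : ℕ) (h : M ≤ N) :
    (A ∩ Set.Iic M).ncard ≤ count A N + 1 := by
  unfold count
  have h4 : A ∩ Set.Iic M ⊆ insert 0 (A ∩ Set.Icc 1 N) := by
    rintro x ⟨hx, hx2⟩
    rcases Nat.eq_zero_or_pos x with h5 | h5
    · exact Or.inl h5
    · exact Or.inr ⟨hx, h5, (Set.mem_Iic.1 hx2).trans h⟩
  have hfin : (A ∩ Set.Icc 1 N).Finite := (Set.finite_Icc 1 N).subset Set.inter_subset_right
  exact (Set.ncard_le_ncard h4 (hfin.insert 0)).trans (Set.ncard_insert_le _ _)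

theorem part1 (g : ℕ → ℝ) (hg : Tendsto g atTop atTop) :
    ∃ S : Set ℕ, (∀ ε : ℝ, 0 < ε → ∀ᶠ N : ℕ in atTop, (count S N : ℝ) ≤ ε * √N) ∧
      ∀ A : Set ℕ, (∃ K, ∀ n, rep A n ≤ K) → Covers A S →
        ∀ᶠ N : ℕ in atTop, √N / g N ≤ 16 * (count A N : ℝ) := by
  obtain ⟨G, hG, hG1, -, hGg⟩ := exists_G g hg
  set s : ℕ → ℕ := fun k => 2 ^ k / G k + 1 with hs
  obtain ⟨T, hT, hT2⟩ := diag s (fun k _ A => s k ≤ 2 * (A ∩ Set.Iic (4 ^ (k + 1))).ncard)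
    (fun _ _ _ _ _ h => h) (fun K => block1 K G hG fun k => (hG1 k).trans (Nat.le_succ k))
  have hss : ∀ ε : ℝ, 0 < ε → ∀ᶠ k : ℕ in atTop, (s k : ℝ) ≤ ε * 2 ^ k := by
    intro ε hε
    obtain ⟨m, hm⟩ := exists_nat_gt (2 / ε)
    have hm0 : (0 : ℝ) < m := lt_trans (by positivity) hm
    have h2 : Tendsto (fun k : ℕ => (2 : ℝ) ^ k) atTop atTop :=
      tendsto_pow_atTop_atTop_of_one_lt (by norm_num)
    filter_upwards [hG.eventually_ge_atTop m, h2.eventually_ge_atTop (2 / ε)] with k hk hk2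
    have h3 : (G k : ℝ) ≥ m := by exact_mod_cast hk
    have h4 : ((2 ^ k / G k : ℕ) : ℝ) ≤ (2 : ℝ) ^ k / G k := by
      have := @Nat.cast_div_le ℝ _ _ _ (2 ^ k) (G k)
      push_cast at this
      exact this
    have h5 : (2 : ℝ) ^ k / G k ≤ ε / 2 * 2 ^ k := by
      rw [div_le_iff₀ (lt_of_lt_of_le hm0 h3)]
      rw [div_lt_iff₀ hε] at hm
      have h6 : (1 : ℝ) ≤ ε / 2 * G k := by nlinarith
      have h7 : (0 : ℝ) < 2 ^ k := by positivity
      nlinarith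
    have h6 : (1 : ℝ) ≤ ε / 2 * 2 ^ k := by
      rw [div_le_iff₀ hε] at hk2
      linarith
    rw [hs]
    push_cast
    linarith
  refine ⟨{n | ∃ k, n ∈ T k}, fun ε hε => ?_, ?_⟩
  · filter_upwards [sum_small s hss ε hε] with N hN
    exact le_trans (by exact_mod_cast count_le_sum hT N) hN
  · rintro A ⟨K, hK⟩ ⟨n₀, hn₀⟩
    have h4 : Tendsto (fun k : ℕ => 4 ^ k) atTop atTop :=
      tendsto_pow_atTop_atTop_of_one_lt (by norm_num)
    have hev : ∀ᶠ k : ℕ in atTop, (s k ≤ 2 * (A ∩ Set.Iic (4 ^ (k + 1))).ncard) ∧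
        (∃ a ∈ A, 1 ≤ a ∧ a ≤ 4 ^ (k + 1)) ∧ (∀ N : ℕ, 4 ^ k ≤ N → (G k : ℝ) ≤ g N) ∧
          1 ≤ G k := by
      filter_upwards [hT2 K, h4.eventually_ge_atTop n₀, hGg, hG.eventually_ge_atTop 1,
        hT2 0] with k hk hkn hkg hk1 hk0
      have hcov : ∀ n ∈ T k, 1 ≤ rep A n := fun n hn =>
        hn₀ n ⟨k, hn⟩ (hkn.trans ((hT k).2 n hn).1)
      refine ⟨hk A hK hcov, ?_, hkg, hk1⟩
      have hne : (T k).Nonempty := by
        by_contra hcon
        rw [Finset.not_nonempty_iff_eq_empty] at hcon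
        have h5 := hk0 ∅ (fun n => by simp [rep]) (by rw [hcon]; simp)
        simp [hs] at h5
      obtain ⟨n, hn⟩ := hne
      have h6 := (hT k).2 n hn
      obtain ⟨a, ha, b, hb, hab⟩ := one_le_rep.1 (hcov n hn)
      have h7 : 1 ≤ n := (Nat.one_le_pow _ _ (by norm_num)).trans h6.1
      rcases Nat.eq_zero_or_pos a with h8 | h8
      · exact ⟨b, hb, by omega, by omega⟩
      · exact ⟨a, ha, h8, by omega⟩
    obtain ⟨k₀, hk₀⟩ := eventually_atTop.1 hev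
    filter_upwards [eventually_ge_atTop (4 ^ (k₀ + 2))] with N hN
    have hN1 : 1 ≤ N := (Nat.one_le_pow _ _ (by norm_num)).trans hN
    have hL : k₀ + 2 ≤ Nat.log 4 N := Nat.le_log_of_pow_le (by norm_num) hN
    obtain ⟨k, hk⟩ : ∃ k, Nat.log 4 N = k + 1 := ⟨Nat.log 4 N - 1, by omega⟩
    have hpow : 4 ^ (k + 1) ≤ N := hk ▸ Nat.pow_log_le_self 4 (by omega)
    obtain ⟨h5, ⟨a, ha, ha1, ha2⟩, h7, h8⟩ := hk₀ k (by omega)
    have h9 : (G k : ℝ) ≤ g N :=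
      h7 N (le_trans (Nat.pow_le_pow_right (by norm_num) (Nat.le_succ k)) hpow)
    have hG0 : (0 : ℝ) < G k := by exact_mod_cast h8
    have h10 : (1 : ℝ) ≤ count A N := by
      have : 1 ≤ count A N := by
        unfold count
        rw [Nat.one_le_iff_ne_zero, ← Nat.pos_iff_ne_zero,
          Set.ncard_pos ((Set.finite_Icc 1 N).subset Set.inter_subset_right)]
        exact ⟨a, ha, ha1, ha2.trans hpow⟩
      exact_mod_cast this
    have h11 : (2 : ℝ) ^ k / G k ≤ s k := by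
      rw [div_le_iff₀ hG0]
      have h12 : 2 ^ k < (2 ^ k / G k + 1) * G k := by
        have := Nat.lt_div_mul_add (a := 2 ^ k) (b := G k) h8
        nlinarith
      have h13 : ((2 : ℝ)) ^ k ≤ ((2 ^ k / G k + 1 : ℕ) : ℝ) * G k := by exact_mod_cast h12.le
      exact h13
    have h14 : (s k : ℝ) ≤ 2 * (count A N + 1) := by
      have h15 := h5.trans (Nat.mul_le_mul_left 2 (count_inter_le A _ N hpow))
      exact_mod_cast h15
    have h16 : √(N : ℝ) ≤ 4 * 2 ^ k := by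
      have := sqrt_le_two_pow_log N
      rw [hk] at this
      calc √(N : ℝ) ≤ 2 ^ (k + 1 + 1) := this
        _ = 4 * 2 ^ k := by ring
    calc √(N : ℝ) / g N ≤ √(N : ℝ) / G k :=
          div_le_div_of_nonneg_left (Real.sqrt_nonneg _) hG0 h9
      _ ≤ 4 * 2 ^ k / G k := div_le_div_of_nonneg_right h16 hG0.le
      _ = 4 * (2 ^ k / G k) := by ring
      _ ≤ 4 * (2 * (count A N + 1)) := by linarith
      _ ≤ 16 * count A N := by linarith

end Pool.Agent.H33.TS
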