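import Pool.Agent.H33.TS.Part1
import Pool.Agent.H33.TS.Block2
import Pool.Graph.R_seed8.Results.MP_12a1af_nt.EightRepresentations

/-!
# The second test set
-/

set_option autoImplicit false

namespace Pool.Agent.H33.TS

open Filter

/-- the uncovered numbers of a block -/
noncomputable def holes (A : Set ℕ) (k : ℕ) : ℕ :=
  {n : ℕ | 4 ^ k ≤ n ∧ n < 4 ^ (k + 1) ∧ rep A n = 0}.ncard

theorem sum_mono (H : ℕ → ℕ) (hH : Monotone H) (L : ℕ) :
    ∑ k ∈ Finset.range (L + 1), 2 ^ k * H k ≤ 2 * 2 ^ L * H L := by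
  calc ∑ k ∈ Finset.range (L + 1), 2 ^ k * H k
      ≤ ∑ k ∈ Finset.range (L + 1), 2 ^ k * H L :=
        Finset.sum_le_sum fun k hk => Nat.mul_le_mul_left _
          (hH (by have := Finset.mem_range.1 hk; omega))
    _ = (∑ k ∈ Finset.range (L + 1), 2 ^ k) * H L := by rw [Finset.sum_mul]
    _ ≤ 2 * 2 ^ L * H L := by
        refine Nat.mul_le_mul_right _ ?_
        have h1 := Nat.geomSum_lt (m := 2) (n := L + 1) (s := Finset.range (L + 1)) le_rfl
          (fun k hk => Finset.mem_range.1 hk)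
        have h2 : 2 ^ (L + 1) = 2 * 2 ^ L := by ring
        omega

/-- the holes up to `N` -/
theorem holes_sum (A : Set ℕ) (N : ℕ) :
    {n : ℕ | 1 ≤ n ∧ n ≤ N ∧ rep A n = 0}.ncard ≤
      ∑ k ∈ Finset.range (Nat.log 4 N + 1), holes A k := by
  classical
  have hfin : ∀ k, {n : ℕ | 4 ^ k ≤ n ∧ n < 4 ^ (k + 1) ∧ rep A n = 0}.Finite := fun k =>
    (Set.finite_Iio (4 ^ (k + 1))).subset fun n hn => hn.2.1
  have h1 : {n : ℕ | 1 ≤ n ∧ n ≤ N ∧ rep A n = 0} ⊆
      (((Finset.range (Nat.log 4 N + 1)).biUnion fun k => (hfin k).toFinset : Finset ℕ) :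
        Set ℕ) := by
    rintro n ⟨hn1, hn2, hn3⟩
    rw [Finset.mem_coe, Finset.mem_biUnion]
    refine ⟨Nat.log 4 n, ?_, ?_⟩
    · rw [Finset.mem_range]
      have := Nat.log_mono_right (b := 4) hn2
      omega
    · rw [Set.Finite.mem_toFinset]
      exact ⟨Nat.pow_log_le_self 4 (by omega), Nat.lt_pow_succ_log_self (by norm_num) n, hn3⟩
  refine (Set.ncard_le_ncard h1 (Finset.finite_toSet _)).trans ?_
  rw [Set.ncard_coe_finset]
  refine Finset.card_biUnion_le.trans (Finset.sum_le_sum fun k _ => ?_)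
  unfold holes
  rw [Set.ncard_eq_toFinset_card _ (hfin k)]

theorem holes_density {A : Set ℕ} (h : ∀ K : ℕ, ∀ᶠ k : ℕ in atTop, K * holes A k ≤ 4 ^ k)
    (ε : ℝ) (hε : 0 < ε) : ∀ᶠ N : ℕ in atTop,
      (({n : ℕ | 1 ≤ n ∧ n ≤ N ∧ rep A n = 0}.ncard : ℕ) : ℝ) ≤ ε * N := by
  obtain ⟨K, hK⟩ := exists_nat_gt (4 / ε)
  have hK0 : (0 : ℝ) < K := lt_trans (by positivity) hK
  obtain ⟨k₁, hk₁⟩ := eventually_atTop.1 (h K)
  set M : ℝ := ∑ k ∈ Finset.range k₁, (holes A k : ℝ) with hM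
  have hlim : Tendsto (fun N : ℕ => (N : ℝ)) atTop atTop := tendsto_natCast_atTop_atTop
  filter_upwards [hlim.eventually_ge_atTop (2 * M / ε), eventually_ge_atTop 1] with N hN hN1
  set L := Nat.log 4 N with hL
  have h1 : ∀ k, (holes A k : ℝ) ≤ (if k < k₁ then (holes A k : ℝ) else 0) + ε / 4 * 4 ^ k := by
    intro k
    split_ifs with hk
    · have : (0 : ℝ) ≤ ε / 4 * 4 ^ k := by positivity
      linarith
    · rw [zero_add]
      have h2 : (K : ℝ) * holes A k ≤ 4 ^ k := by exact_mod_cast hk₁ k (by omega)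
      rw [div_lt_iff₀ hε] at hK
      have h3 : (0 : ℝ) ≤ holes A k := by positivity
      nlinarith
  have h2 : ∑ k ∈ Finset.range (L + 1), (if k < k₁ then (holes A k : ℝ) else 0) ≤ M := by
    rw [← Finset.sum_filter, hM]
    refine Finset.sum_le_sum_of_subset_of_nonneg ?_ fun _ _ _ => by positivity
    intro k hk
    rw [Finset.mem_range]
    exact (Finset.mem_filter.1 hk).2
  have h3 : ∑ k ∈ Finset.range (L + 1), ε / 4 * (4 : ℝ) ^ k ≤ ε / 2 * N := by
    rw [← Finset.mul_sum]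
    have h4 : ∑ k ∈ Finset.range (L + 1), (4 : ℝ) ^ k ≤ 2 * 4 ^ L := by
      rw [geom_sum_eq (by norm_num)]
      have : (4 : ℝ) ^ (L + 1) = 4 * 4 ^ L := by ring
      rw [this]
      have : (0 : ℝ) < 4 ^ L := by positivity
      rw [div_le_iff₀ (by norm_num)]
      linarith
    have h5 : (4 : ℝ) ^ L ≤ N := by exact_mod_cast Nat.pow_log_le_self 4 (by omega : N ≠ 0)
    nlinarith
  have h6 : M ≤ ε / 2 * N := by
    rw [div_le_iff₀ hε] at hN
    linarith
  have h7 : (({n : ℕ | 1 ≤ n ∧ n ≤ N ∧ rep A n = 0}.ncard : ℕ) : ℝ) ≤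
      ∑ k ∈ Finset.range (L + 1), (holes A k : ℝ) := by exact_mod_cast holes_sum A N
  calc (({n : ℕ | 1 ≤ n ∧ n ≤ N ∧ rep A n = 0}.ncard : ℕ) : ℝ)
      ≤ ∑ k ∈ Finset.range (L + 1), (holes A k : ℝ) := h7
    _ ≤ ∑ k ∈ Finset.range (L + 1), ((if k < k₁ then (holes A k : ℝ) else 0) + ε / 4 * 4 ^ k) :=
        Finset.sum_le_sum fun k _ => h1 k
    _ = ∑ k ∈ Finset.range (L + 1), (if k < k₁ then (holes A k : ℝ) else 0) +
        ∑ k ∈ Finset.range (L + 1), ε / 4 * (4 : ℝ) ^ k := Finset.sum_add_distrib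
    _ ≤ ε / 2 * N + ε / 2 * N := add_le_add (h2.trans h6) h3
    _ = ε * N := by ring

theorem sum_biUnion_le (s : Finset ℕ) (t : ℕ → Finset ℕ) (f : ℕ → ℝ) (hf : ∀ n, 0 ≤ f n) :
    ∑ n ∈ s.biUnion t, f n ≤ ∑ i ∈ s, ∑ n ∈ t i, f n := by
  classical
  induction s using Finset.induction_on with
  | empty => simp
  | insert a s ha ih =>
      rw [Finset.biUnion_insert, Finset.sum_insert ha]
      have h1 := Finset.sum_union_inter (s₁ := t a) (s₂ := s.biUnion t) (f := f)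
      have h2 : 0 ≤ ∑ n ∈ t a ∩ s.biUnion t, f n := Finset.sum_nonneg fun n _ => hf n
      linarith

/-- the harmonic sum over the holes -/
theorem holes_harmonic {A : Set ℕ} (h : ∀ K : ℕ, ∀ᶠ k : ℕ in atTop, K * holes A k ≤ 4 ^ k)
    (ε : ℝ) (hε : 0 < ε) : ∀ᶠ N : ℕ in atTop,
      ∑ n ∈ (Finset.Icc 1 N).filter (fun n => rep A n = 0), 1 / (n : ℝ) ≤ ε * Real.log N := by
  classical
  have hlog4 : 1 ≤ Real.log 4 := by
    rw [Real.le_log_iff_exp_le (by norm_num)]
    have := Real.exp_one_lt_d9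
    linarith
  obtain ⟨K, hK⟩ := exists_nat_gt (4 / ε)
  have hK0 : (0 : ℝ) < K := lt_trans (by positivity) hK
  obtain ⟨k₁, hk₁⟩ := eventually_atTop.1 (h K)
  have hfin : ∀ k, {n : ℕ | 4 ^ k ≤ n ∧ n < 4 ^ (k + 1) ∧ rep A n = 0}.Finite := fun k =>
    (Set.finite_Iio (4 ^ (k + 1))).subset fun n hn => hn.2.1
  have hlim : Tendsto (fun N : ℕ => Real.log (N : ℝ)) atTop atTop :=
    Real.tendsto_log_atTop.comp tendsto_natCast_atTop_atTop
  filter_upwards [hlim.eventually_ge_atTop (2 * (3 * k₁ + 1) / ε),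
    hlim.eventually_ge_atTop 1, eventually_ge_atTop 1] with N hN hNl hN1
  set L := Nat.log 4 N with hL
  have h1 : (Finset.Icc 1 N).filter (fun n => rep A n = 0) ⊆
      (Finset.range (L + 1)).biUnion fun k => (hfin k).toFinset := by
    intro n hn
    rw [Finset.mem_filter, Finset.mem_Icc] at hn
    obtain ⟨⟨hn1, hn2⟩, hn3⟩ := hn
    rw [Finset.mem_biUnion]
    refine ⟨Nat.log 4 n, ?_, ?_⟩
    · rw [Finset.mem_range]
      have := Nat.log_mono_right (b := 4) hn2
      omega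
    · rw [Set.Finite.mem_toFinset]
      exact ⟨Nat.pow_log_le_self 4 (by omega), Nat.lt_pow_succ_log_self (by norm_num) n, hn3⟩
  have h2 : ∀ k, ∑ n ∈ (hfin k).toFinset, 1 / (n : ℝ) ≤ (holes A k : ℝ) / 4 ^ k := by
    intro k
    have h3 : ∀ n ∈ (hfin k).toFinset, 1 / (n : ℝ) ≤ 1 / 4 ^ k := by
      intro n hn
      rw [Set.Finite.mem_toFinset] at hn
      have h4 : ((4 : ℝ)) ^ k ≤ n := by exact_mod_cast hn.1
      exact one_div_le_one_div_of_le (by positivity) h4
    calc ∑ n ∈ (hfin k).toFinset, 1 / (n : ℝ) ≤ ∑ n ∈ (hfin k).toFinset, 1 / (4 : ℝ) ^ k :=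
          Finset.sum_le_sum h3
      _ = (holes A k : ℝ) / 4 ^ k := by
          rw [Finset.sum_const, nsmul_eq_mul]
          unfold holes
          rw [Set.ncard_eq_toFinset_card _ (hfin k)]
          ring
  have h3 : ∀ k, (holes A k : ℝ) / 4 ^ k ≤ (if k < k₁ then 3 else 0) + ε / 4 := by
    intro k
    have h40 : (0 : ℝ) < 4 ^ k := by positivity
    split_ifs with hk
    · have h5 : holes A k ≤ 3 * 4 ^ k := by
        unfold holes
        have h6 : {n : ℕ | 4 ^ k ≤ n ∧ n < 4 ^ (k + 1) ∧ rep A n = 0} ⊆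
            ((Finset.Ico (4 ^ k) (4 ^ (k + 1)) : Finset ℕ) : Set ℕ) := by
          rintro n ⟨h7, h8, -⟩
          exact Finset.mem_coe.2 (Finset.mem_Ico.2 ⟨h7, h8⟩)
        refine (Set.ncard_le_ncard h6 (Finset.finite_toSet _)).trans ?_
        rw [Set.ncard_coe_finset, Nat.card_Ico, pow_succ]
        omega
      have h6 : (holes A k : ℝ) ≤ 3 * 4 ^ k := by exact_mod_cast h5
      rw [div_le_iff₀ h40]
      nlinarith
    · rw [zero_add, div_le_iff₀ h40]
      have h2 : (K : ℝ) * holes A k ≤ 4 ^ k := by exact_mod_cast hk₁ k (by omega)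
      rw [div_lt_iff₀ hε] at hK
      have h3 : (0 : ℝ) ≤ holes A k := by positivity
      nlinarith
  have h4 : ∑ k ∈ Finset.range (L + 1), (if k < k₁ then (3 : ℝ) else 0) ≤ 3 * k₁ := by
    rw [← Finset.sum_filter]
    calc ∑ k ∈ (Finset.range (L + 1)).filter (fun k => k < k₁), (3 : ℝ)
        ≤ ∑ k ∈ Finset.range k₁, (3 : ℝ) := by
          refine Finset.sum_le_sum_of_subset_of_nonneg ?_ fun _ _ _ => by positivity
          intro k hk
          rw [Finset.mem_range]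
          exact (Finset.mem_filter.1 hk).2
      _ = 3 * k₁ := by
          rw [Finset.sum_const, nsmul_eq_mul, Finset.card_range]
          ring
  have h5 : (L : ℝ) ≤ Real.log N := by
    have h6 : (4 : ℝ) ^ L ≤ N := by exact_mod_cast Nat.pow_log_le_self 4 (by omega : N ≠ 0)
    have h7 : Real.log ((4 : ℝ) ^ L) ≤ Real.log N := Real.log_le_log (by positivity) h6
    rw [Real.log_pow] at h7
    have h8 : (0 : ℝ) ≤ L := by positivity
    nlinarith
  rw [div_le_iff₀ hε] at hN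
  calc ∑ n ∈ (Finset.Icc 1 N).filter (fun n => rep A n = 0), 1 / (n : ℝ)
      ≤ ∑ n ∈ (Finset.range (L + 1)).biUnion fun k => (hfin k).toFinset, 1 / (n : ℝ) :=
        Finset.sum_le_sum_of_subset_of_nonneg h1 fun _ _ _ => by positivity
    _ ≤ ∑ k ∈ Finset.range (L + 1), ∑ n ∈ (hfin k).toFinset, 1 / (n : ℝ) :=
        sum_biUnion_le _ _ _ fun _ => by positivity
    _ ≤ ∑ k ∈ Finset.range (L + 1), ((if k < k₁ then (3 : ℝ) else 0) + ε / 4) :=
        Finset.sum_le_sum fun k _ => (h2 k).trans (h3 k)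
    _ = ∑ k ∈ Finset.range (L + 1), (if k < k₁ then (3 : ℝ) else 0) + (L + 1) * (ε / 4) := by
        rw [Finset.sum_add_distrib, Finset.sum_const, nsmul_eq_mul, Finset.card_range]
        push_cast
        ring
    _ ≤ 3 * k₁ + (Real.log N + 1) * (ε / 4) := by
        refine add_le_add h4 (mul_le_mul_of_nonneg_right (by linarith) (by positivity))
    _ ≤ ε * Real.log N := by
        have h10 : ε * 1 ≤ ε * Real.log N := mul_le_mul_of_nonneg_left hNl hε.le
        nlinarith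

theorem part2 (h : ℕ → ℝ) (hh : Tendsto h atTop atTop) :
    ∃ S : Set ℕ, (∀ᶠ N : ℕ in atTop, (count S N : ℝ) ≤ h N * √N) ∧
      ∀ A : Set ℕ, (∃ K, ∀ n, rep A n ≤ K) → Covers A S →
        ∀ K : ℕ, ∀ᶠ k : ℕ in atTop, K * holes A k ≤ 4 ^ k := by
  have hh2 : Tendsto (fun N : ℕ => h N / 2) atTop atTop :=
    hh.atTop_div_const (by norm_num)
  obtain ⟨H, hH, -, hHm, hHh⟩ := exists_G (fun N => h N / 2) hh2
  obtain ⟨T, hT, hT2⟩ := diag (fun k => 2 ^ k * H k) (fun k K A => K * holes A k ≤ 4 ^ k)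
    (fun k K K' A hK hle => (Nat.mul_le_mul_right _ hK).trans hle) (by
      intro K
      rcases Nat.eq_zero_or_pos K with hK | hK
      · subst hK
        filter_upwards [block2 1 le_rfl H hH] with k hk
        obtain ⟨f, hf, -⟩ := hk
        exact ⟨f, hf, fun A _ _ => by simp⟩
      · exact block2 K hK H hH)
  refine ⟨{n | ∃ k, n ∈ T k}, ?_, ?_⟩
  · obtain ⟨k₀, hk₀⟩ := eventually_atTop.1 hHh
    filter_upwards [eventually_ge_atTop (4 ^ k₀), eventually_ge_atTop 1] with N hN hN1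
    have hL : k₀ ≤ Nat.log 4 N := Nat.le_log_of_pow_le (by norm_num) hN
    have h1 := count_le_sum hT N
    have h2 := h1.trans (sum_mono H hHm (Nat.log 4 N))
    have h3 : (count {n | ∃ k, n ∈ T k} N : ℝ) ≤
        2 * 2 ^ (Nat.log 4 N) * H (Nat.log 4 N) := by exact_mod_cast h2
    have h4 := hk₀ _ hL N (Nat.pow_log_le_self 4 (by omega))
    have h5 := two_pow_log_le N hN1
    have h6 : (0 : ℝ) ≤ H (Nat.log 4 N) := by positivity
    have h7 : (0 : ℝ) ≤ √N := Real.sqrt_nonneg _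
    calc (count {n | ∃ k, n ∈ T k} N : ℝ) ≤ 2 * 2 ^ (Nat.log 4 N) * H (Nat.log 4 N) := h3
      _ ≤ 2 * √N * H (Nat.log 4 N) :=
          mul_le_mul_of_nonneg_right (mul_le_mul_of_nonneg_left h5 (by norm_num)) h6
      _ ≤ 2 * √N * (h N / 2) := mul_le_mul_of_nonneg_left h4 (by positivity)
      _ = h N * √N := by ring
  · rintro A ⟨K₀, hK₀⟩ ⟨n₀, hn₀⟩ K
    have h4 : Tendsto (fun k : ℕ => 4 ^ k) atTop atTop :=
      tendsto_pow_atTop_atTop_of_one_lt (by norm_num)
    filter_upwards [hT2 (max K K₀), h4.eventually_ge_atTop n₀] with k hk hkn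
    exact (Nat.mul_le_mul_right _ (le_max_left K K₀)).trans
      (hk A (fun n => (hK₀ n).trans (le_max_right K K₀)) fun n hn =>
        hn₀ n ⟨k, hn⟩ (hkn.trans ((hT k).2 n hn).1))

/-- sets with few holes are thick -/
theorem thick_of_holes {A : Set ℕ} (h : ∀ ε : ℝ, 0 < ε → ∀ᶠ N : ℕ in atTop,
      (({n : ℕ | 1 ≤ n ∧ n ≤ N ∧ rep A n = 0}.ncard : ℕ) : ℝ) ≤ ε * N) :
    ∀ᶠ N : ℕ in atTop, √N ≤ (count A N : ℝ) := by
  classical
  have hlim : Tendsto (fun N : ℕ => √(N : ℝ)) atTop atTop :=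
    Real.tendsto_sqrt_atTop.comp tendsto_natCast_atTop_atTop
  filter_upwards [h (1 / 8) (by norm_num), hlim.eventually_ge_atTop 8] with N hN hN8
  by_contra hcon
  push Not at hcon
  set c := count A N with hc
  have hfinA : (A ∩ Set.Iic N).Finite := (Set.finite_Iic N).subset Set.inter_subset_right
  set B : Finset ℕ := hfinA.toFinset with hB
  have hBc : B.card ≤ c + 1 := by
    have h1 := count_inter_le A N N le_rfl
    rwa [Set.ncard_eq_toFinset_card _ hfinA] at h1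
  -- the covered numbers are sums of pairs `x ≤ y` in `B`
  have hfin0 : {n : ℕ | 1 ≤ n ∧ n ≤ N ∧ rep A n = 0}.Finite :=
    (Set.finite_Iic N).subset fun n hn => hn.2.1
  have h1 : (Finset.Icc 1 N) ⊆ hfin0.toFinset ∪
      ((B ×ˢ B).filter fun p => p.1 ≤ p.2).image fun p => p.1 + p.2 := by
    intro n hn
    rw [Finset.mem_Icc] at hn
    rw [Finset.mem_union]
    by_cases h0 : rep A n = 0
    · left
      rw [Set.Finite.mem_toFinset]
      exact ⟨hn.1, hn.2, h0⟩
    · right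
      obtain ⟨a, ha, b, hb, hab⟩ := one_le_rep.1 (Nat.one_le_iff_ne_zero.2 h0)
      rw [Finset.mem_image]
      have hBm : ∀ x ∈ A, x ≤ n → x ∈ B := fun x hx hxn => by
        rw [hB, Set.Finite.mem_toFinset]
        exact ⟨hx, Set.mem_Iic.2 (hxn.trans hn.2)⟩
      rcases le_total a b with hab2 | hab2
      · exact ⟨(a, b), Finset.mem_filter.2 ⟨Finset.mem_product.2
          ⟨hBm a ha (by omega), hBm b hb (by omega)⟩, hab2⟩, hab⟩
      · exact ⟨(b, a), Finset.mem_filter.2 ⟨Finset.mem_product.2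
          ⟨hBm b hb (by omega), hBm a ha (by omega)⟩, hab2⟩, by simp only; omega⟩
  have h2 : 2 * ((B ×ˢ B).filter fun p => p.1 ≤ p.2).card ≤ B.card * (B.card + 1) := by
    have h3 : ((B ×ˢ B).filter fun p => p.1 ≤ p.2).card +
        ((B ×ˢ B).filter fun p => ¬ p.1 ≤ p.2).card = B.card * B.card := by
      rw [Finset.card_filter_add_card_filter_not, Finset.card_product]
    have h4 : ((B ×ˢ B).filter fun p => p.1 ≤ p.2).card ≤
        ((B ×ˢ B).filter fun p => ¬ p.1 ≤ p.2).card + B.card := by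
      have h5 : (B ×ˢ B).filter (fun p => p.1 ≤ p.2) ⊆
          (((B ×ˢ B).filter fun p => ¬ p.1 ≤ p.2).image Prod.swap) ∪
            B.image (fun a => (a, a)) := by
        rintro ⟨a, b⟩ hp
        rw [Finset.mem_filter, Finset.mem_product] at hp
        obtain ⟨⟨ha, hb⟩, hab⟩ := hp
        simp only at ha hb hab
        rw [Finset.mem_union, Finset.mem_image, Finset.mem_image]
        rcases hab.lt_or_eq with hlt | heq
        · left
          exact ⟨(b, a), Finset.mem_filter.2 ⟨Finset.mem_product.2 ⟨hb, ha⟩,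
            not_le.2 hlt⟩, rfl⟩
        · right
          exact ⟨a, ha, by rw [heq]⟩
      refine (Finset.card_le_card h5).trans ((Finset.card_union_le _ _).trans ?_)
      exact add_le_add Finset.card_image_le Finset.card_image_le
    nlinarith
  have h3 : N ≤ ({n : ℕ | 1 ≤ n ∧ n ≤ N ∧ rep A n = 0}.ncard) +
      ((B ×ˢ B).filter fun p => p.1 ≤ p.2).card := by
    have h4 := Finset.card_le_card h1
    rw [Nat.card_Icc] at h4
    have h5 := h4.trans (Finset.card_union_le _ _)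
    have h6 := h5.trans (add_le_add le_rfl Finset.card_image_le)
    rw [Set.ncard_eq_toFinset_card _ hfin0]
    omega
  have h4 : 2 * N ≤ 2 * ({n : ℕ | 1 ≤ n ∧ n ≤ N ∧ rep A n = 0}.ncard) +
      (c + 1) * (c + 2) := by
    have h5 : B.card * (B.card + 1) ≤ (c + 1) * (c + 2) := Nat.mul_le_mul hBc (by omega)
    omega
  have h5 : (2 : ℝ) * N ≤ 2 * (({n : ℕ | 1 ≤ n ∧ n ≤ N ∧ rep A n = 0}.ncard : ℕ) : ℝ) +
      (c + 1) * (c + 2) := by exact_mod_cast h4
  have h6 : √(N : ℝ) * √(N : ℝ) = N := Real.mul_self_sqrt (by positivity)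
  have h7 : (0 : ℝ) ≤ c := by positivity
  nlinarith

end Pool.Agent.H33.TS
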