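import Pool.Agent.H33.TS.Basic

/-!
# Sidon sets whose sumset avoids a given set with `o(√N)` elements
-/

set_option autoImplicit false

namespace Pool.Agent.H33.TS

open Filter

/-- the Sidon set of Erdős and Turán -/
def et (p k : ℕ) : ℕ := 2 * p * k + k ^ 2 % p

theorem et_step {p k l : ℕ} (hp : 0 < p) (h : k < l) : et p k + p < et p l := by
  unfold et
  have h1 : k ^ 2 % p < p := Nat.mod_lt _ hp
  have h2 : 2 * p * (k + 1) ≤ 2 * p * l := Nat.mul_le_mul_left _ h
  have h3 : 2 * p * (k + 1) = 2 * p * k + 2 * p := by ring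
  omega

theorem et_lt {p k : ℕ} (hp : 0 < p) (h : k < p) : et p k < 2 * p ^ 2 := by
  unfold et
  have h1 : k ^ 2 % p < p := Nat.mod_lt _ hp
  have h2 : 2 * p * (k + 1) ≤ 2 * p * p := Nat.mul_le_mul_left _ h
  have h3 : 2 * p * (k + 1) = 2 * p * k + 2 * p := by ring
  have h4 : 2 * p * p = 2 * p ^ 2 := by ring
  omega

theorem et_sidon {p a b c d : ℕ} (hp : p.Prime) (hp2 : p ≠ 2) (ha : a < p) (_hb : b < p)
    (hc : c < p) (hd : d < p) (h : et p a + et p b = et p c + et p d) :
    (a = c ∧ b = d) ∨ (a = d ∧ b = c) := by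
  have hp0 : 0 < p := hp.pos
  have : Fact p.Prime := ⟨hp⟩
  unfold et at h
  have ha1 : a ^ 2 % p < p := Nat.mod_lt _ hp0
  have hb1 : b ^ 2 % p < p := Nat.mod_lt _ hp0
  have hc1 : c ^ 2 % p < p := Nat.mod_lt _ hp0
  have hd1 : d ^ 2 % p < p := Nat.mod_lt _ hp0
  have e1 : 2 * p * (a + b) = 2 * p * a + 2 * p * b := by ring
  have e2 : 2 * p * (c + d) = 2 * p * c + 2 * p * d := by ring
  have hsum : a + b = c + d := by
    rcases lt_trichotomy (a + b) (c + d) with h1 | h1 | h1
    · exfalso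
      have h2 : 2 * p * (a + b + 1) ≤ 2 * p * (c + d) := Nat.mul_le_mul_left _ h1
      have h3 : 2 * p * (a + b + 1) = 2 * p * (a + b) + 2 * p := by ring
      omega
    · exact h1
    · exfalso
      have h2 : 2 * p * (c + d + 1) ≤ 2 * p * (a + b) := Nat.mul_le_mul_left _ h1
      have h3 : 2 * p * (c + d + 1) = 2 * p * (c + d) + 2 * p := by ring
      omega
  have hsq : a ^ 2 % p + b ^ 2 % p = c ^ 2 % p + d ^ 2 % p := by
    have h1 : 2 * p * (a + b) = 2 * p * (c + d) := by rw [hsum]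
    omega
  have h1 : (a : ZMod p) + b = c + d := by exact_mod_cast congrArg (Nat.cast : ℕ → ZMod p) hsum
  have h2 : (a : ZMod p) ^ 2 + (b : ZMod p) ^ 2 = (c : ZMod p) ^ 2 + (d : ZMod p) ^ 2 := by
    have h3 := congrArg (Nat.cast : ℕ → ZMod p) hsq
    push_cast [ZMod.natCast_mod] at h3
    exact h3
  have h3 : (2 : ZMod p) * ((a : ZMod p) - c) * ((a : ZMod p) - d) = 0 := by
    linear_combination h2 - ((c : ZMod p) + d - a + b) * h1
  have h20 : (2 : ZMod p) ≠ 0 := by
    intro h4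
    have h5 : ((2 : ℕ) : ZMod p) = 0 := by exact_mod_cast h4
    rw [ZMod.natCast_eq_zero_iff] at h5
    exact hp2 ((Nat.prime_dvd_prime_iff_eq hp Nat.prime_two).1 h5)
  have hcast : ∀ u v : ℕ, u < p → v < p → (u : ZMod p) - v = 0 → u = v := by
    intro u v hu hv h4
    have h5 : (u : ZMod p) = v := sub_eq_zero.1 h4
    rw [ZMod.natCast_eq_natCast_iff'] at h5
    rwa [Nat.mod_eq_of_lt hu, Nat.mod_eq_of_lt hv] at h5
  rcases mul_eq_zero.1 h3 with h4 | h4
  · rcases mul_eq_zero.1 h4 with h5 | h5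
    · exact absurd h5 h20
    · left
      have h6 := hcast a c ha hc h5
      omega
  · right
    have h6 := hcast a d ha hd h4
    omega

/-- Sidon sets -/
def IsSidon (S : Set ℕ) : Prop :=
  ∀ a ∈ S, ∀ b ∈ S, ∀ c ∈ S, ∀ d ∈ S, a + b = c + d → (a = c ∧ b = d) ∨ (a = d ∧ b = c)

/-- the property kept by the induction -/
def Good (R : Set ℕ) (B : Finset ℕ) : Prop :=
  IsSidon (B : Set ℕ) ∧ (∀ a ∈ B, ∀ b ∈ B, a + b ∉ R) ∧ ∀ b ∈ B, 1 ≤ b

theorem double {α : Type} (T : Finset ℕ) (S : Finset α) (P : ℕ → α → Prop) (c : ℕ)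
    [∀ t a, Decidable (P t a)]
    (h : ∀ a ∈ S, (T.filter fun t => P t a).card ≤ c) :
    ∑ t ∈ T, (S.filter fun a => P t a).card ≤ S.card * c := by
  have h1 : ∑ t ∈ T, (S.filter fun a => P t a).card =
      ∑ a ∈ S, (T.filter fun t => P t a).card := by
    simp only [Finset.card_filter]
    exact Finset.sum_comm
  rw [h1]
  exact (Finset.sum_le_card_nsmul _ _ _ h).trans (by rw [smul_eq_mul])

theorem exists_max_sub (V : Finset ℕ) (ind : Finset ℕ → Prop) (h0 : ind ∅) :
    ∃ I ⊆ V, ind I ∧ ∀ J ⊆ V, ind J → J.card ≤ I.card := by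
  classical
  obtain ⟨I, hI, hmax⟩ := Finset.exists_max_image (V.powerset.filter ind) Finset.card
    ⟨∅, Finset.mem_filter.2 ⟨Finset.empty_mem_powerset V, h0⟩⟩
  rw [Finset.mem_filter, Finset.mem_powerset] at hI
  exact ⟨I, hI.1, hI.2, fun J hJ hJ2 =>
    hmax J (Finset.mem_filter.2 ⟨Finset.mem_powerset.2 hJ, hJ2⟩)⟩

/-- a maximal independent set -/
theorem exists_indep (V : Finset ℕ) (r : ℕ → ℕ → Prop) (hsymm : ∀ a b, r a b → r b a)
    (hloop : ∀ v ∈ V, ¬ r v v) (D : ℕ) (I₀ : Finset ℕ) (hV : V ⊆ I₀)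
    [∀ a b, Decidable (r a b)]
    (hD : ∀ v ∈ V, (I₀.filter fun l => r v l).card ≤ D) :
    ∃ I ⊆ V, (∀ a ∈ I, ∀ b ∈ I, ¬ r a b) ∧ V.card ≤ (D + 1) * I.card := by
  obtain ⟨I, hIV, hI2, hmax⟩ := exists_max_sub V (fun I => ∀ a ∈ I, ∀ b ∈ I, ¬ r a b) (by simp)
  refine ⟨I, hIV, hI2, ?_⟩
  have h1 : V ⊆ I ∪ I.biUnion fun a => I₀.filter fun l => r a l := by
    intro v hv
    by_contra hcon
    rw [Finset.mem_union, Finset.mem_biUnion, not_or] at hcon
    obtain ⟨hvI, hno⟩ := hcon
    have h2 : ∀ a ∈ I, ¬ r a v := fun a ha hr =>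
      hno ⟨a, ha, Finset.mem_filter.2 ⟨hV hv, hr⟩⟩
    have h3 := hmax (insert v I) (Finset.insert_subset hv hIV) (by
      intro a ha b hb
      rw [Finset.mem_insert] at ha hb
      rcases ha with rfl | ha <;> rcases hb with rfl | hb
      · exact hloop _ hv
      · exact fun hr => h2 b hb (hsymm _ _ hr)
      · exact h2 a ha
      · exact hI2 a ha b hb)
    rw [Finset.card_insert_of_notMem hvI] at h3
    omega
  calc V.card ≤ (I ∪ I.biUnion fun a => I₀.filter fun l => r a l).card :=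
        Finset.card_le_card h1
    _ ≤ I.card + (I.biUnion fun a => I₀.filter fun l => r a l).card := Finset.card_union_le _ _
    _ ≤ I.card + I.card * D := by
        refine Nat.add_le_add_left ?_ _
        refine Finset.card_biUnion_le.trans ?_
        exact (Finset.sum_le_card_nsmul _ _ _ fun a ha => hD a (hIV ha)).trans
          (by rw [smul_eq_mul])
    _ = (D + 1) * I.card := by ring

theorem count_mono (R : Set ℕ) {a b : ℕ} (h : a ≤ b) : count R a ≤ count R b := by
  unfold count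
  refine Set.ncard_le_ncard ?_ ((Set.finite_Icc 1 b).subset Set.inter_subset_right)
  rintro y ⟨h1, h2, h3⟩
  exact ⟨h1, h2, h3.trans h⟩

theorem exists_primes (R : Set ℕ) (c : ℝ)
    (hR : ∃ᶠ N : ℕ in atTop, (count R N : ℝ) ≤ c * √N) :
    ∃ C : ℕ, 1 ≤ C ∧ ∀ M : ℕ, ∃ p, M ≤ p ∧ p.Prime ∧ count R (14 * p ^ 2) ≤ C * p := by
  refine ⟨⌈8 * |c|⌉₊ + 1, by omega, fun M => ?_⟩
  obtain ⟨N, hN, hN1⟩ := (hR.and_eventually (eventually_ge_atTop ((8 * M + 8) ^ 2))).exists
  set s := Nat.sqrt N with hs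
  have hs1 : 8 * M + 8 ≤ s := Nat.le_sqrt'.2 hN1
  have hs2 : s ^ 2 ≤ N := Nat.sqrt_le' N
  have hs3 : N < (s + 1) ^ 2 := Nat.lt_succ_sqrt' N
  set n := s / 8 with hn
  have hn1 : 8 * n ≤ s := Nat.mul_div_le s 8
  have hn2 : s < 8 * (n + 1) := by omega
  obtain ⟨p, hp, hp1, hp2⟩ := Nat.exists_prime_lt_and_le_two_mul n (by omega)
  refine ⟨p, by omega, hp, ?_⟩
  have h1 : 14 * p ^ 2 ≤ N := by
    have h2 : p ^ 2 ≤ (2 * n) ^ 2 := Nat.pow_le_pow_left hp2 2
    have h3 : (8 * n) ^ 2 ≤ s ^ 2 := Nat.pow_le_pow_left hn1 2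
    nlinarith
  have h2 : (count R (14 * p ^ 2) : ℝ) ≤ count R N := by exact_mod_cast count_mono R h1
  have h3 : √(N : ℝ) ≤ 8 * p := by
    rw [Real.sqrt_le_left (by positivity)]
    have h4 : N ≤ (8 * p) ^ 2 := hs3.le.trans (Nat.pow_le_pow_left (by omega) 2)
    exact_mod_cast h4
  have h4 : c * √(N : ℝ) ≤ (8 * |c|) * p := by
    calc c * √(N : ℝ) ≤ |c| * √(N : ℝ) :=
          mul_le_mul_of_nonneg_right (le_abs_self c) (Real.sqrt_nonneg _)
      _ ≤ |c| * (8 * p) := mul_le_mul_of_nonneg_left h3 (abs_nonneg c)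
      _ = (8 * |c|) * p := by ring
  have h5 : 8 * |c| ≤ (⌈8 * |c|⌉₊ : ℝ) := Nat.le_ceil _
  have h6 : (count R (14 * p ^ 2) : ℝ) ≤ ((⌈8 * |c|⌉₊ + 1 : ℕ) : ℝ) * p := by
    push_cast
    have h7 : (0 : ℝ) ≤ p := by positivity
    nlinarith
  exact_mod_cast h6

theorem step (R : Set ℕ) (C : ℕ) (hC : 1 ≤ C)
    (hR : ∀ M : ℕ, ∃ p, M ≤ p ∧ p.Prime ∧ count R (14 * p ^ 2) ≤ C * p)
    (B : Finset ℕ) (hB : Good R B) (N₀ : ℕ) :
    ∃ B' : Finset ℕ, Good R B' ∧ B ⊆ B' ∧ (∀ x ∈ B', x ∉ B → N₀ < x) ∧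
      ∃ N, N₀ ≤ N ∧ √(N : ℝ) ≤ 6 * (8 * C + 1) * (count (B' : Set ℕ) N : ℝ) := by
  classical
  obtain ⟨hS, hBR, hB1⟩ := hB
  set m := max N₀ (B.sup id) + 1 with hm
  have hBm : ∀ b ∈ B, b < m := fun b hb => by
    have h1 : b ≤ B.sup id := Finset.le_sup (f := id) hb
    omega
  have hmN : N₀ < m := by omega
  obtain ⟨p, hp, hpp, hcR⟩ := hR (max (m + 3) (8 * C * (m + 1)))
  have hp0 : 0 < p := hpp.pos
  have hpm : m + 3 ≤ p := (le_max_left _ _).trans hp
  have hpw : 8 * C * (m + 1) ≤ p := (le_max_right _ _).trans hp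
  have hp2 : p ≠ 2 := by omega
  have hpp2 : p ≤ p ^ 2 := Nat.le_self_pow (by norm_num) p
  set cR := count R (14 * p ^ 2) with hcRdef
  have hRfin : (R ∩ Set.Icc 1 (14 * p ^ 2)).Finite :=
    (Set.finite_Icc 1 (14 * p ^ 2)).subset Set.inter_subset_right
  set RR : Finset ℕ := hRfin.toFinset with hRR
  have hRRc : RR.card = cR := by
    rw [hcRdef]
    unfold count
    rw [Set.ncard_eq_toFinset_card _ hRfin]
  have hRRm : ∀ n, n ∈ R → 1 ≤ n → n ≤ 14 * p ^ 2 → n ∈ RR := by
    intro n h1 h2 h3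
    rw [hRR, Set.Finite.mem_toFinset]
    exact ⟨h1, h2, h3⟩
  -- the shift
  set y : ℕ → ℕ → ℕ := fun t k => 4 * p ^ 2 + t + et p k with hy
  have hy1 : ∀ t k, 4 * p ^ 2 ≤ y t k := fun t k => by simp only [hy]; omega
  have hy2 : ∀ t < p ^ 2, ∀ k < p, y t k < 7 * p ^ 2 := fun t ht k hk => by
    have := et_lt hp0 hk
    simp only [hy]
    omega
  have hcount1 : ∀ q ∈ Finset.range p ×ˢ Finset.range p,
      ((Finset.range (p ^ 2)).filter fun t => y t q.1 + y t q.2 ∈ R).card ≤ cR := by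
    intro q hq
    rw [Finset.mem_product, Finset.mem_range, Finset.mem_range] at hq
    rw [← hRRc]
    refine Finset.card_le_card_of_injOn (fun t => y t q.1 + y t q.2) ?_ ?_
    · intro t ht
      rw [Finset.mem_coe, Finset.mem_filter, Finset.mem_range] at ht
      have h3 := hy1 t q.1
      have h4 := hy2 t ht.1 q.1 hq.1
      have h5 := hy2 t ht.1 q.2 hq.2
      exact hRRm (y t q.1 + y t q.2) ht.2 (by omega) (by omega)
    · intro t _ u _ htu
      simp only [hy] at htu
      omega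
  have hcount2 : ∀ k ∈ Finset.range p, ((Finset.range (p ^ 2)).filter fun t =>
      (∃ b ∈ B, y t k + b ∈ R) ∨ y t k + y t k ∈ R).card ≤ (m + 1) * cR := by
    intro k hk
    rw [Finset.mem_range] at hk
    have h1 : ((Finset.range (p ^ 2)).filter fun t =>
        (∃ b ∈ B, y t k + b ∈ R) ∨ y t k + y t k ∈ R) ⊆
        (B.biUnion fun b => (Finset.range (p ^ 2)).filter fun t => y t k + b ∈ R) ∪
          (Finset.range (p ^ 2)).filter fun t => y t k + y t k ∈ R := by
      intro t ht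
      rw [Finset.mem_filter] at ht
      rcases ht.2 with ⟨b, hb, hbR⟩ | h2
      · exact Finset.mem_union_left _ (Finset.mem_biUnion.2 ⟨b, hb,
          Finset.mem_filter.2 ⟨ht.1, hbR⟩⟩)
      · exact Finset.mem_union_right _ (Finset.mem_filter.2 ⟨ht.1, h2⟩)
    have h2 : ∀ b ∈ B, ((Finset.range (p ^ 2)).filter fun t => y t k + b ∈ R).card ≤ cR := by
      intro b hb
      rw [← hRRc]
      refine Finset.card_le_card_of_injOn (fun t => y t k + b) ?_ ?_
      · intro t ht
        rw [Finset.mem_coe, Finset.mem_filter, Finset.mem_range] at ht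
        have h3 := hy1 t k
        have h4 := hy2 t ht.1 k hk
        have h5 := hBm b hb
        exact hRRm (y t k + b) ht.2 (by omega) (by omega)
      · intro t _ u _ htu
        simp only [hy] at htu
        omega
    have h3 : B.card ≤ m := by
      have h4 : B ⊆ Finset.range m := fun b hb => Finset.mem_range.2 (hBm b hb)
      exact (Finset.card_le_card h4).trans (by rw [Finset.card_range])
    have h4 : (B.biUnion fun b => (Finset.range (p ^ 2)).filter fun t => y t k + b ∈ R).card ≤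
        m * cR := by
      refine Finset.card_biUnion_le.trans ((Finset.sum_le_card_nsmul _ _ _ h2).trans ?_)
      rw [smul_eq_mul]
      exact Nat.mul_le_mul_right _ h3
    have h5 := hcount1 (k, k) (by simp [hk])
    calc _ ≤ _ := Finset.card_le_card h1
      _ ≤ _ := Finset.card_union_le _ _
      _ ≤ m * cR + cR := Nat.add_le_add h4 h5
      _ = (m + 1) * cR := by ring
  have hsum1 := double (Finset.range (p ^ 2)) (Finset.range p ×ˢ Finset.range p)
    (fun t q => y t q.1 + y t q.2 ∈ R) cR hcount1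
  have hsum2 := double (Finset.range (p ^ 2)) (Finset.range p)
    (fun t k => (∃ b ∈ B, y t k + b ∈ R) ∨ y t k + y t k ∈ R) ((m + 1) * cR) hcount2
  rw [Finset.card_product, Finset.card_range] at hsum1
  rw [Finset.card_range] at hsum2
  obtain ⟨t, ht, htle⟩ : ∃ t ∈ Finset.range (p ^ 2),
      ((Finset.range p ×ˢ Finset.range p).filter fun q => y t q.1 + y t q.2 ∈ R).card +
        8 * C * ((Finset.range p).filter fun k =>
          (∃ b ∈ B, y t k + b ∈ R) ∨ y t k + y t k ∈ R).card ≤ 2 * cR := by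
    refine Finset.exists_le_of_sum_le ⟨0, Finset.mem_range.2 (by positivity)⟩ ?_
    rw [Finset.sum_add_distrib, ← Finset.mul_sum, Finset.sum_const, Finset.card_range,
      smul_eq_mul]
    have h1 : 8 * C * (p * ((m + 1) * cR)) = (8 * C * (m + 1)) * (p * cR) := by ring
    have h2 : (8 * C * (m + 1)) * (p * cR) ≤ p * (p * cR) := Nat.mul_le_mul_right _ hpw
    have h3 := Nat.mul_le_mul_left (8 * C) hsum2
    have h4 : p ^ 2 * (2 * cR) = p * p * cR + p * (p * cR) := by ring
    rw [h4]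
    exact Nat.add_le_add hsum1 (h3.trans (h1.le.trans h2))
  rw [Finset.mem_range] at ht
  set x : ℕ → ℕ := y t with hx
  have hx1 : ∀ k, 4 * p ^ 2 ≤ x k := fun k => hy1 t k
  have hx2 : ∀ k < p, x k < 7 * p ^ 2 := fun k hk => hy2 t ht k hk
  have hx3 : ∀ k l, k = l ∨ x k + p < x l ∨ x l + p < x k := fun k l => by
    rcases lt_trichotomy k l with h | h | h
    · right; left
      have := et_step hp0 h
      simp only [hx, hy]
      omega
    · exact Or.inl h
    · right; right
      have := et_step hp0 h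
      simp only [hx, hy]
      omega
  have hxinj : Function.Injective x := fun k l hkl => by
    rcases hx3 k l with h | h | h
    · exact h
    · omega
    · omega
  have hx4 : ∀ a < p, ∀ b < p, ∀ c < p, ∀ d < p, x a + x b = x c + x d →
      (a = c ∧ b = d) ∨ (a = d ∧ b = c) := by
    intro a ha b hb c hc d hd h
    refine et_sidon hpp hp2 ha hb hc hd ?_
    simp only [hx, hy] at h
    omega
  -- the bad indices
  set P : Finset (ℕ × ℕ) :=
    (Finset.range p ×ˢ Finset.range p).filter fun q => x q.1 + x q.2 ∈ R with hP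
  set Bad1 : Finset ℕ := (Finset.range p).filter fun k =>
    (∃ b ∈ B, x k + b ∈ R) ∨ x k + x k ∈ R with hBad1
  set Bad2 : Finset ℕ := (Finset.range p).filter fun k =>
    8 * C < ((Finset.range p).filter fun l => x k + x l ∈ R).card with hBad2
  have hc1 : 4 * Bad1.card ≤ p := by
    have h1 : 8 * C * Bad1.card ≤ 2 * (C * p) := by omega
    have h2 : 2 * C * (4 * Bad1.card) ≤ 2 * C * p := by
      calc 2 * C * (4 * Bad1.card) = 8 * C * Bad1.card := by ring
        _ ≤ 2 * (C * p) := h1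
        _ = 2 * C * p := by ring
    exact Nat.le_of_mul_le_mul_left h2 (by omega)
  have hPc : P.card ≤ 2 * (C * p) := by omega
  have hPs : P.card = ∑ k ∈ Finset.range p, ((Finset.range p).filter fun l =>
      x k + x l ∈ R).card := by
    rw [hP, Finset.card_filter, Finset.sum_product]
    refine Finset.sum_congr rfl fun k _ => ?_
    rw [Finset.card_filter]
  have hc2 : 4 * Bad2.card ≤ p := by
    have h1 : Bad2.card * (8 * C) ≤ P.card := by
      rw [hPs]
      calc Bad2.card * (8 * C) = ∑ _k ∈ Bad2, 8 * C := by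
            rw [Finset.sum_const, smul_eq_mul]
        _ ≤ ∑ k ∈ Bad2, ((Finset.range p).filter fun l => x k + x l ∈ R).card :=
            Finset.sum_le_sum fun k hk => (Finset.mem_filter.1 hk).2.le
        _ ≤ _ := Finset.sum_le_sum_of_subset (Finset.filter_subset _ _)
    have h2 : 2 * C * (4 * Bad2.card) ≤ 2 * C * p := by
      calc 2 * C * (4 * Bad2.card) = Bad2.card * (8 * C) := by ring
        _ ≤ 2 * (C * p) := h1.trans hPc
        _ = 2 * C * p := by ring
    exact Nat.le_of_mul_le_mul_left h2 (by omega)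
  set V : Finset ℕ := (Finset.range p) \ (Bad1 ∪ Bad2) with hV
  have hVc : p ≤ 2 * V.card := by
    have h1 : (Finset.range p).card ≤ V.card + (Bad1 ∪ Bad2).card := by
      rw [hV]
      have := Finset.card_le_card (Finset.subset_union_left (s₁ := Finset.range p)
        (s₂ := Bad1 ∪ Bad2))
      rw [← Finset.sdiff_union_self_eq_union] at this
      exact this.trans (Finset.card_union_le _ _)
    rw [Finset.card_range] at h1
    have h2 := Finset.card_union_le Bad1 Bad2
    omega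
  have hV1 : ∀ k ∈ V, k ∉ Bad1 ∧ k ∉ Bad2 := fun k hk => by
    have h1 := (Finset.mem_sdiff.1 hk).2
    rw [Finset.mem_union, not_or] at h1
    exact h1
  obtain ⟨G, hGV, hG2, hGc⟩ := exists_indep V (fun k l => x k + x l ∈ R)
    (fun a b h => by rw [add_comm]; exact h)
    (fun v hv h => (hV1 v hv).1 (Finset.mem_filter.2 ⟨(Finset.mem_sdiff.1 hv).1, Or.inr h⟩))
    (8 * C) (Finset.range p) Finset.sdiff_subset (fun v hv => by
      by_contra hcon
      push Not at hcon
      exact (hV1 v hv).2 (Finset.mem_filter.2 ⟨(Finset.mem_sdiff.1 hv).1, hcon⟩))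
  have hGp : ∀ k ∈ G, k < p := fun k hk =>
    Finset.mem_range.1 (Finset.mem_sdiff.1 (hGV hk)).1
  have hG1 : ∀ k ∈ G, ∀ b ∈ B, x k + b ∉ R := by
    intro k hk b hb hR'
    refine (hV1 k (hGV hk)).1 ?_
    exact Finset.mem_filter.2 ⟨(Finset.mem_sdiff.1 (hGV hk)).1, Or.inl ⟨b, hb, hR'⟩⟩
  refine ⟨B ∪ G.image x, ⟨?_, ?_, ?_⟩, Finset.subset_union_left, ?_, 7 * p ^ 2, by omega, ?_⟩
  · -- Sidon
    intro a ha b hb c hc d hd h
    rw [Finset.mem_coe, Finset.mem_union, Finset.mem_image] at ha hb hc hd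
    rcases ha with ha | ⟨a, ha, rfl⟩ <;> rcases hb with hb | ⟨b, hb, rfl⟩ <;>
      rcases hc with hc | ⟨c, hc, rfl⟩ <;> rcases hd with hd | ⟨d, hd, rfl⟩
    · exact hS a ha b hb c hc d hd h
    · have := hBm a ha; have := hBm b hb; have := hx1 d; omega
    · have := hBm a ha; have := hBm b hb; have := hx1 c; omega
    · have := hBm a ha; have := hBm b hb; have := hx1 c; omega
    · have := hBm c hc; have := hBm d hd; have := hx1 b; omega
    · have h1 := hBm a ha; have h2 := hBm c hc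
      rcases hx3 b d with h3 | h3 | h3
      · subst h3; left; exact ⟨by omega, rfl⟩
      · omega
      · omega
    · have h1 := hBm a ha; have h2 := hBm d hd
      rcases hx3 b c with h3 | h3 | h3
      · subst h3; right; exact ⟨by omega, rfl⟩
      · omega
      · omega
    · have := hBm a ha; have := hx2 b (hGp b hb); have := hx1 c; have := hx1 d; omega
    · have := hBm c hc; have := hBm d hd; have := hx1 a; omega
    · have h1 := hBm b hb; have h2 := hBm c hc
      rcases hx3 a d with h3 | h3 | h3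
      · subst h3; right; exact ⟨rfl, by omega⟩
      · omega
      · omega
    · have h1 := hBm b hb; have h2 := hBm d hd
      rcases hx3 a c with h3 | h3 | h3
      · subst h3; left; exact ⟨rfl, by omega⟩
      · omega
      · omega
    · have := hBm b hb; have := hx2 a (hGp a ha); have := hx1 c; have := hx1 d; omega
    · have := hBm c hc; have := hBm d hd; have := hx1 a; omega
    · have := hBm c hc; have := hx2 d (hGp d hd); have := hx1 a; have := hx1 b; omega
    · have := hBm d hd; have := hx2 c (hGp c hc); have := hx1 a; have := hx1 b; omega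
    · rcases hx4 a (hGp a ha) b (hGp b hb) c (hGp c hc) d (hGp d hd) h with h1 | h1
      · left; rw [h1.1, h1.2]; exact ⟨rfl, rfl⟩
      · right; rw [h1.1, h1.2]; exact ⟨rfl, rfl⟩
  · -- the sums avoid `R`
    intro a ha b hb
    rw [Finset.mem_union, Finset.mem_image] at ha hb
    rcases ha with ha | ⟨a, ha, rfl⟩ <;> rcases hb with hb | ⟨b, hb, rfl⟩
    · exact hBR a ha b hb
    · rw [add_comm]
      exact hG1 b hb a ha
    · exact hG1 a ha b hb
    · exact hG2 a ha b hb
  · intro b hb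
    rw [Finset.mem_union, Finset.mem_image] at hb
    rcases hb with hb | ⟨b, hb, rfl⟩
    · exact hB1 b hb
    · have := hx1 b
      omega
  · intro y hy hyB
    rw [Finset.mem_union, Finset.mem_image] at hy
    rcases hy with hy | ⟨b, hb, rfl⟩
    · exact absurd hy hyB
    · have := hx1 b
      omega
  · have h1 : G.card ≤ count ((B ∪ G.image x : Finset ℕ) : Set ℕ) (7 * p ^ 2) := by
      rw [← Finset.card_image_of_injective G hxinj, ← Set.ncard_coe_finset]
      unfold count
      refine Set.ncard_le_ncard ?_ ((Set.finite_Icc 1 (7 * p ^ 2)).subset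
        Set.inter_subset_right)
      intro y hy
      refine ⟨?_, ?_⟩
      · rw [Finset.mem_coe] at hy ⊢
        exact Finset.mem_union_right _ hy
      · rw [Finset.mem_coe, Finset.mem_image] at hy
        obtain ⟨b, hb, rfl⟩ := hy
        have h2 := hx1 b
        have h3 := hx2 b (hGp b hb)
        exact ⟨by omega, by omega⟩
    have h2 : √((7 * p ^ 2 : ℕ) : ℝ) ≤ 3 * p := by
      rw [Real.sqrt_le_left (by positivity)]
      push_cast
      nlinarith [sq_nonneg (p : ℝ)]
    have h3 : (p : ℝ) ≤ 2 * ((8 * C + 1) *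
        count ((B ∪ G.image x : Finset ℕ) : Set ℕ) (7 * p ^ 2)) := by
      exact_mod_cast hVc.trans (Nat.mul_le_mul_left 2 (hGc.trans
        (Nat.mul_le_mul_left _ h1)))
    calc √((7 * p ^ 2 : ℕ) : ℝ) ≤ 3 * p := h2
      _ ≤ 3 * (2 * ((8 * C + 1) *
          count ((B ∪ G.image x : Finset ℕ) : Set ℕ) (7 * p ^ 2))) :=
          mul_le_mul_of_nonneg_left h3 (by norm_num)
      _ = _ := by ring

/-- **Sidon sets of positive upper density whose sumset avoids a thin set.** -/
theorem sidon_avoiding (R : Set ℕ) (c : ℝ)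
    (hR : ∃ᶠ N : ℕ in atTop, (count R N : ℝ) ≤ c * √N) :
    ∃ A : Set ℕ, (∀ n, rep A n ≤ 2) ∧ (∀ n ∈ R, rep A n = 0) ∧
      ∃ C : ℝ, ∃ᶠ N : ℕ in atTop, √(N : ℝ) ≤ C * (count A N : ℝ) := by
  classical
  obtain ⟨C, hC, hC2⟩ := exists_primes R c hR
  have hstep := step R C hC hC2
  choose! f hf1 hf2 hf3 g hg1 hg2 using hstep
  let B : ℕ → Finset ℕ := fun i => Nat.rec ∅ (fun i C => f C i) i
  have hB0 : B 0 = ∅ := rfl
  have hBs : ∀ i, B (i + 1) = f (B i) i := fun i => rfl
  have hgood : ∀ i, Good R (B i) := by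
    intro i
    induction i with
    | zero =>
        rw [hB0]
        refine ⟨?_, ?_, ?_⟩
        · intro a ha; simp at ha
        · intro a ha; simp at ha
        · intro a ha; simp at ha
    | succ i ih => rw [hBs]; exact hf1 _ ih i
  have hold : ∀ i j, i ≤ j → ∀ y ∈ B j, y ≤ i → y ∈ B i := by
    intro i j hij
    induction j, hij using Nat.le_induction with
    | base => intro y hy _; exact hy
    | succ j hij ih =>
        intro y hy hyi
        rcases Classical.em (y ∈ B j) with h1 | h1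
        · exact ih y h1 hyi
        · exfalso
          rw [hBs] at hy
          have := hf3 _ (hgood j) j y hy h1
          omega
  have hmono : ∀ i j, i ≤ j → B i ⊆ B j := by
    intro i j hij
    induction j, hij using Nat.le_induction with
    | base => exact fun _ h => h
    | succ j hij ih =>
        refine ih.trans ?_
        rw [hBs]
        exact hf2 _ (hgood j) j
  set A : Set ℕ := {y | ∃ i, y ∈ B i} with hA
  have hAB : ∀ n, ∀ y ∈ A, y ≤ n → y ∈ B n := by
    rintro n y ⟨i, hi⟩ hy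
    rcases le_total i n with h | h
    · exact hmono i n h hi
    · exact hold n i h y hi hy
  refine ⟨A, ?_, ?_, ?_⟩
  · intro n
    unfold rep
    by_cases hne : {p : ℕ × ℕ | p.1 ∈ A ∧ p.2 ∈ A ∧ p.1 + p.2 = n}.Nonempty
    · obtain ⟨q, hq1, hq2, hq3⟩ := hne
      have h1 : {p : ℕ × ℕ | p.1 ∈ A ∧ p.2 ∈ A ∧ p.1 + p.2 = n} ⊆
          (({q, (q.2, q.1)} : Finset (ℕ × ℕ)) : Set (ℕ × ℕ)) := by
        rintro r ⟨hr1, hr2, hr3⟩
        rw [Finset.mem_coe, Finset.mem_insert, Finset.mem_singleton]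
        rcases (hgood n).1 r.1 (hAB n _ hr1 (by omega)) r.2 (hAB n _ hr2 (by omega))
          q.1 (hAB n _ hq1 (by omega)) q.2 (hAB n _ hq2 (by omega)) (by omega) with h2 | h2
        · left; exact Prod.ext h2.1 h2.2
        · right; exact Prod.ext h2.1 h2.2
      refine (Set.ncard_le_ncard h1 (Finset.finite_toSet _)).trans ?_
      rw [Set.ncard_coe_finset]
      exact Finset.card_le_two
    · rw [Set.not_nonempty_iff_eq_empty.1 hne]
      simp
  · intro n hn
    by_contra hne
    obtain ⟨a, ha, b, hb, hab⟩ := one_le_rep.1 (Nat.one_le_iff_ne_zero.2 hne)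
    refine (hgood n).2.1 a (hAB n _ ha (by omega)) b (hAB n _ hb (by omega)) ?_
    rw [hab]
    exact hn
  · refine ⟨6 * (8 * C + 1), ?_⟩
    rw [frequently_atTop]
    intro N
    refine ⟨g (B N) N, hg1 _ (hgood N) N, (hg2 _ (hgood N) N).trans ?_⟩
    have h1 : count (f (B N) N : Set ℕ) (g (B N) N) ≤ count A (g (B N) N) := by
      unfold count
      refine Set.ncard_le_ncard ?_ ((Set.finite_Icc 1 _).subset Set.inter_subset_right)
      rintro y ⟨hy, hy2⟩
      refine ⟨⟨N + 1, ?_⟩, hy2⟩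
      rw [hBs]
      exact hy
    have h2 : (count (f (B N) N : Set ℕ) (g (B N) N) : ℝ) ≤ count A (g (B N) N) := by
      exact_mod_cast h1
    exact mul_le_mul_of_nonneg_left h2 (by positivity)

end Pool.Agent.H33.TS
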