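import Pool.Agent.H33.TS.Defs

/-!
# The union bound
-/

set_option autoImplicit false

namespace Pool.Agent.H33.TS

open Finset

theorem exists_fn {α : Type} (I : Finset ℕ) (F : Finset α) (cov : α → Finset ℕ)
    (_hcov : ∀ a ∈ F, cov a ⊆ I) (s : ℕ)
    (h : ∑ a ∈ F, (cov a).card ^ s < I.card ^ s) :
    ∃ f : Fin s → ℕ, (∀ i, f i ∈ I) ∧ ∀ a ∈ F, ∃ i, f i ∉ cov a := by
  classical
  have h1 : (F.biUnion fun a => Fintype.piFinset fun _ : Fin s => cov a).card <
      (Fintype.piFinset fun _ : Fin s => I).card := by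
    refine lt_of_le_of_lt Finset.card_biUnion_le ?_
    simpa using h
  obtain ⟨f, hf, hf2⟩ := Finset.exists_mem_notMem_of_card_lt_card h1
  refine ⟨f, fun i => (Fintype.mem_piFinset.1 hf) i, fun a ha => ?_⟩
  by_contra hcon
  push Not at hcon
  exact hf2 (Finset.mem_biUnion.2 ⟨a, ha, Fintype.mem_piFinset.2 hcon⟩)

end Pool.Agent.H33.TS
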